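import Pool.Agent.TH160.Stm

/-!
# Infinitely many good Hesse parameters (job 332 of helper160, MP_06906d_ag)
-/

set_option autoImplicit false

namespace Pool.Agent.TH897.J332

open TH160 Polynomial

/-- algebraic elements over `ℂ` are constants -/
theorem const_of_aeval {L : Type} [Field L] [Algebra ℂ L] {x : L} {p : ℂ[X]} (hp : p ≠ 0)
    (h : aeval x p = 0) : x ∈ Set.range (algebraMap ℂ L) := by
  have hi : IsIntegral ℂ x := IsAlgebraic.isIntegral ⟨p, hp, h⟩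
  refine ⟨-(minpoly ℂ x).coeff 0, ?_⟩
  have hq : (minpoly ℂ x).leadingCoeff = 1 := minpoly.monic hi
  have h1 : (minpoly ℂ x).degree = 1 := IsAlgClosed.degree_eq_one_of_irreducible ℂ
    (minpoly.irreducible hi)
  have : aeval x (minpoly ℂ x) = 0 := minpoly.aeval ℂ x
  rw [eq_X_add_C_of_degree_eq_one h1, hq, C_1, one_mul, aeval_add, aeval_X, aeval_C,
    add_eq_zero_iff_eq_neg] at this
  rw [map_neg, ← this]

theorem coeffs (a0 a1 a2 a3 a4 a5 a6 : ℂ)
    (h : C a6 * X ^ 6 + C a5 * X ^ 5 + C a4 * X ^ 4 + C a3 * X ^ 3 + C a2 * X ^ 2 + C a1 * X +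
      C a0 = 0) : a0 = 0 ∧ a6 = 0 := by
  have c0 := congrArg (fun q => coeff q 0) h
  have c6 := congrArg (fun q => coeff q 6) h
  simp [coeff_X, coeff_C, -map_eq_zero] at c0 c6
  exact ⟨c0, c6⟩

/-- the polynomial identity behind the isogeny -/
theorem keyid {L : Type} [Field L] (t m x y : L) :
    3 * (t ^ 3 + 1) ^ 2 * ((t ^ 3 - 2) * (1 + t * x * y) + 3 * t * (x ^ 2 + t * y + y ^ 2 + t * x)) *
      (m + x + y) - t * (3 * (m + t) + (t ^ 3 + 1) * (x + y)) ^ 3 =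
    t * (t ^ 3 + 1) ^ 2 * (8 - t ^ 3) * (1 + x ^ 3 + y ^ 3 - 3 * m * x * y) -
      (3 * (t ^ 3 + 1) * (x + y) + t * (t ^ 3 + 1) + 3 * (m + t)) *
        (9 * t * m ^ 2 + 3 * t ^ 2 * (5 - t ^ 3) * m - (t ^ 6 - 10 * t ^ 3 - 2)) := by
  ring

/-- the map sends the Hesse cubic to the Hesse cubic -/
theorem mapid {L : Type} [Field L] (t m x y : L) :
    t * ((1 + t * x * y) ^ 3 + (x ^ 2 + t * y) ^ 3 + (y ^ 2 + t * x) ^ 3) -
      (t ^ 3 - 2) * ((1 + t * x * y) * (x ^ 2 + t * y) * (y ^ 2 + t * x)) =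
    t * (1 + x ^ 3 + y ^ 3 - 3 * m * x * y) *
      (1 + x ^ 3 + y ^ 3 + 3 * m * x * y + t * (5 - t ^ 3) * (x * y)) +
      (x * y) ^ 2 * (9 * t * m ^ 2 + 3 * t ^ 2 * (5 - t ^ 3) * m - (t ^ 6 - 10 * t ^ 3 - 2)) := by
  ring

theorem alg6 {L : Type} [Field L] {P Q a b l0 l2 B0 B2 G τ s : L} (hτ : τ ≠ 0)
    (e5 : P * a = b * Q * G ^ 3) (k0 : 3 * s ^ 2 * (3 * τ * a) * l0 = τ * B0 ^ 3)
    (k1 : 3 * s ^ 2 * (3 * τ * b) * l2 = τ * B2 ^ 3) :
    P * B0 ^ 3 * l2 = B2 ^ 3 * l0 * Q * G ^ 3 := by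
  apply mul_left_cancel₀ hτ
  linear_combination (9 * s ^ 2 * τ * l0 * l2) * e5 - P * l2 * k0 + l0 * Q * G ^ 3 * k1

theorem alg7 {L : Type} [Field L] {P Q l0 l1 l2 B0 B2 G N : L} (hB : B0 ≠ 0) (hN : N ≠ 0)
    (e6 : P * B0 ^ 3 * l2 = B2 ^ 3 * l0 * Q * G ^ 3) (e7 : N ^ 3 = l0 * l1 * l2) :
    P * l0 = l1 * Q * (B2 * l0 * G / (B0 * N)) ^ 3 := by
  have hD : (B0 * N) ^ 3 ≠ 0 := pow_ne_zero 3 (mul_ne_zero hB hN)
  rw [div_pow, ← mul_div_assoc, eq_div_iff hD, mul_pow, e7]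
  linear_combination (l0 ^ 2 * l1) * e6

theorem alg5 {L : Type} [Field L] {W x' y' M' X' Y' Z' G : L} (hX : X' ≠ 0)
    (e4 : (W * x' + W ^ 2 * y') * (M' + Y' / X' + Z' / X') =
      (M' + W * (Y' / X') + W ^ 2 * (Z' / X')) * (x' + y') * G ^ 3) :
    (W * x' + W ^ 2 * y') * (M' * X' + Y' + Z') =
      (M' * X' + W * Y' + W ^ 2 * Z') * (x' + y') * G ^ 3 := by
  have h8 : (M' + Y' / X' + Z' / X') * X' = M' * X' + Y' + Z' := by field_simp
  have h9 : (M' + W * (Y' / X') + W ^ 2 * (Z' / X')) * X' = M' * X' + W * Y' + W ^ 2 * Z' := by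
    field_simp
  rw [← h8, ← h9]
  linear_combination X' * e4

/-- symmetry of the set of good parameters -/
theorem good_mul {w m : ℂ} (hw : w ^ 2 + w + 1 = 0) (hg : Good w m) : Good w (w * m) := by
  intro L _ _ x y hxy hx
  set W : L := algebraMap ℂ L w with hW
  set M : L := algebraMap ℂ L m with hM
  have hw3 : w ^ 3 = 1 := by linear_combination (w - 1) * hw
  have hw0 : w ≠ 0 := by rintro rfl; norm_num at hw
  have hW3 : W ^ 3 = 1 := by rw [hW, ← map_pow, hw3, map_one]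
  have hW0 : W ≠ 0 := by rw [hW]; exact (map_ne_zero_iff _ (algebraMap ℂ L).injective).mpr hw0
  rw [map_mul, ← hW, ← hM] at hxy ⊢
  have h1 : 1 + (W ^ 2 * x) ^ 3 + (W ^ 2 * y) ^ 3 = 3 * M * (W ^ 2 * x) * (W ^ 2 * y) := by
    linear_combination hxy + (W ^ 3 + 1) * x ^ 3 * hW3 + (W ^ 3 + 1) * y ^ 3 * hW3 -
      3 * M * x * y * W * hW3
  have h2 : W ^ 2 * x ∉ Set.range (algebraMap ℂ L) := by
    rintro ⟨c, hc⟩
    refine hx ⟨c * w, ?_⟩
    rw [map_mul, hc, ← hW]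
    linear_combination x * hW3
  obtain ⟨x', y', G, e1, e2, e3, e4⟩ := hg L (W ^ 2 * x) (W ^ 2 * y) h1 h2
  refine ⟨x', y', G, e1, e2, e3, ?_⟩
  rw [← hW, ← hM] at e4
  have h3 : W ^ 2 ≠ 0 := pow_ne_zero 2 hW0
  apply mul_left_cancel₀ h3
  linear_combination e4 + (W * x' + W ^ 2 * y') * M * hW3 -
    (x' + y') * G ^ 3 * M * hW3

/-- the isogeny step -/
theorem step {w t m m' : ℂ} (hw : w ^ 2 + w + 1 = 0) (ht : t ≠ 0) (ht6 : t ^ 6 ≠ 1)
    (hm' : 3 * t * m' = t ^ 3 - 2)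
    (hrel : 9 * t * m ^ 2 + 3 * t ^ 2 * (5 - t ^ 3) * m - (t ^ 6 - 10 * t ^ 3 - 2) = 0)
    (h1 : m ^ 3 ≠ 1) (h2 : m' ^ 3 ≠ 1) (hg : Good w m') : Good w m := by
  intro L _ _ x y hxy hx
  obtain ⟨ν, hν⟩ : ∃ ν : ℂ, ν ^ 3 = m ^ 3 - 1 := IsAlgClosed.exists_pow_nat_eq _ (by norm_num)
  have inj := (algebraMap ℂ L).injective
  have hw3 : w ^ 3 = 1 := by linear_combination (w - 1) * hw
  have hs : t ^ 3 + 1 ≠ 0 := by
    intro h
    apply ht6
    linear_combination (t ^ 3 - 1) * h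
  -- transfer to `L`
  have T1 : (9 : L) * algebraMap ℂ L t * algebraMap ℂ L m ^ 2 +
      3 * algebraMap ℂ L t ^ 2 * (5 - algebraMap ℂ L t ^ 3) * algebraMap ℂ L m -
      (algebraMap ℂ L t ^ 6 - 10 * algebraMap ℂ L t ^ 3 - 2) = 0 := by
    have := congrArg (algebraMap ℂ L) hrel
    simpa only [map_add, map_sub, map_mul, map_pow, map_ofNat, map_zero] using this
  have T2 : (3 : L) * algebraMap ℂ L t * algebraMap ℂ L m' = algebraMap ℂ L t ^ 3 - 2 := by
    have := congrArg (algebraMap ℂ L) hm'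
    simpa only [map_add, map_sub, map_mul, map_pow, map_ofNat, map_zero] using this
  have T3 : algebraMap ℂ L w ^ 2 + algebraMap ℂ L w + 1 = 0 := by
    have := congrArg (algebraMap ℂ L) hw
    simpa using this
  have T4 : algebraMap ℂ L ν ^ 3 = algebraMap ℂ L m ^ 3 - 1 := by
    have := congrArg (algebraMap ℂ L) hν
    simpa using this
  have T5 : algebraMap ℂ L t ^ 3 + 1 ≠ 0 := by
    intro h
    apply hs; apply inj; simpa using h
  have T6 : algebraMap ℂ L t ≠ 0 := (map_ne_zero_iff _ inj).mpr ht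
  have T7 : algebraMap ℂ L m ^ 3 - 1 ≠ 0 := by
    intro h
    apply h1; apply inj
    rw [map_pow, map_one]; linear_combination h
  have T8 : algebraMap ℂ L m' ^ 3 - 1 ≠ 0 := by
    intro h
    apply h2; apply inj
    rw [map_pow, map_one]; linear_combination h
  have T9 : (3 : L) ≠ 0 := by
    have : (algebraMap ℂ L) 3 ≠ 0 := (map_ne_zero_iff _ inj).mpr (by norm_num)
    rwa [map_ofNat] at this
  have hx0 : x ≠ 0 := fun h => hx ⟨0, by rw [h, map_zero]⟩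
  -- the denominator
  have hX' : 1 + algebraMap ℂ L t * x * y ≠ 0 := by
    intro h
    let p : ℂ[X] := C (t ^ 3) * X ^ 6 + C (t ^ 3 + 3 * m * t ^ 2) * X ^ 3 - C 1
    apply hx
    apply const_of_aeval (p := p)
    · intro hp
      have := congrArg (fun q => coeff q 0) hp
      simp [p, coeff_one] at this
    · simp only [p, map_add, map_sub, map_mul, map_pow, aeval_C, aeval_X]
      simp only [map_add, map_mul, map_pow, map_one, map_ofNat]
      linear_combination (algebraMap ℂ L t ^ 3 * x ^ 3) * hxy -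
        ((algebraMap ℂ L t * x * y) ^ 2 - algebraMap ℂ L t * x * y + 1 -
          3 * algebraMap ℂ L m * algebraMap ℂ L t ^ 2 * x ^ 3) * h
  set τ : L := algebraMap ℂ L t with hτ
  set M : L := algebraMap ℂ L m with hM
  set M' : L := algebraMap ℂ L m' with hM'
  set W : L := algebraMap ℂ L w with hW
  set N : L := algebraMap ℂ L ν with hN
  have hE : 1 + x ^ 3 + y ^ 3 - 3 * M * x * y = 0 := by linear_combination hxy
  set X' : L := 1 + τ * x * y with hX'def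
  set Y' : L := x ^ 2 + τ * y with hY'def
  set Z' : L := y ^ 2 + τ * x with hZ'def
  -- the new point lies on the cubic
  have hcub : X' ^ 3 + Y' ^ 3 + Z' ^ 3 = 3 * M' * X' * Y' * Z' := by
    apply mul_left_cancel₀ T6
    have h3 := mapid τ M x y
    rw [T1, hE] at h3
    linear_combination h3 - X' * Y' * Z' * T2
  have hnew : 1 + (Y' / X') ^ 3 + (Z' / X') ^ 3 = 3 * M' * (Y' / X') * (Z' / X') := by
    field_simp
    linear_combination hcub
  -- it is not constant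
  have hnc : Y' / X' ∉ Set.range (algebraMap ℂ L) := by
    rintro ⟨k, hk⟩
    have hk' : Y' = algebraMap ℂ L k * X' := by rw [hk]; field_simp
    let p : ℂ[X] := C (-(k ^ 3 * t ^ 3) - 1) * X ^ 6 + C (3 * k ^ 2 * t ^ 3 + 3 * m * t ^ 2 * k ^ 2) *
      X ^ 5 + C (-(3 * k * t ^ 3) + 3 * k - 6 * m * t ^ 2 * k) * X ^ 4 +
      C (t ^ 3 * (1 - k ^ 3) + 3 * m * t ^ 2 * (1 - k ^ 3)) * X ^ 3 +
      C (3 * k ^ 2 * t ^ 3 - 3 * k ^ 2 + 6 * m * t ^ 2 * k ^ 2) * X ^ 2 +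
      C (-(3 * k * t ^ 3) - 3 * m * t ^ 2 * k) * X + C (t ^ 3 + k ^ 3)
    have hne : 1 - algebraMap ℂ L k * x ≠ 0 := by
      intro h
      have hk0 : k ≠ 0 := by rintro rfl; simp at h
      apply hx
      refine ⟨k⁻¹, ?_⟩
      have hk1 : algebraMap ℂ L k ≠ 0 := (map_ne_zero_iff _ inj).mpr hk0
      rw [map_inv₀]
      field_simp
      linear_combination h
    apply hx
    apply const_of_aeval (p := p)
    · intro hp
      obtain ⟨c0, c6⟩ := coeffs _ _ _ _ _ _ _ hp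
      apply ht6
      linear_combination t ^ 3 * c0 + c6
    · simp only [p, map_add, map_sub, map_mul, map_pow, aeval_C, aeval_X]
      simp only [map_add, map_sub, map_mul, map_pow, map_one, map_ofNat, map_neg]
      rw [← hτ, ← hM]
      set κ : L := algebraMap ℂ L k
      have h4 : τ * y * (1 - κ * x) = κ - x ^ 2 := by
        rw [hY'def, hX'def] at hk'
        linear_combination hk'
      linear_combination (τ ^ 3 * (1 - κ * x) ^ 3) * hE - ((τ * y * (1 - κ * x)) ^ 2 +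
        (τ * y * (1 - κ * x)) * (κ - x ^ 2) + (κ - x ^ 2) ^ 2) * h4 +
        3 * M * τ ^ 2 * x * (1 - κ * x) ^ 2 * h4
  obtain ⟨x', y', G1, e1, e2, e3, e4⟩ := hg L (Y' / X') (Z' / X') hnew hnc
  rw [← hM', ← hW] at e4
  have hW3 : W ^ 3 = 1 := by linear_combination (W - 1) * T3
  set s : L := τ ^ 3 + 1 with hs'
  have k0 : 3 * s ^ 2 * ((τ ^ 3 - 2) * X' + 3 * τ * (Y' + Z')) * (M + x + y) =
      τ * (3 * (M + τ) + s * (x + y)) ^ 3 := by
    have := keyid τ M x y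
    rw [T1, hE] at this
    rw [hX'def, hY'def, hZ'def, hs']
    linear_combination this
  have k1 : 3 * s ^ 2 * ((τ ^ 3 - 2) * X' + 3 * τ * (W * Y' + W ^ 2 * Z')) *
      (M + W ^ 2 * x + W * y) = τ * (3 * (M + τ) + s * (W ^ 2 * x + W * y)) ^ 3 := by
    have := keyid τ M (W ^ 2 * x) (W * y)
    have hE' : 1 + (W ^ 2 * x) ^ 3 + (W * y) ^ 3 - 3 * M * (W ^ 2 * x) * (W * y) = 0 := by
      linear_combination hE + (W ^ 3 + 1) * x ^ 3 * hW3 + y ^ 3 * hW3 - 3 * M * x * y * hW3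
    rw [T1, hE'] at this
    have h5 : (τ ^ 3 - 2) * (1 + τ * (W ^ 2 * x) * (W * y)) +
        3 * τ * ((W ^ 2 * x) ^ 2 + τ * (W * y) + (W * y) ^ 2 + τ * (W ^ 2 * x)) =
        (τ ^ 3 - 2) * X' + 3 * τ * (W * Y' + W ^ 2 * Z') := by
      rw [hX'def, hY'def, hZ'def]
      linear_combination ((τ ^ 3 - 2) * τ * x * y + 3 * τ * W * x ^ 2) * hW3
    rw [h5] at this
    rw [hs']
    linear_combination this
  have hl : (M + x + y) * (M + W * x + W ^ 2 * y) * (M + W ^ 2 * x + W * y) = M ^ 3 - 1 := by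
    have h6 : (M + x + y) * (M + W * x + W ^ 2 * y) * (M + W ^ 2 * x + W * y) =
        M ^ 3 + x ^ 3 + y ^ 3 - 3 * M * x * y := by
      linear_combination (M ^ 2 * x + M ^ 2 * y + M * x ^ 2 * W + M * y ^ 2 * W + 3 * M * x * y +
        W ^ 2 * x ^ 2 * y + W ^ 2 * x * y ^ 2) * T3 + (M * x * y * W + x ^ 3 + y ^ 3) * hW3
    rw [h6]; linear_combination hE
  -- factors of the cubic of the new point
  have hl' : (M' * X' + Y' + Z') * (M' * X' + W * Y' + W ^ 2 * Z') *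
      (M' * X' + W ^ 2 * Y' + W * Z') = (M' ^ 3 - 1) * X' ^ 3 := by
    have h6 : (M' * X' + Y' + Z') * (M' * X' + W * Y' + W ^ 2 * Z') *
        (M' * X' + W ^ 2 * Y' + W * Z') =
        (M' * X') ^ 3 + Y' ^ 3 + Z' ^ 3 - 3 * (M' * X') * Y' * Z' := by
      linear_combination ((M' * X') ^ 2 * Y' + (M' * X') ^ 2 * Z' + (M' * X') * Y' ^ 2 * W +
        (M' * X') * Z' ^ 2 * W + 3 * (M' * X') * Y' * Z' + W ^ 2 * Y' ^ 2 * Z' +
        W ^ 2 * Y' * Z' ^ 2) * T3 + ((M' * X') * Y' * Z' * W + Y' ^ 3 + Z' ^ 3) * hW3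
    rw [h6]; linear_combination hcub
  have hl'0 : (M' * X' + Y' + Z') * (M' * X' + W * Y' + W ^ 2 * Z') *
      (M' * X' + W ^ 2 * Y' + W * Z') ≠ 0 := by
    rw [hl']; exact mul_ne_zero T8 (pow_ne_zero 3 hX')
  have hL0' : M' * X' + Y' + Z' ≠ 0 := fun h => hl'0 (by rw [h]; ring)
  have hL1' : M' * X' + W * Y' + W ^ 2 * Z' ≠ 0 := fun h => hl'0 (by rw [h]; ring)
  have hl0 : (M + x + y) * (M + W * x + W ^ 2 * y) * (M + W ^ 2 * x + W * y) ≠ 0 := by
    rw [hl]; exact T7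
  have hL0 : M + x + y ≠ 0 := fun h => hl0 (by rw [h]; ring)
  have hL2 : M + W ^ 2 * x + W * y ≠ 0 := fun h => hl0 (by rw [h]; ring)
  have hA0 : (τ ^ 3 - 2) * X' + 3 * τ * (Y' + Z') = 3 * τ * (M' * X' + Y' + Z') := by
    linear_combination -X' * T2
  have hA1 : (τ ^ 3 - 2) * X' + 3 * τ * (W * Y' + W ^ 2 * Z') =
      3 * τ * (M' * X' + W * Y' + W ^ 2 * Z') := by
    linear_combination -X' * T2
  rw [hA0] at k0
  rw [hA1] at k1
  set B0 : L := 3 * (M + τ) + s * (x + y) with hB0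
  set B2 : L := 3 * (M + τ) + s * (W ^ 2 * x + W * y) with hB2
  have hB0' : B0 ≠ 0 := by
    intro h
    rw [h] at k0
    have : 3 * s ^ 2 * (3 * τ * (M' * X' + Y' + Z')) * (M + x + y) ≠ 0 := by
      have := pow_ne_zero 2 T5
      exact mul_ne_zero (mul_ne_zero (mul_ne_zero T9 this)
        (mul_ne_zero (mul_ne_zero T9 T6) hL0')) hL0
    exact this (by rw [k0]; ring)
  have hB2' : B2 ≠ 0 := by
    intro h
    rw [h] at k1
    have : 3 * s ^ 2 * (3 * τ * (M' * X' + W * Y' + W ^ 2 * Z')) * (M + W ^ 2 * x + W * y) ≠ 0 := by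
      have := pow_ne_zero 2 T5
      exact mul_ne_zero (mul_ne_zero (mul_ne_zero T9 this)
        (mul_ne_zero (mul_ne_zero T9 T6) hL1')) hL2
    exact this (by rw [k1]; ring)
  have hN : N ≠ 0 := by
    intro h
    apply T7
    rw [← T4, h]; ring
  refine ⟨x', y', B2 * (M + x + y) * G1 / (B0 * N), e1, e2, ?_, ?_⟩
  · exact div_ne_zero (mul_ne_zero (mul_ne_zero hB2' hL0) e3) (mul_ne_zero hB0' hN)
  · exact alg7 hB0' hN (alg6 T6 (alg5 hX' e4) k0 k1) (by rw [hl, T4])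

/-- the base case -/
theorem good_zero (w : ℂ) : Good w 0 := by
  intro L _ _ x y hxy hx
  refine ⟨x, y, 1, ?_, hx, one_ne_zero, ?_⟩
  · rw [map_zero] at hxy; linear_combination hxy
  · rw [map_zero]; ring

/-- the real branch -/
theorem branch {w : ℂ} (hw : w ^ 2 + w + 1 = 0) {r : ℝ} (hr : 1 < r) (hg : Good w (r : ℂ)) :
    ∃ r' : ℝ, r < r' ∧ Good w (r' : ℂ) := by
  -- solve for `t`
  obtain ⟨t, ht2, ht⟩ : ∃ t : ℝ, 2 < t ∧ t ^ 3 - 2 = 3 * t * r := by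
    have hcont : ContinuousOn (fun t : ℝ => t ^ 3 - 2 - 3 * t * r) (Set.Icc 2 (3 * r + 2)) := by
      fun_prop
    have h0 : (0 : ℝ) ∈ Set.Ioc ((fun t : ℝ => t ^ 3 - 2 - 3 * t * r) 2)
        ((fun t : ℝ => t ^ 3 - 2 - 3 * t * r) (3 * r + 2)) := by
      constructor
      · simp only; linarith
      · simp only
        nlinarith [mul_pos (show 0 < r by linarith) (show 0 < r by linarith),
          mul_pos (mul_pos (show 0 < r by linarith) (show 0 < r by linarith))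
            (show 0 < r by linarith)]
    obtain ⟨t, ht, h⟩ := intermediate_value_Ioc (by linarith) hcont h0
    exact ⟨t, ht.1, by simp only at h; linarith⟩
  have ht0 : 0 < t := by linarith
  have hD : 0 ≤ t ^ 4 - 8 * t := by
    have : t ^ 4 - 8 * t = t * (t - 2) * (t ^ 2 + 2 * t + 4) := by ring
    rw [this]
    have : 0 ≤ t - 2 := by linarith
    positivity
  set q : ℝ := Real.sqrt (t ^ 4 - 8 * t) with hq
  have hq2 : q ^ 2 = t ^ 4 - 8 * t := Real.sq_sqrt hD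
  have hq0 : 0 ≤ q := Real.sqrt_nonneg _
  set r' : ℝ := (t ^ 2 * (t ^ 3 - 5) + (t ^ 3 + 1) * q) / (6 * t) with hr'
  have hrel : 9 * t * r' ^ 2 + 3 * t ^ 2 * (5 - t ^ 3) * r' - (t ^ 6 - 10 * t ^ 3 - 2) = 0 := by
    rw [hr']
    field_simp
    linear_combination ((t ^ 3 + 1) ^ 2 * 9) * hq2
  have hlt : r < r' := by
    rw [hr', lt_div_iff₀ (by positivity)]
    have h1 : r * (6 * t) = 2 * (t ^ 3 - 2) := by rw [ht]; ring
    rw [h1]
    have h2 : t ^ 5 - 2 * t ^ 3 - 5 * t ^ 2 + 4 = (t - 2) * (t ^ 4 + 2 * t ^ 3 + 2 * t ^ 2 - t - 2) := by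
      ring
    have h3 : 0 < t - 2 := by linarith
    have h4 : 0 < t ^ 4 + 2 * t ^ 3 + 2 * t ^ 2 - t - 2 := by nlinarith [pow_pos ht0 3, pow_pos ht0 4]
    have h5 := mul_pos h3 h4
    have h6 : 0 ≤ (t ^ 3 + 1) * q := by positivity
    nlinarith
  have ht3 : (8 : ℝ) < t ^ 3 := by nlinarith
  refine ⟨r', hlt, step (t := (t : ℂ)) (m' := (r : ℂ)) hw ?_ ?_ ?_ ?_ ?_ ?_ hg⟩
  · exact_mod_cast ht0.ne'
  · have : t ^ 6 ≠ 1 := by nlinarith
    exact_mod_cast this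
  · have : 3 * t * r = t ^ 3 - 2 := ht.symm
    exact_mod_cast this
  · exact_mod_cast hrel
  · have : r' ^ 3 ≠ 1 := by
      have : 1 < r' := hr.trans hlt
      have := one_lt_pow₀ this (n := 3) (by norm_num)
      exact this.ne'
    exact_mod_cast this
  · have : r ^ 3 ≠ 1 := by
      have := one_lt_pow₀ hr (n := 3) (by norm_num)
      exact this.ne'
    exact_mod_cast this

theorem stmGoodInf : StmGoodInf := by
  intro w hw
  have hw3 : w ^ 3 = 1 := by linear_combination (w - 1) * hw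
  -- a first element
  obtain ⟨r, hr1, hr⟩ : ∃ r : ℝ, 1 < r ∧ Good w (r : ℂ) := by
    obtain ⟨r, hr1, hr⟩ : ∃ r : ℝ, 1 < r ∧ r ^ 3 = 2 := by
      have hcont : ContinuousOn (fun t : ℝ => t ^ 3) (Set.Icc 1 2) := by fun_prop
      obtain ⟨t, ht, h⟩ := intermediate_value_Ioc (by norm_num) hcont
        (show (2 : ℝ) ∈ Set.Ioc ((fun t : ℝ => t ^ 3) 1) ((fun t : ℝ => t ^ 3) 2) by
          constructor <;> norm_num)
      exact ⟨t, ht.1, h⟩
    refine ⟨r, hr1, ?_⟩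
    have hrC : (r : ℂ) ^ 3 = 2 := by exact_mod_cast hr
    have hr0 : (r : ℂ) ≠ 0 := by
      have : r ≠ 0 := by linarith
      exact_mod_cast this
    have h1 : Good w (w * r) := by
      refine step (t := (r : ℂ)) (m' := 0) hw hr0 ?_ ?_ ?_ ?_ ?_ (good_zero w)
      · intro h
        have : ((r : ℂ) ^ 3) ^ 2 = 1 := by rw [← h]; ring
        rw [hrC] at this
        norm_num at this
      · rw [hrC]; ring
      · linear_combination 9 * (r : ℂ) ^ 3 * hw - (3 * r ^ 3 * w + r ^ 3 + 1) * hrC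
      · rw [mul_pow, hw3, hrC]; norm_num
      · norm_num
    have h2 := good_mul hw (good_mul hw h1)
    have h3 : w * (w * (w * (r : ℂ))) = r := by linear_combination (r : ℂ) * hw3
    rwa [h3] at h2
  intro hfin
  obtain ⟨m, hm, hmax⟩ := hfin.exists_maximal ⟨r, hr1, hr⟩
  obtain ⟨m', hlt, hm'⟩ := branch hw hm.1 hm.2
  have := hmax ⟨hm.1.trans hlt, hm'⟩ hlt.le
  linarith

end Pool.Agent.TH897.J332
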