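import Pool.Agent.TH691.US.Defs

set_option autoImplicit false

/-!
# Permutations without adjacencies have density `e ^ (-2)`
-/

namespace Pool.Agent.TH897.J1582

open Equiv Filter Topology Finset
open Pool.Agent.TH691.US

/-- the permutation with value `v` at `q` and pattern `σ` elsewhere -/
def mk {n : ℕ} (q v : Fin (n + 1)) (σ : Perm (Fin n)) : Perm (Fin (n + 1)) :=
  (finSuccEquiv' q).trans ((Equiv.optionCongr σ).trans (finSuccEquiv' v).symm)

theorem mk_self {n : ℕ} (q v : Fin (n + 1)) (σ : Perm (Fin n)) : mk q v σ q = v := by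
  simp [mk]

theorem mk_above {n : ℕ} (q v : Fin (n + 1)) (σ : Perm (Fin n)) (i : Fin n) :
    mk q v σ (q.succAbove i) = v.succAbove (σ i) := by
  simp [mk]

theorem mk_inj {n : ℕ} (q : Fin (n + 1)) :
    Function.Injective (fun p : Fin (n + 1) × Perm (Fin n) => mk q p.1 p.2) := by
  rintro ⟨v, σ⟩ ⟨v', σ'⟩ h
  have h1 : v = v' := by
    have := congrArg (fun π : Perm (Fin (n + 1)) => π q) h
    simpa [mk_self] using this
  subst h1
  have h2 : σ = σ' := by
    ext i
    have := congrArg (fun π : Perm (Fin (n + 1)) => π (q.succAbove i)) h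
    simp only [mk_above] at this
    rw [Fin.succAbove_right_injective this]
  rw [h2]

theorem mk_surj {n : ℕ} (q : Fin (n + 1)) (π : Perm (Fin (n + 1))) :
    ∃ v σ, mk q v σ = π := by
  have hb : Function.Bijective (fun p : Fin (n + 1) × Perm (Fin n) => mk q p.1 p.2) := by
    rw [Fintype.bijective_iff_injective_and_card]
    refine ⟨mk_inj q, ?_⟩
    rw [Fintype.card_prod, Fintype.card_perm, Fintype.card_perm, Fintype.card_fin,
      Fintype.card_fin, Nat.factorial_succ]
  obtain ⟨⟨v, σ⟩, h⟩ := hb.2 π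
  exact ⟨v, σ, h⟩

/-- adjacency at the positions `i, i + 1` -/
def AdjAt {n : ℕ} (π : Perm (Fin n)) (i : ℕ) : Prop :=
  ∃ a b : Fin n, a.val = i ∧ b.val = i + 1 ∧
    ((π b).val = (π a).val + 1 ∨ (π a).val = (π b).val + 1)

theorem val_above {n : ℕ} (v : Fin (n + 1)) (x : Fin n) :
    (v.succAbove x).val = if x.val < v.val then x.val else x.val + 1 := by
  unfold Fin.succAbove
  split_ifs with h1 h2 h2
  · rfl
  · exact absurd h1 h2
  · exact absurd h2 h1
  · rfl

theorem mk_low {n : ℕ} (p : Fin n) (v : Fin (n + 1)) (σ : Perm (Fin n)) (j : Fin n)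
    (hj : j.val ≤ p.val) (a : Fin (n + 1)) (ha : a.val = j.val) :
    (mk p.succ v σ a).val = if (σ j).val < v.val then (σ j).val else (σ j).val + 1 := by
  have h1 : a = p.succ.succAbove j := by
    apply Fin.ext
    rw [val_above, ha]
    simp only [Fin.val_succ]
    split_ifs with h
    · rfl
    · omega
  rw [h1, mk_above, val_above]

theorem mk_high {n : ℕ} (p : Fin n) (v : Fin (n + 1)) (σ : Perm (Fin n)) (a : Fin (n + 1))
    (ha : a.val = p.val + 1) : mk p.succ v σ a = v := by
  have h1 : a = p.succ := Fin.ext (by rw [ha]; rfl)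
  rw [h1, mk_self]

theorem down {n : ℕ} (p : Fin n) (v : Fin (n + 1)) (σ : Perm (Fin n)) (i : ℕ) (hi : i < p.val)
    (h : AdjAt (mk p.succ v σ) i) : AdjAt σ i := by
  obtain ⟨a, b, ha, hb, h⟩ := h
  have hpn := p.isLt
  refine ⟨⟨i, by omega⟩, ⟨i + 1, by omega⟩, rfl, rfl, ?_⟩
  rw [mk_low p v σ ⟨i, by omega⟩ (by show i ≤ p.val; omega) a ha,
    mk_low p v σ ⟨i + 1, by omega⟩ (by show i + 1 ≤ p.val; omega) b hb] at h
  have hne : (σ ⟨i, by omega⟩).val ≠ (σ ⟨i + 1, by omega⟩).val := by
    intro he
    have := congrArg Fin.val (σ.injective (Fin.ext he))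
    simp at this
  split_ifs at h <;> omega

theorem up {n : ℕ} (p : Fin n) (v : Fin (n + 1)) (σ : Perm (Fin n)) (i : ℕ) (hi : i + 1 < p.val)
    (hv : v.val = (σ p).val ∨ v.val = (σ p).val + 1) (h : AdjAt σ i) :
    AdjAt (mk p.succ v σ) i := by
  obtain ⟨a, b, ha, hb, h⟩ := h
  refine ⟨a.castSucc, b.castSucc, ha, hb, ?_⟩
  rw [mk_low p v σ a (by omega) a.castSucc rfl, mk_low p v σ b (by omega) b.castSucc rfl]
  have h1 : (σ a).val ≠ (σ p).val := by
    intro he
    have := congrArg Fin.val (σ.injective (Fin.ext he))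
    omega
  have h2 : (σ b).val ≠ (σ p).val := by
    intro he
    have := congrArg Fin.val (σ.injective (Fin.ext he))
    omega
  split_ifs <;> omega

theorem at_p {n : ℕ} (p : Fin n) (v : Fin (n + 1)) (σ : Perm (Fin n)) :
    AdjAt (mk p.succ v σ) p.val ↔ v.val = (σ p).val ∨ v.val = (σ p).val + 1 := by
  constructor
  · rintro ⟨a, b, ha, hb, h⟩
    rw [mk_low p v σ p (le_refl _) a ha, mk_high p v σ b hb] at h
    split_ifs at h <;> omega
  · intro h
    refine ⟨p.castSucc, p.succ, rfl, rfl, ?_⟩
    rw [mk_low p v σ p (le_refl _) p.castSucc rfl, mk_self]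
    split_ifs <;> omega

open Classical in
/-- number of permutations with adjacencies at all positions of `J` -/
noncomputable def N (n : ℕ) (J : Finset ℕ) : ℕ :=
  (univ.filter (fun π : Perm (Fin n) => ∀ i ∈ J, AdjAt π i)).card

/-- insertion -/
def ins {n : ℕ} (p : Fin n) (x : Bool × Perm (Fin n)) : Perm (Fin (n + 1)) :=
  mk p.succ (if x.1 then (x.2 p).succ else (x.2 p).castSucc) x.2

theorem ins_inj {n : ℕ} (p : Fin n) : Function.Injective (ins p) := by
  rintro ⟨s, σ⟩ ⟨s', σ'⟩ h
  have h1 := mk_inj p.succ (a₁ := (if s then (σ p).succ else (σ p).castSucc, σ))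
    (a₂ := (if s' then (σ' p).succ else (σ' p).castSucc, σ')) h
  rw [Prod.mk.injEq] at h1
  obtain ⟨h2, h3⟩ := h1
  subst h3
  rcases s with _ | _ <;> rcases s' with _ | _
  · rfl
  · have := congrArg Fin.val h2
    simp at this
  · have := congrArg Fin.val h2
    simp at this
  · rfl

theorem val_ite {n : ℕ} (s : Bool) (y : Fin n) :
    (if s then y.succ else y.castSucc).val = y.val ∨
      (if s then y.succ else y.castSucc).val = y.val + 1 := by
  rcases s with _ | _
  · left; rfl
  · right; rfl

theorem N_le {n : ℕ} (J : Finset ℕ) (p : ℕ) (hp : p ∈ J) (hpn : p < n) (hmax : ∀ i ∈ J, i ≤ p) :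
    N (n + 1) J ≤ 2 * N n (J.erase p) := by
  classical
  have h1 : (univ.filter (fun π : Perm (Fin (n + 1)) => ∀ i ∈ J, AdjAt π i)) ⊆
      ((univ : Finset Bool) ×ˢ (univ.filter (fun π : Perm (Fin n) =>
        ∀ i ∈ J.erase p, AdjAt π i))).image (ins ⟨p, hpn⟩) := by
    intro π hπ
    rw [mem_filter] at hπ
    obtain ⟨v, σ, rfl⟩ := mk_surj (⟨p, hpn⟩ : Fin n).succ π
    have h2 := (at_p ⟨p, hpn⟩ v σ).1 (hπ.2 p hp)
    rw [mem_image]
    refine ⟨(decide (v.val = (σ ⟨p, hpn⟩).val + 1), σ), ?_, ?_⟩
    · rw [mem_product, mem_filter]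
      refine ⟨mem_univ _, mem_univ _, ?_⟩
      intro i hi
      have hip := Finset.mem_erase.1 hi
      have hle := hmax i hip.2
      exact down ⟨p, hpn⟩ v σ i (by show i < p; omega) (hπ.2 i hip.2)
    · unfold ins
      congr 1
      apply Fin.ext
      rcases h2 with h2 | h2
      · have h3 : ¬ v.val = (σ ⟨p, hpn⟩).val + 1 := by omega
        simp only [h3, decide_false, Bool.false_eq_true, if_false, Fin.val_castSucc]
        omega
      · simp only [h2, decide_true, if_true, Fin.val_succ]
  unfold N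
  refine (Finset.card_le_card h1).trans (Finset.card_image_le.trans ?_)
  rw [Finset.card_product]
  simp

theorem N_ge {n : ℕ} (J : Finset ℕ) (p : ℕ) (hpn : p < n)
    (hmax : ∀ i ∈ J, i = p ∨ i + 1 < p) : 2 * N n (J.erase p) ≤ N (n + 1) J := by
  classical
  unfold N
  have h1 : 2 * (univ.filter (fun π : Perm (Fin n) => ∀ i ∈ J.erase p, AdjAt π i)).card =
      ((univ : Finset Bool) ×ˢ (univ.filter (fun π : Perm (Fin n) =>
        ∀ i ∈ J.erase p, AdjAt π i))).card := by
    rw [Finset.card_product]; simp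
  rw [h1]
  refine Finset.card_le_card_of_injOn (ins ⟨p, hpn⟩) ?_ ((ins_inj _).injOn)
  rintro ⟨s, σ⟩ hs
  rw [Finset.mem_coe, mem_product, mem_filter] at hs
  rw [Finset.mem_coe, mem_filter]
  refine ⟨mem_univ _, ?_⟩
  intro i hi
  have hv := val_ite s (σ ⟨p, hpn⟩)
  rcases hmax i hi with h2 | h2
  · subst h2
    exact (at_p ⟨i, hpn⟩ _ σ).2 hv
  · exact up ⟨p, hpn⟩ _ σ i h2 hv (hs.2.2 i (Finset.mem_erase.2 ⟨by omega, hi⟩))

theorem N_empty (n : ℕ) : N n ∅ = n.factorial := by
  unfold N
  simp [Fintype.card_perm]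

theorem N_bound (k : ℕ) : ∀ (n : ℕ) (J : Finset ℕ), J.card = k → J ⊆ range (n - 1) →
    N n J ≤ 2 ^ k * (n - k).factorial := by
  induction k with
  | zero =>
    intro n J hJ _
    rw [Finset.card_eq_zero] at hJ
    rw [hJ, N_empty]
    simp
  | succ k ih =>
    intro n J hJ hJn
    have hne : J.Nonempty := Finset.card_pos.1 (by omega)
    have hp := J.max'_mem hne
    have hpr := Finset.mem_range.1 (hJn hp)
    rcases n with _ | n
    · omega
    have h1 := N_le J (J.max' hne) hp (by omega : J.max' hne < n) (fun i hi => J.le_max' i hi)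
    have h2 := ih n (J.erase (J.max' hne)) (by rw [Finset.card_erase_of_mem hp, hJ]; rfl) (by
      intro i hi
      rw [Finset.mem_erase] at hi
      have h3 := J.le_max' i hi.2
      rw [Finset.mem_range]
      have := hi.1
      omega)
    have h3 : n + 1 - (k + 1) = n - k := by omega
    rw [h3, pow_succ]
    calc N (n + 1) J ≤ 2 * N n (J.erase (J.max' hne)) := h1
      _ ≤ 2 * (2 ^ k * (n - k).factorial) := Nat.mul_le_mul_left 2 h2
      _ = 2 ^ k * 2 * (n - k).factorial := by ring

/-- no two consecutive elements -/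
def Sep (J : Finset ℕ) : Prop := ∀ i ∈ J, i + 1 ∉ J

theorem N_sep (k : ℕ) : ∀ (n : ℕ) (J : Finset ℕ), J.card = k → J ⊆ range (n - 1) → Sep J →
    2 ^ k * (n - k).factorial ≤ N n J := by
  induction k with
  | zero =>
    intro n J hJ _ _
    rw [Finset.card_eq_zero] at hJ
    rw [hJ, N_empty]
    simp
  | succ k ih =>
    intro n J hJ hJn hs
    have hne : J.Nonempty := Finset.card_pos.1 (by omega)
    have hp := J.max'_mem hne
    have hpr := Finset.mem_range.1 (hJn hp)
    rcases n with _ | n
    · omega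
    have h1 := N_ge J (J.max' hne) (by omega : J.max' hne < n) (by
      intro i hi
      have h2 := J.le_max' i hi
      have h3 : i + 1 ≠ J.max' hne := fun h => hs i hi (by rw [h]; exact hp)
      omega)
    have h2 := ih n (J.erase (J.max' hne)) (by rw [Finset.card_erase_of_mem hp, hJ]; rfl) (by
      intro i hi
      rw [Finset.mem_erase] at hi
      have h3 := J.le_max' i hi.2
      rw [Finset.mem_range]
      have := hi.1
      omega) (by
      intro i hi h3
      exact hs i (Finset.mem_of_mem_erase hi) (Finset.mem_of_mem_erase h3))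
    have h3 : n + 1 - (k + 1) = n - k := by omega
    rw [h3, pow_succ]
    calc 2 ^ k * 2 * (n - k).factorial = 2 * (2 ^ k * (n - k).factorial) := by ring
      _ ≤ 2 * N n (J.erase (J.max' hne)) := Nat.mul_le_mul_left 2 h2
      _ ≤ N (n + 1) J := h1

open Classical in
theorem card_nonsep (m k : ℕ) :
    ((powersetCard k (range m)).filter (fun J => ¬ Sep J)).card ≤ k * m.choose (k - 1) := by
  have h1 : (powersetCard k (range m)).filter (fun J => ¬ Sep J) ⊆
      (powersetCard (k - 1) (range m)).biUnion (fun J => J.image (fun i => insert (i + 1) J)) := by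
    intro J hJ
    rw [mem_filter, mem_powersetCard] at hJ
    obtain ⟨⟨h2, h3⟩, h4⟩ := hJ
    unfold Sep at h4
    push Not at h4
    obtain ⟨i, hi, hi1⟩ := h4
    rw [mem_biUnion]
    refine ⟨J.erase (i + 1), ?_, ?_⟩
    · rw [mem_powersetCard]
      exact ⟨(Finset.erase_subset _ _).trans h2, by rw [Finset.card_erase_of_mem hi1, h3]⟩
    · rw [mem_image]
      exact ⟨i, Finset.mem_erase.2 ⟨by omega, hi⟩, Finset.insert_erase hi1⟩
  refine (Finset.card_le_card h1).trans (Finset.card_biUnion_le.trans ?_)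
  calc ∑ J ∈ powersetCard (k - 1) (range m), (J.image (fun i => insert (i + 1) J)).card
      ≤ ∑ J ∈ powersetCard (k - 1) (range m), k := by
        apply Finset.sum_le_sum
        intro J hJ
        rw [mem_powersetCard] at hJ
        refine Finset.card_image_le.trans ?_
        omega
    _ = k * m.choose (k - 1) := by
        rw [Finset.sum_const, Finset.card_powersetCard, Finset.card_range, smul_eq_mul, mul_comm]

/-- the terms of the inclusion-exclusion formula -/
noncomputable def S (n k : ℕ) : ℝ :=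
  (∑ J ∈ powersetCard k (range (n - 1)), (N n J : ℝ)) / (n.factorial : ℝ)

theorem S_nonneg (n k : ℕ) : 0 ≤ S n k := by
  unfold S
  positivity

/-- `C(n-1,k) k! (n-k)! n = n! (n - k)` -/
theorem choose_id (n k : ℕ) (hk : k < n) :
    ((n - 1).choose k : ℝ) * ((n - k).factorial : ℝ) / (n.factorial : ℝ) =
      ((n : ℝ) - k) / ((k.factorial : ℝ) * n) := by
  obtain ⟨m, rfl⟩ : ∃ m, n = m + 1 := ⟨n - 1, by omega⟩
  have h1 := Nat.choose_mul_factorial_mul_factorial (show k ≤ m by omega)
  have h2 : (m + 1 - k).factorial = (m + 1 - k) * (m - k).factorial := by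
    have : m + 1 - k = (m - k) + 1 := by omega
    rw [this, Nat.factorial_succ]
  have h3 : ((m + 1 - k : ℕ) : ℝ) = ((m + 1 : ℕ) : ℝ) - k := by
    rw [Nat.cast_sub (by omega)]
  have h4 : ((m.choose k : ℝ)) * (k.factorial : ℝ) * ((m - k).factorial : ℝ) =
      (m.factorial : ℝ) := by exact_mod_cast h1
  rw [Nat.add_sub_cancel, h2, Nat.factorial_succ]
  push_cast at h3 ⊢
  rw [h3]
  have h5 : (m.factorial : ℝ) ≠ 0 := by positivity
  have h6 : (k.factorial : ℝ) ≠ 0 := by positivity
  have h7 : ((m : ℝ) + 1) ≠ 0 := by positivity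
  rw [div_eq_div_iff (by positivity) (by positivity), ← h4]
  ring

theorem S_le (n k : ℕ) : S n k ≤ 2 ^ k / (k.factorial : ℝ) := by
  rcases Nat.lt_or_ge k n with hk | hk
  · have h1 : ∑ J ∈ powersetCard k (range (n - 1)), (N n J : ℝ) ≤
        ((n - 1).choose k : ℝ) * (2 ^ k * ((n - k).factorial : ℝ)) := by
      calc ∑ J ∈ powersetCard k (range (n - 1)), (N n J : ℝ)
          ≤ ∑ J ∈ powersetCard k (range (n - 1)), (2 ^ k * ((n - k).factorial : ℝ)) := by
            apply Finset.sum_le_sum
            intro J hJ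
            rw [mem_powersetCard] at hJ
            have := N_bound k n J hJ.2 hJ.1
            exact_mod_cast this
        _ = _ := by
            rw [Finset.sum_const, Finset.card_powersetCard, Finset.card_range, nsmul_eq_mul]
    have hn : (0 : ℝ) < n := by
      have : 0 < n := by omega
      exact_mod_cast this
    have hf : (0 : ℝ) < n.factorial := by positivity
    have h2 := choose_id n k hk
    calc S n k ≤ ((n - 1).choose k : ℝ) * (2 ^ k * ((n - k).factorial : ℝ)) /
          (n.factorial : ℝ) := by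
            unfold S
            exact div_le_div_of_nonneg_right h1 hf.le
      _ = 2 ^ k * (((n - 1).choose k : ℝ) * ((n - k).factorial : ℝ) / (n.factorial : ℝ)) := by
            ring
      _ = 2 ^ k * (((n : ℝ) - k) / ((k.factorial : ℝ) * n)) := by rw [h2]
      _ ≤ 2 ^ k * (n / ((k.factorial : ℝ) * n)) := by
            have : (n : ℝ) - k ≤ n := by
              have : (0 : ℝ) ≤ k := Nat.cast_nonneg k
              linarith
            gcongr
      _ = 2 ^ k / (k.factorial : ℝ) := by
            field_simp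
  · have h1 : powersetCard k (range (n - 1)) = ∅ ∨ n = 0 := by
      rcases Nat.eq_zero_or_pos n with h0 | h0
      · right; exact h0
      · left
        apply Finset.powersetCard_eq_empty.2
        rw [Finset.card_range]
        omega
    rcases h1 with h1 | h1
    · unfold S
      rw [h1]
      simp
      positivity
    · subst h1
      rcases k with _ | k
      · unfold S
        simp [N_empty]
      · unfold S
        have : powersetCard (k + 1) (range (0 - 1)) = ∅ := by
          apply Finset.powersetCard_eq_empty.2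
          simp
        rw [this]
        simp
        positivity

theorem S_ge (n k : ℕ) (hk : k < n) :
    2 ^ k * (((n : ℝ) - k) / ((k.factorial : ℝ) * n) - k / n) ≤ S n k := by
  classical
  have hn : (0 : ℝ) < n := by
    have : 0 < n := by omega
    exact_mod_cast this
  have hf : (0 : ℝ) < n.factorial := by positivity
  have h1 : ((powersetCard k (range (n - 1))).filter (fun J => Sep J)).card +
      ((powersetCard k (range (n - 1))).filter (fun J => ¬ Sep J)).card = (n - 1).choose k := by
    rw [Finset.card_filter_add_card_filter_not, Finset.card_powersetCard, Finset.card_range]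
  have h2 := card_nonsep (n - 1) k
  have h3 : ((n - 1).choose k : ℝ) - k * ((n - 1).choose (k - 1) : ℝ) ≤
      (((powersetCard k (range (n - 1))).filter (fun J => Sep J)).card : ℝ) := by
    have h4 : (((powersetCard k (range (n - 1))).filter (fun J => Sep J)).card : ℝ) +
      (((powersetCard k (range (n - 1))).filter (fun J => ¬ Sep J)).card : ℝ) =
        ((n - 1).choose k : ℝ) := by exact_mod_cast h1
    have h5 : (((powersetCard k (range (n - 1))).filter (fun J => ¬ Sep J)).card : ℝ) ≤
        k * ((n - 1).choose (k - 1) : ℝ) := by exact_mod_cast h2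
    linarith
  have h4 : (((powersetCard k (range (n - 1))).filter (fun J => Sep J)).card : ℝ) *
      (2 ^ k * ((n - k).factorial : ℝ)) ≤ ∑ J ∈ powersetCard k (range (n - 1)), (N n J : ℝ) := by
    calc (((powersetCard k (range (n - 1))).filter (fun J => Sep J)).card : ℝ) *
        (2 ^ k * ((n - k).factorial : ℝ)) =
        ∑ J ∈ (powersetCard k (range (n - 1))).filter (fun J => Sep J),
          (2 ^ k * ((n - k).factorial : ℝ)) := by rw [Finset.sum_const, nsmul_eq_mul]
      _ ≤ ∑ J ∈ (powersetCard k (range (n - 1))).filter (fun J => Sep J), (N n J : ℝ) := by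
          apply Finset.sum_le_sum
          intro J hJ
          rw [mem_filter, mem_powersetCard] at hJ
          have := N_sep k n J hJ.1.2 hJ.1.1 hJ.2
          exact_mod_cast this
      _ ≤ ∑ J ∈ powersetCard k (range (n - 1)), (N n J : ℝ) :=
          Finset.sum_le_sum_of_subset_of_nonneg (Finset.filter_subset _ _)
            (fun _ _ _ => Nat.cast_nonneg _)
  -- the error term
  have h5 : (k : ℝ) * ((n - 1).choose (k - 1) : ℝ) * ((n - k).factorial : ℝ) /
      (n.factorial : ℝ) ≤ k / n := by
    rcases k with _ | k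
    · simp
    · have h6 := Nat.choose_mul_factorial_mul_factorial (show k ≤ n - 1 by omega)
      have h7 : n - 1 - k = n - (k + 1) := by omega
      rw [h7] at h6
      have h8 : (((n - 1).choose k : ℝ)) * (k.factorial : ℝ) * ((n - (k + 1)).factorial : ℝ) =
          ((n - 1).factorial : ℝ) := by exact_mod_cast h6
      have h9 : (n.factorial : ℝ) = n * ((n - 1).factorial : ℝ) := by
        have := Nat.mul_factorial_pred (show n ≠ 0 by omega)
        rw [← this]; push_cast; ring
      rw [div_le_div_iff₀ hf hn, h9, ← h8]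
      show ((k + 1 : ℕ) : ℝ) * ((n - 1).choose k : ℝ) * ((n - (k + 1)).factorial : ℝ) * n ≤ _
      have h10 : (1 : ℝ) ≤ (k.factorial : ℝ) := by exact_mod_cast Nat.factorial_pos k
      have h11 : (0 : ℝ) ≤ ((k + 1 : ℕ) : ℝ) * ((n - 1).choose k : ℝ) *
          ((n - (k + 1)).factorial : ℝ) * n := by positivity
      calc ((k + 1 : ℕ) : ℝ) * ((n - 1).choose k : ℝ) * ((n - (k + 1)).factorial : ℝ) * n
          = ((k + 1 : ℕ) : ℝ) * ((n - 1).choose k : ℝ) * ((n - (k + 1)).factorial : ℝ) * n *
            1 := by ring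
        _ ≤ ((k + 1 : ℕ) : ℝ) * ((n - 1).choose k : ℝ) * ((n - (k + 1)).factorial : ℝ) * n *
            (k.factorial : ℝ) := mul_le_mul_of_nonneg_left h10 h11
        _ = _ := by ring
  have h6 := choose_id n k hk
  calc 2 ^ k * (((n : ℝ) - k) / ((k.factorial : ℝ) * n) - k / n)
      ≤ 2 ^ k * (((n - 1).choose k : ℝ) * ((n - k).factorial : ℝ) / (n.factorial : ℝ) -
        (k : ℝ) * ((n - 1).choose (k - 1) : ℝ) * ((n - k).factorial : ℝ) /
          (n.factorial : ℝ)) := by
        rw [h6]
        have : (0 : ℝ) ≤ 2 ^ k := by positivity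
        nlinarith
    _ = (((n - 1).choose k : ℝ) - k * ((n - 1).choose (k - 1) : ℝ)) *
        (2 ^ k * ((n - k).factorial : ℝ)) / (n.factorial : ℝ) := by ring
    _ ≤ (((powersetCard k (range (n - 1))).filter (fun J => Sep J)).card : ℝ) *
        (2 ^ k * ((n - k).factorial : ℝ)) / (n.factorial : ℝ) := by
        apply div_le_div_of_nonneg_right _ hf.le
        exact mul_le_mul_of_nonneg_right h3 (by positivity)
    _ ≤ S n k := by
        unfold S
        exact div_le_div_of_nonneg_right h4 hf.le

theorem S_tendsto (k : ℕ) : Tendsto (fun n => S n k) atTop (𝓝 (2 ^ k / (k.factorial : ℝ))) := by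
  have h1 : Tendsto (fun n : ℕ => 2 ^ k * (((n : ℝ) - k) / ((k.factorial : ℝ) * n) - k / n))
      atTop (𝓝 (2 ^ k * ((1 - 0) / (k.factorial : ℝ) - 0))) := by
    have h2 : Tendsto (fun n : ℕ => (k : ℝ) / n) atTop (𝓝 0) :=
      tendsto_const_div_atTop_nhds_zero_nat (k : ℝ)
    have h3 : Tendsto (fun n : ℕ => 2 ^ k * ((1 - (k : ℝ) / n) / (k.factorial : ℝ) - k / n))
        atTop (𝓝 (2 ^ k * ((1 - 0) / (k.factorial : ℝ) - 0))) :=
      (((tendsto_const_nhds.sub h2).div_const _).sub h2).const_mul _
    refine h3.congr' ?_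
    filter_upwards [eventually_gt_atTop 0] with n hn
    have hn' : (n : ℝ) ≠ 0 := by
      have : n ≠ 0 := by omega
      exact_mod_cast this
    have hk' : (k.factorial : ℝ) ≠ 0 := by positivity
    congr 2
    field_simp
  have h4 : 2 ^ k * ((1 - 0) / (k.factorial : ℝ) - 0) = 2 ^ k / (k.factorial : ℝ) := by ring
  rw [h4] at h1
  refine tendsto_of_tendsto_of_tendsto_of_le_of_le' h1 tendsto_const_nhds ?_ ?_
  · filter_upwards [eventually_gt_atTop k] with n hn
    exact S_ge n k hn
  · exact Eventually.of_forall (fun n => S_le n k)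

theorem hasAdj_iff {n : ℕ} (π : Perm (Fin n)) :
    ¬ HasAdj π ↔ ∀ i ∈ range (n - 1), ¬ AdjAt π i := by
  constructor
  · intro h i _ ⟨a, b, ha, hb, hab⟩
    exact h ⟨a, b, by omega, hab⟩
  · rintro h ⟨a, b, hb, hab⟩
    have := b.isLt
    exact h a.val (Finset.mem_range.2 (by omega)) ⟨a, b, rfl, hb, hab⟩

theorem frac_eq (n : ℕ) : frac n (fun π => ¬ HasAdj π) = ∑' k : ℕ, (-1) ^ k * S n k := by
  classical
  have h0 : ∀ k ∉ range (n - 1 + 1), (-1 : ℝ) ^ k * S n k = 0 := by
    intro k hk
    rw [Finset.mem_range] at hk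
    unfold S
    have : powersetCard k (range (n - 1)) = ∅ := by
      apply Finset.powersetCard_eq_empty.2
      rw [Finset.card_range]
      omega
    rw [this]; simp
  rw [tsum_eq_sum h0]
  have h1 := Finset.inclusion_exclusion_card_inf_compl (range (n - 1))
    (fun i => univ.filter (fun π : Perm (Fin n) => AdjAt π i))
  have h2 : (range (n - 1)).inf (fun i => (univ.filter (fun π : Perm (Fin n) => AdjAt π i))ᶜ) =
      univ.filter (fun π : Perm (Fin n) => ¬ HasAdj π) := by
    ext π
    rw [Finset.mem_inf, mem_filter, hasAdj_iff]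
    simp
  have h3 : ∀ t : Finset ℕ, ((t.inf (fun i => univ.filter
      (fun π : Perm (Fin n) => AdjAt π i))).card : ℤ) = (N n t : ℤ) := by
    intro t
    unfold N
    congr 2
    ext π
    rw [Finset.mem_inf, mem_filter]
    simp
  rw [h2] at h1
  have h4 : ∑ t ∈ (range (n - 1)).powerset, (-1 : ℤ) ^ t.card *
      ((t.inf (fun i => univ.filter (fun π : Perm (Fin n) => AdjAt π i))).card : ℤ) =
      ∑ k ∈ range (n - 1 + 1), (-1 : ℤ) ^ k *
        ∑ J ∈ powersetCard k (range (n - 1)), (N n J : ℤ) := by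
    rw [Finset.sum_powerset, Finset.card_range]
    refine Finset.sum_congr rfl ?_
    intro k _
    rw [Finset.mul_sum]
    refine Finset.sum_congr rfl ?_
    intro J hJ
    rw [h3, (mem_powersetCard.1 hJ).2]
  rw [h4] at h1
  have h5 : ((univ.filter (fun π : Perm (Fin n) => ¬ HasAdj π)).card : ℝ) =
      ∑ k ∈ range (n - 1 + 1), (-1 : ℝ) ^ k *
        ∑ J ∈ powersetCard k (range (n - 1)), (N n J : ℝ) := by
    exact_mod_cast congrArg (fun z : ℤ => (z : ℝ)) h1
  unfold frac S
  have h6 : (univ.filter (fun π : Perm (Fin n) => ¬ HasAdj π)).card =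
      (@Finset.filter (Perm (Fin n)) (fun π => ¬ HasAdj π) (fun a => Classical.propDecidable _)
        univ).card := by
    congr
  rw [← h6, h5, Finset.sum_div]
  refine Finset.sum_congr rfl ?_
  intro k _
  rw [mul_div_assoc]

theorem frac_noAdj : Tendsto (fun n => frac n (fun π => ¬ HasAdj π)) atTop
    (𝓝 (Real.exp (-2))) := by
  have hlim : Real.exp (-2) = ∑' k : ℕ, (-1 : ℝ) ^ k * (2 ^ k / (k.factorial : ℝ)) := by
    rw [Real.exp_eq_exp_ℝ, NormedSpace.exp_eq_tsum_div]
    refine tsum_congr ?_
    intro k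
    rw [← mul_div_assoc, ← mul_pow]
    norm_num
  rw [hlim]
  have hcongr : (fun n => frac n (fun π => ¬ HasAdj π)) = fun n => ∑' k : ℕ, (-1) ^ k * S n k := by
    funext n
    exact frac_eq n
  rw [hcongr]
  refine tendsto_tsum_of_dominated_convergence (bound := fun k : ℕ => 2 ^ k / (k.factorial : ℝ))
    (Real.summable_pow_div_factorial 2) ?_ ?_
  · intro k
    exact (S_tendsto k).const_mul _
  · refine Eventually.of_forall (fun n k => ?_)
    rw [norm_mul, norm_pow, norm_neg, norm_one, one_pow, one_mul, Real.norm_eq_abs,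
      abs_of_nonneg (S_nonneg n k)]
    exact S_le n k

end Pool.Agent.TH897.J1582
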