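import Pool.Agent.TH60.LR.Defs

/-!
# Extension of a locally conjugate homomorphism (job 560 of helper60, MP_a112e0_al)
-/

set_option autoImplicit false

namespace Pool.Agent.TH897.J560

open Pool.Agent.TH60.LR

theorem extendHom (h9 : PathHom) : ExtendHom := by
  classical
  intro Γ W _ _ T x₀ M hM hfin Φ₀ Φ hloc
  -- representatives of the vertices of the orbit
  let O : Set T.X := {x | ∃ g : Γ, g • x₀ = x}
  have hO : ∀ (g : Γ) (x : T.X), g • x ∈ O ↔ x ∈ O := by
    intro g x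
    constructor
    · rintro ⟨k, hk⟩
      exact ⟨g⁻¹ * k, by rw [mul_smul, hk, inv_smul_smul]⟩
    · rintro ⟨k, hk⟩
      exact ⟨g * k, by rw [mul_smul, hk]⟩
  have hx₀ : x₀ ∈ O := ⟨1, one_smul _ _⟩
  obtain ⟨r, hr, hr₀⟩ : ∃ r : T.X → Γ, (∀ x ∈ O, r x • x₀ = x) ∧ r x₀ = 1 := by
    refine ⟨fun x => if x = x₀ then 1 else if h : x ∈ O then Classical.choose h else 1, ?_, ?_⟩
    · intro x hx
      simp only
      by_cases h : x = x₀
      · rw [if_pos h, h, one_smul]
      · rw [if_neg h, dif_pos hx]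
        exact Classical.choose_spec hx
    · simp
  -- `Φ` as a function on `Γ`
  let Φe : Γ → W := fun g => if h : g ∈ M then Φ ⟨g, h⟩ else 1
  have hΦe : ∀ (g : Γ) (h : g ∈ M), Φe g = Φ ⟨g, h⟩ := fun g h => dif_pos h
  have hΦmul : ∀ g ∈ M, ∀ h ∈ M, Φe (g * h) = Φe g * Φe h := by
    intro g hg h hh
    rw [hΦe g hg, hΦe h hh, hΦe _ (M.mul_mem hg hh), ← map_mul]
    rfl
  have hmid : ∀ (g : Γ) (x : T.X), x ∈ O → (r (g • x))⁻¹ * g * r x ∈ M := by
    intro g x hx
    rw [← hM, mul_smul, mul_smul, hr x hx, inv_smul_eq_iff, hr _ ((hO g x).mpr hx)]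
  -- the cocycle
  let ω : Γ → T.X → W := fun g x =>
    if x ∈ O then Φ₀ (r (g • x)) * Φe ((r (g • x))⁻¹ * g * r x) * (Φ₀ (r x))⁻¹ else Φ₀ g
  have hω1 : ∀ g x, x ∈ O →
      ω g x = Φ₀ (r (g • x)) * Φe ((r (g • x))⁻¹ * g * r x) * (Φ₀ (r x))⁻¹ :=
    fun g x h => if_pos h
  have hω2 : ∀ g x, x ∉ O → ω g x = Φ₀ g := fun g x h => if_neg h
  have hcoc : ∀ (g h : Γ) (x : T.X), ω (g * h) x = ω g (h • x) * ω h x := by
    intro g h x
    by_cases hx : x ∈ O
    · have hhx := (hO h x).mpr hx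
      rw [hω1 _ _ hx, hω1 _ _ hhx, hω1 _ _ hx]
      have e1 : (r ((g * h) • x))⁻¹ * (g * h) * r x =
          ((r (g • h • x))⁻¹ * g * r (h • x)) * ((r (h • x))⁻¹ * h * r x) := by
        rw [mul_smul]; group
      rw [e1, hΦmul _ (hmid g (h • x) hhx) _ (hmid h x hx), mul_smul]
      group
    · have hhx : h • x ∉ O := fun h' => hx ((hO h x).mp h')
      rw [hω2 _ _ hx, hω2 _ _ hhx, hω2 _ _ hx, map_mul]
  -- local conjugacy of the cocycle
  have hclaim : ∀ (x : T.X) (S : Subgroup Γ), Finite S → (∀ c ∈ S, c • x = x) →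
      ∃ a : W, ∀ c ∈ S, ω c x = a * Φ₀ c * a⁻¹ := by
    intro x S hS hfix
    by_cases hx : x ∈ O
    · let S' : Subgroup M := S.comap ((MulAut.conj (r x)).toMonoidHom.comp M.subtype)
      have hS' : Finite S' := by
        let f : S' → S := fun m => ⟨r x * (m : M) * (r x)⁻¹, m.2⟩
        refine Finite.of_injective f ?_
        intro m m' h
        have h1 : r x * ((m : M) : Γ) * (r x)⁻¹ = r x * ((m' : M) : Γ) * (r x)⁻¹ :=
          congrArg Subtype.val h
        have h2 := mul_left_cancel (mul_right_cancel h1)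
        exact Subtype.ext (Subtype.ext h2)
      obtain ⟨b, hb⟩ := hloc S' hS'
      refine ⟨Φ₀ (r x) * b * (Φ₀ (r x))⁻¹, fun c hc => ?_⟩
      have hcx := hfix c hc
      have hcM : (r x)⁻¹ * c * r x ∈ M := by
        have := hmid c x hx
        rwa [hcx] at this
      have hmem : (⟨(r x)⁻¹ * c * r x, hcM⟩ : M) ∈ S' := by
        rw [Subgroup.mem_comap]
        have : (MulAut.conj (r x)).toMonoidHom.comp M.subtype ⟨(r x)⁻¹ * c * r x, hcM⟩ = c := by
          simp [mul_assoc]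
        rw [this]; exact hc
      have h3 := hb _ hmem
      rw [hω1 _ _ hx, hcx, hΦe _ hcM, h3]
      simp only [MonoidHom.comp_apply, Subgroup.coe_subtype, map_mul, map_inv]
      group
    · exact ⟨1, fun c _ => by rw [hω2 _ _ hx]; simp⟩
  -- representatives of the edges
  let rep : T.E → T.E := fun e => (Quotient.mk (MulAction.orbitRel Γ T.E) e).out
  have hrep : ∀ e, ∃ g : Γ, g • rep e = e := by
    intro e
    have h1 : (MulAction.orbitRel Γ T.E).r (rep e) e := Quotient.exact (Quotient.out_eq _)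
    have h2 := (MulAction.orbitRel Γ T.E).symm h1
    exact h2
  have hrepg : ∀ (g : Γ) (e : T.E), rep (g • e) = rep e := by
    intro g e
    have : Quotient.mk (MulAction.orbitRel Γ T.E) (g • e) =
        Quotient.mk (MulAction.orbitRel Γ T.E) e := by
      apply Quotient.sound
      exact ⟨g, rfl⟩
    simp only [rep]
    rw [this]
  choose γ hγ using hrep
  have hstab : ∀ e : T.E, ∃ a : W, ∀ c ∈ MulAction.stabilizer Γ e,
      ω c (T.t e) = a * Φ₀ c * a⁻¹ := fun e =>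
    hclaim (T.t e) _ (hfin e) fun c hc => by rw [T.smul_t, MulAction.mem_stabilizer_iff.mp hc]
  choose a ha using hstab
  let α : T.E → W := fun e => ω (γ e) (T.t (rep e)) * a (rep e) * (Φ₀ (γ e))⁻¹
  have hα : ∀ (g : Γ) (e : T.E), ω g (T.t e) * α e = α (g • e) * Φ₀ g := by
    intro g e
    simp only [α]
    rw [hrepg]
    set e₀ := rep e with he₀
    have h1 : γ (g • e) • e₀ = g • e := by
      have := hγ (g • e)
      rwa [hrepg] at this
    have h2 : γ e • e₀ = e := hγ e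
    set c := (γ (g • e))⁻¹ * g * γ e with hc
    have hcs : c ∈ MulAction.stabilizer Γ e₀ := by
      rw [MulAction.mem_stabilizer_iff, hc, mul_smul, mul_smul, h2, inv_smul_eq_iff]
      exact h1.symm
    have h3 : ω (g * γ e) (T.t e₀) = ω g (T.t e) * ω (γ e) (T.t e₀) := by
      rw [hcoc, T.smul_t, h2]
    have h4 : g * γ e = γ (g • e) * c := by rw [hc]; group
    have hct : c • T.t e₀ = T.t e₀ := by
      rw [T.smul_t, MulAction.mem_stabilizer_iff.mp hcs]
    have h5 : ω (g * γ e) (T.t e₀) = ω (γ (g • e)) (T.t e₀) * (a e₀ * Φ₀ c * (a e₀)⁻¹) := by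
      rw [h4, hcoc, hct, ha e₀ c hcs]
    have h6 : Φ₀ c = (Φ₀ (γ (g • e)))⁻¹ * Φ₀ g * Φ₀ (γ e) := by
      rw [hc, map_mul, map_mul, map_inv]
    rw [← mul_assoc, ← mul_assoc, ← h3, h5, h6]
    group
  obtain ⟨Φ', R, hR, -, -, hΦ', hfinal⟩ := h9 Γ T W Φ₀ α ω hcoc hα x₀
  refine ⟨Φ', ?_, ?_⟩
  · intro m
    have hRx : R x₀ x₀ = 1 := by
      have := hR x₀ x₀ x₀
      exact mul_eq_left.mp this
    have hm : (m : Γ) • x₀ = x₀ := (hM m).mpr m.2
    rw [hΦ', hm, hRx, one_mul, hω1 _ _ hx₀, hm, hr₀]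
    simp only [map_one, one_mul, inv_one, mul_one]
    exact hΦe _ m.2
  · intro C hC
    rcases hfinal C hC with h | ⟨x, a', hx, h⟩
    · exact h
    · obtain ⟨b, hb⟩ := hclaim x C hC hx
      refine ⟨a' * b, fun c hc => ?_⟩
      rw [h c hc, hb c hc]
      group

end Pool.Agent.TH897.J560
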