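import Pool.Agent.TH490.StmF

set_option autoImplicit false

/-!
# The dense regime from the pool theorem (relabelling by degree)
-/

namespace Pool.Agent.TH897.MP325

open Pool.Agent.TH490 Finset Classical

noncomputable section

/-- degree -/
def dg {n : ℕ} (G : SimpleGraph (Fin n)) (v : Fin n) : ℕ :=
  (univ.filter (fun w : Fin n => G.Adj v w)).card

theorem dg_eq {n : ℕ} (G : SimpleGraph (Fin n)) [DecidableRel G.Adj] (v : Fin n) :
    dg G v = G.degree v := by
  unfold dg
  rw [← SimpleGraph.card_neighborFinset_eq_degree, SimpleGraph.neighborFinset_eq_filter]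
  congr 1
  ext w
  simp

theorem sum_dg {n : ℕ} (G : SimpleGraph (Fin n)) :
    ∑ v, dg G v = 2 * Nat.card G.edgeSet := by
  have h := G.sum_degrees_eq_twice_card_edges
  rw [SimpleGraph.edgeFinset_card, ← Nat.card_eq_fintype_card] at h
  rw [← h]
  exact Finset.sum_congr rfl (fun v _ => dg_eq G v)

theorem back_le {n : ℕ} (G : SimpleGraph (Fin n)) (hmono : ∀ i j : Fin n, i ≤ j → dg G j ≤ dg G i)
    (i : Fin n) :
    (univ.filter (fun j : Fin n => j < i ∧ G.Adj i j)).card ^ 2 ≤ 2 * Nat.card G.edgeSet := by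
  obtain ⟨b, hb⟩ : ∃ b, b = (univ.filter (fun j : Fin n => j < i ∧ G.Adj i j)).card := ⟨_, rfl⟩
  rw [← hb, ← sum_dg]
  have h1 : b ≤ dg G i := by
    rw [hb]
    apply Finset.card_le_card
    intro j
    simp only [mem_filter, mem_univ, true_and]
    exact fun h => h.2
  have h2 : b ≤ (Finset.Iio i).card := by
    rw [hb]
    apply Finset.card_le_card
    intro j
    simp only [mem_filter, mem_univ, true_and, mem_Iio]
    exact fun h => h.1
  calc b ^ 2 = b * b := by ring
    _ ≤ (Finset.Iio i).card * dg G i := Nat.mul_le_mul h2 h1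
    _ = ∑ j ∈ Finset.Iio i, dg G i := by rw [Finset.sum_const, smul_eq_mul]
    _ ≤ ∑ j ∈ Finset.Iio i, dg G j :=
        Finset.sum_le_sum (fun j hj => hmono j i (Finset.mem_Iio.1 hj).le)
    _ ≤ ∑ j, dg G j :=
        Finset.sum_le_sum_of_subset (Finset.subset_univ _)

theorem n_le {n : ℕ} (G : SimpleGraph (Fin n)) (h : ∀ v, ∃ w, G.Adj v w) :
    n ≤ 2 * Nat.card G.edgeSet := by
  rw [← sum_dg]
  calc n = ∑ v : Fin n, 1 := by simp
    _ ≤ ∑ v, dg G v := Finset.sum_le_sum (fun v _ => by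
        obtain ⟨w, hw⟩ := h v
        exact Finset.card_pos.2 ⟨w, by simpa using hw⟩)

theorem exists_perm {n : ℕ} (G : SimpleGraph (Fin n)) :
    ∃ σ : Equiv.Perm (Fin n), ∀ i j : Fin n, i ≤ j → dg G (σ j) ≤ dg G (σ i) := by
  refine ⟨Tuple.sort (fun v => -(dg G v : ℤ)), ?_⟩
  intro i j hij
  have h := Tuple.monotone_sort (fun v => -(dg G v : ℤ)) hij
  simp only [Function.comp_apply] at h
  omega

theorem card_comap {n : ℕ} (G : SimpleGraph (Fin n)) (σ : Equiv.Perm (Fin n)) :
    Nat.card (G.comap σ).edgeSet = Nat.card G.edgeSet :=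
  Nat.card_congr (SimpleGraph.Iso.comap σ G).mapEdgeSet

theorem dg_comap {n : ℕ} (G : SimpleGraph (Fin n)) (σ : Equiv.Perm (Fin n)) (v : Fin n) :
    dg (G.comap σ) v = dg G (σ v) := by
  unfold dg
  refine Finset.card_bij (fun w _ => σ w) ?_ ?_ ?_
  · intro w hw
    simp only [mem_filter, mem_univ, true_and, SimpleGraph.comap_adj] at hw ⊢
    exact hw
  · intro a _ b _ hab
    exact σ.injective hab
  · intro w hw
    simp only [mem_filter, mem_univ, true_and] at hw
    exact ⟨σ.symm w, by simpa using hw, by simp⟩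

theorem dmain : D_pool → D_real → D_main := by
  rintro ⟨C₂, hC₂, hpool⟩ ⟨R₀, hreal⟩
  refine ⟨C₂, hC₂, ?_⟩
  intro C hC
  obtain ⟨N₂, hN₂⟩ := hpool C hC R₀
  refine ⟨N₂, ?_⟩
  intro N hN n G k hk hk1 hiso h1 h2 h3
  have hkc : Nat.card G.edgeSet = k := by
    rw [← hk, SimpleGraph.edgeFinset_card, Nat.card_eq_fintype_card]
  obtain ⟨σ, hσ⟩ := exists_perm G
  have hkc' : Nat.card (G.comap σ).edgeSet = k := by rw [card_comap, hkc]
  have hk' : (G.comap σ).edgeFinset.card = k := by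
    rw [← hkc', SimpleGraph.edgeFinset_card, Nat.card_eq_fintype_card]
  have hn : n ≤ 2 * k := by
    rw [← hkc]
    exact n_le G hiso
  obtain ⟨R, hR1, hR2, hR3, M₀, f, Z, hP⟩ := hN₂ N hN n (G.comap σ) k (Nat.sqrt (2 * k)) hk' hk1 hn
    (by
      intro i
      rw [Nat.le_sqrt', ← hkc']
      exact back_le (G.comap σ) (fun i j hij => by
        rw [dg_comap, dg_comap]
        exact hσ i j hij) i)
    (Nat.sqrt_le' _) h1 h2 h3
  obtain ⟨p, hp1, hp2, hp3⟩ := hreal n (G.comap σ) N R M₀ f Z hR1 hR2 hR3 hP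
  refine ⟨fun v => p (σ.symm v), ?_, ?_, ?_⟩
  · intro a b hab
    exact σ.symm.injective (hp1 hab)
  · intro u v w huv hwu hwv
    refine hp2 (σ.symm u) (σ.symm v) (σ.symm w) ?_ ?_ ?_
    · simpa using huv
    · exact fun h => hwu (σ.symm.injective h)
    · exact fun h => hwv (σ.symm.injective h)
  · intro u v x y huv hxy a1 a2 a3 a4
    refine hp3 (σ.symm u) (σ.symm v) (σ.symm x) (σ.symm y) ?_ ?_ ?_ ?_ ?_ ?_
    · simpa using huv
    · simpa using hxy
    · exact fun h => a1 (σ.symm.injective h)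
    · exact fun h => a2 (σ.symm.injective h)
    · exact fun h => a3 (σ.symm.injective h)
    · exact fun h => a4 (σ.symm.injective h)

end

end Pool.Agent.TH897.MP325
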