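import Pool.Agent.TH897.J210b

/-!
# The tower (job 210 of helper843, MP_4e97f5_nt)
-/

set_option autoImplicit false

namespace Pool.Agent.TH897.J210

open Pool.Agent.TH843.PY

/-- One step of the tower. -/
theorem step (hML : StmML) {n : ℕ} (hn : 3 ≤ n) {gam : ℝ}
    (hgam : ∀ F : IntermediateField ℚ ℂ, FiniteDimensional ℚ F → TR F → ∀ z : F,
      (∃ m, SS F m (z : ℂ)) → ¬ SS F (n - 1) (z : ℂ) → gam ≤ G F z)
    {F₀ : IntermediateField ℚ ℂ} (hF₀ : FiniteDimensional ℚ F₀) {x : ℂ} (hx : x ∈ F₀)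
    (hxi : IsIntegral ℤ x) (hxg : G F₀ ⟨x, hx⟩ < gam + 1)
    {F : IntermediateField ℚ ℂ} (hF : F₀ ≤ F) (hfd : FiniteDimensional ℚ F) (hTR : TR F)
    (hxF : ¬ SS F (n - 1) x) (y : ℂ) :
    ∃ F' : IntermediateField ℚ ℂ, F < F' ∧ FiniteDimensional ℚ F' ∧ TR F' ∧
      ¬ SS F' (n - 1) x ∧ ((∃ m, SS F m y) → SS F' n y) := by
  have hxi' : IsIntegral ℤ (⟨x, hF hx⟩ : F) := integral_coe.mpr hxi
  by_cases hc : (∃ m, SS F m y) ∧ ¬ SS F n y
  · obtain ⟨⟨m, hm⟩, hyn⟩ := hc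
    have hy : y ∈ F := SS.mem hm
    obtain ⟨h1, h2, h3⟩ := key hTR hn (hgam F hfd hTR) (y := ⟨y, hy⟩) ⟨m, hm⟩ hyn
    have h4 : G F ⟨x, hF hx⟩ < G F ⟨y, hy⟩ := by
      rw [G_inclusion hF hx]; linarith
    have hd : Module.finrank ℚ F ≠ 0 := Module.finrank_pos.ne'
    have h5 := pow_lt_pow_left₀ h4 (G_nonneg _) hd
    have h6 := pow_lt_pow_left₀ h2 (by norm_num) hd
    rw [G_pow] at h5 h6
    rw [G_pow] at h5
    obtain ⟨F', a1, a2, a3, a4, a5⟩ := hML F hfd hTR ⟨x, hF hx⟩ ⟨y, hy⟩ (n - 1) hxi'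
      (integral_coe.mpr (SS.isIntegral hm)) h1 (by exact_mod_cast h6) (by exact_mod_cast h5) hxF
    exact ⟨F', a1, a2, a3, a5, fun _ => SS.le (by omega) a4⟩
  · obtain ⟨M, hM5, hM⟩ : ∃ M : ℕ, 5 ≤ M ∧ |Algebra.norm ℚ (⟨x, hF hx⟩ : F)| < M := by
      obtain ⟨M, hM⟩ := exists_nat_gt |Algebra.norm ℚ (⟨x, hF hx⟩ : F)|
      exact ⟨max 5 M, le_max_left _ _, hM.trans_le (by exact_mod_cast le_max_right _ _)⟩
    have hd : Module.finrank ℚ F ≠ 0 := Module.finrank_pos.ne'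
    have hN : |Algebra.norm ℚ ((M : ℕ) : F)| = (M : ℚ) ^ Module.finrank ℚ F := by
      have : ((M : ℕ) : F) = algebraMap ℚ F (M : ℚ) := by simp
      rw [this, Algebra.norm_algebraMap, abs_of_nonneg (by positivity)]
    have hM5' : (5 : ℚ) ≤ M := by exact_mod_cast hM5
    obtain ⟨F', a1, a2, a3, a4, a5⟩ := hML F hfd hTR ⟨x, hF hx⟩ ((M : ℕ) : F) (n - 1) hxi'
      (by exact_mod_cast (isIntegral_natCast (R := ℤ) (B := F) (a := M)))
      (fun φ => by rw [map_natCast, Complex.natCast_re]; exact_mod_cast (by omega))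
      (by rw [hN]; exact pow_lt_pow_left₀ (by linarith) (by norm_num) hd)
      (by
        rw [hN]
        exact hM.trans_le (le_self_pow₀ (by linarith) hd)) hxF
    refine ⟨F', a1, a2, a3, a5, fun h => ?_⟩
    have : SS F n y := by
      by_contra h'
      exact hc ⟨h, h'⟩
    exact SS.mono a1.le this

theorem stmF : StmF := by
  intro hML hE n hn
  classical
  -- the infimum of the normalized norms
  set A : Set ℝ := {c | ∃ (F : IntermediateField ℚ ℂ) (z : F), FiniteDimensional ℚ F ∧ TR F ∧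
    (∃ m, SS F m (z : ℂ)) ∧ ¬ SS F (n - 1) (z : ℂ) ∧ c = G F z} with hA
  have hAne : A.Nonempty := by
    obtain ⟨F, hfd, hTR, x, ⟨m, hm⟩, hx⟩ := hE (n - 1)
    exact ⟨_, F, ⟨x, SS.mem hm⟩, hfd, hTR, ⟨m, hm⟩, hx, rfl⟩
  have hAbd : BddBelow A := by
    refine ⟨0, ?_⟩
    rintro c ⟨F, z, hfd, -, -, -, rfl⟩
    exact G_nonneg z
  obtain ⟨c, ⟨F₀, ⟨x, hx⟩, hfd₀, hTR₀, ⟨m₀, hm₀⟩, hxn, rfl⟩, hc⟩ :=
    exists_lt_of_csInf_lt hAne (lt_add_one (sInf A))
  have hgam : ∀ F : IntermediateField ℚ ℂ, FiniteDimensional ℚ F → TR F → ∀ z : F,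
      (∃ m, SS F m (z : ℂ)) → ¬ SS F (n - 1) (z : ℂ) → sInf A ≤ G F z :=
    fun F h1 h2 z h3 h4 => csInf_le hAbd ⟨F, z, h1, h2, h3, h4, rfl⟩
  simp only at hm₀ hxn
  have hxi : IsIntegral ℤ x := SS.isIntegral hm₀
  -- the states
  let S := {F : IntermediateField ℚ ℂ // F₀ ≤ F ∧ FiniteDimensional ℚ F ∧ TR F ∧
    ¬ SS F (n - 1) x}
  have hstep : ∀ (F : S) (y : ℂ), ∃ F' : S, F.1 < F'.1 ∧ ((∃ m, SS F.1 m y) → SS F'.1 n y) := by
    rintro ⟨F, h1, h2, h3, h4⟩ y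
    obtain ⟨F', a1, a2, a3, a4, a5⟩ := step hML hn hgam hfd₀ hx hxi hc h1 h2 h3 h4 y
    exact ⟨⟨F', h1.trans a1.le, a2, a3, a4⟩, a1, a5⟩
  choose nxt hlt hnxt using hstep
  obtain ⟨e, he⟩ := (Algebraic.countable ℚ ℂ).exists_eq_range ⟨0, isAlgebraic_zero⟩
  let seq : ℕ → S := fun i => Nat.rec ⟨F₀, le_rfl, hfd₀, hTR₀, hxn⟩
    (fun i F => nxt F (e (Nat.unpair i).1)) i
  have hseq : ∀ i, seq (i + 1) = nxt (seq i) (e (Nat.unpair i).1) := fun i => rfl
  let L : ℕ → IntermediateField ℚ ℂ := fun i => (seq i).1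
  have hLlt : ∀ i, L i < L (i + 1) := fun i => by
    change (seq i).1 < (seq (i + 1)).1
    rw [hseq]; exact hlt _ _
  have hLmono : StrictMono L := strictMono_nat_of_lt_succ hLlt
  have hLfd : ∀ i, FiniteDimensional ℚ (L i) := fun i => (seq i).2.2.1
  have hLTR : ∀ i, TR (L i) := fun i => (seq i).2.2.2.1
  have hLx : ∀ i, ¬ SS (L i) (n - 1) x := fun i => (seq i).2.2.2.2
  have hL0 : ∀ i, F₀ ≤ L i := fun i => (seq i).2.1
  set K : IntermediateField ℚ ℂ := ⨆ i, L i with hK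
  have hmem : ∀ z : ℂ, z ∈ K ↔ ∃ i, z ∈ L i := by
    intro z
    rw [← SetLike.mem_coe, hK, IntermediateField.coe_iSup_of_directed hLmono.monotone.directed_le,
      Set.mem_iUnion]
    rfl
  have hLK : ∀ i, L i ≤ K := fun i => le_iSup L i
  -- a finite family lies in one of the fields
  have hfin : ∀ (m : ℕ) (f : Fin m → ℂ), (∀ i, f i ∈ K) → ∃ I, ∀ i, f i ∈ L I := by
    intro m f hf
    choose g hg using fun i => (hmem _).mp (hf i)
    refine ⟨Finset.univ.sup g, fun i => ?_⟩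
    exact hLmono.monotone (Finset.le_sup (Finset.mem_univ i)) (hg i)
  have hSSK : ∀ (m : ℕ) (z : ℂ), SS K m z → ∃ I, SS (L I) m z := by
    rintro m z ⟨f, hf, hz⟩
    obtain ⟨I, hI⟩ := hfin m f fun i => (hf i).1
    exact ⟨I, f, fun i => ⟨hI i, (hf i).2⟩, hz⟩
  -- translation of sums of squares in `K`
  have htr : ∀ (m : ℕ) (z : K), (∃ g : Fin m → K, (∀ i, IsIntegral ℤ (g i)) ∧
      z = ∑ i, g i ^ 2) ↔ SS K m (z : ℂ) := by
    intro m z
    constructor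
    · rintro ⟨g, hg, hz⟩
      refine ⟨fun i => g i, fun i => ⟨(g i).2, integral_coe.mp (hg i)⟩, ?_⟩
      rw [hz]; push_cast; rfl
    · rintro ⟨f, hf, hz⟩
      refine ⟨fun i => ⟨f i, (hf i).1⟩, fun i => integral_coe.mpr (hf i).2, ?_⟩
      apply Subtype.coe_injective
      change (z : ℂ) = _
      rw [hz]; push_cast; rfl
  have hxK : x ∈ K := hLK 0 (hL0 0 hx)
  refine ⟨K, inferInstance, inferInstance, ?_, ?_, ?_, ?_, ?_⟩
  · have h : @Algebra.IsAlgebraic ℚ K _ _ (IntermediateField.algebra' K) := by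
      refine ⟨fun z => ?_⟩
      obtain ⟨i, hi⟩ := (hmem z).mp z.2
      haveI := hLfd i
      have h1 : IsAlgebraic ℚ (⟨z, hi⟩ : L i) := Algebra.IsAlgebraic.isAlgebraic _
      have h2 : IsAlgebraic ℚ ((IntermediateField.inclusion (hLK i)) (⟨z, hi⟩ : L i)) :=
        h1.algHom _
      exact h2
    have hA' : (DivisionRing.toRatAlgebra : Algebra ℚ K) = IntermediateField.algebra' K :=
      Subsingleton.elim _ _
    rw [hA']; exact h
  · intro hcon
    have hA' : (DivisionRing.toRatAlgebra : Algebra ℚ K) = IntermediateField.algebra' K :=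
      Subsingleton.elim _ _
    have h : @FiniteDimensional ℚ K _ _ (IntermediateField.algebra' K).toModule := by
      rw [hA'] at hcon; exact hcon
    have h1 : ∀ i, i ≤ Module.finrank ℚ (L i) := by
      intro i
      induction i with
      | zero => exact Nat.zero_le _
      | succ i ih =>
        haveI := hLfd (i + 1)
        have : Module.finrank ℚ (L i) < Module.finrank ℚ (L (i + 1)) :=
          Submodule.finrank_lt_finrank_of_lt (s := (L i).toSubalgebra.toSubmodule)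
            (t := (L (i + 1)).toSubalgebra.toSubmodule) (hLlt i)
        omega
    have h2 : Module.finrank ℚ (L (Module.finrank ℚ K + 1)) ≤ Module.finrank ℚ K :=
      Submodule.finrank_mono (s := (L (Module.finrank ℚ K + 1)).toSubalgebra.toSubmodule)
            (t := K.toSubalgebra.toSubmodule) (hLK (Module.finrank ℚ K + 1))
    have h3 := h1 (Module.finrank ℚ K + 1)
    omega
  · intro φ z
    obtain ⟨i, hi⟩ := (hmem z).mp z.2
    exact hLTR i (φ.comp (IntermediateField.inclusion (hLK i)).toRingHom) ⟨z, hi⟩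
  · rintro z ⟨m, hm⟩
    rw [htr] at hm
    rw [htr]
    obtain ⟨I, hI⟩ := hSSK m _ hm
    obtain ⟨j, hj⟩ : ∃ j, e j = (z : ℂ) := by
      have : (z : ℂ) ∈ Set.range e := by
        rw [← he]
        haveI := hLfd I
        have h1 : IsAlgebraic ℚ (⟨z, SS.mem hI⟩ : L I) := Algebra.IsAlgebraic.isAlgebraic _
        exact h1.algHom (L I).val
      exact this
    have h2 : SS (L (Nat.pair j I)) m (z : ℂ) :=
      SS.mono (hLmono.monotone (Nat.right_le_pair j I)) hI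
    have h3 : SS (L (Nat.pair j I + 1)) n (z : ℂ) := by
      change SS (seq (Nat.pair j I + 1)).1 n (z : ℂ)
      rw [hseq, Nat.unpair_pair, hj]
      exact hnxt _ _ ⟨m, h2⟩
    exact SS.mono (hLK (Nat.pair j I + 1)) h3
  · refine ⟨⟨x, hxK⟩, ⟨m₀, ?_⟩, ?_⟩
    · rw [htr]
      exact SS.mono ((hL0 0).trans (hLK 0)) hm₀
    · intro f hf hx'
      have h1 : SS K (n - 1) x := (htr _ ⟨x, hxK⟩).mp ⟨f, hf, hx'⟩
      obtain ⟨I, hI⟩ := hSSK _ _ h1
      exact hLx I hI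

end Pool.Agent.TH897.J210
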