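import Pool.Agent.TH149.WR.Stm

set_option autoImplicit false

/-!
# The chain argument for hereditary classes without the Erdos-Hajnal property
-/

namespace Pool.Agent.TH897.J1059

open Pool.Agent.TH149.WR Finset

theorem her_Fr {F : GClass} (hF : Hereditary F) {W : Type} (H : SimpleGraph W) :
    Hereditary (Fr F H) := by
  rintro m n K G ⟨e⟩ ⟨h1, h2⟩
  exact ⟨hF m n K G ⟨e⟩ h1, fun ⟨f⟩ => h2 ⟨e.comp f⟩⟩

theorem ehp_mono {F F' : GClass} (h : ∀ n G, F n G → F' n G) (h' : EHP F') : EHP F := by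
  obtain ⟨c, hc, hh⟩ := h'
  exact ⟨c, hc, fun n G hG => hh n G (h n G hG)⟩

theorem mem_of_ehp {F : GClass} (hF : Hereditary F) (hne : ¬ EHP F) {h : ℕ}
    (H : SimpleGraph (Fin h)) (hH : EHP (Fr F H)) : F h H := by
  by_contra hcon
  apply hne
  refine ehp_mono ?_ hH
  intro n G hG
  exact ⟨hG, fun he => hcon (hF h n H G he hG)⟩

/-- The tree or its complement. -/
def TT (j : ℕ) (b : Bool) : SimpleGraph (Fin (j + 7)) := if b then T j else (T j)ᶜ

/-- Remove a list of trees and complements of trees. -/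
def rem (F : GClass) (l : List (ℕ × Bool)) : GClass :=
  fun n G => F n G ∧ ∀ p ∈ l, ¬ Nonempty (TT p.1 p.2 ↪g G)

theorem exists_first (l : List (ℕ × Bool)) :
    ∀ F : GClass, Hereditary F → ¬ EHP F → EHP (rem F l) →
      ∃ p ∈ l, ∃ F' : GClass, Hereditary F' ∧ ¬ EHP F' ∧ (∀ n G, F' n G → F n G) ∧
        EHP (Fr F' (TT p.1 p.2)) := by
  induction l with
  | nil =>
    intro F _ hne he
    exact absurd (ehp_mono (fun n G hG => ⟨hG, by simp⟩) he) hne
  | cons p l ih =>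
    intro F hF hne he
    by_cases hp : EHP (Fr F (TT p.1 p.2))
    · exact ⟨p, by simp, F, hF, hne, fun _ _ h => h, hp⟩
    · obtain ⟨q, hq, F', h1, h2, h3, h4⟩ := ih (Fr F (TT p.1 p.2)) (her_Fr hF _) hp
        (ehp_mono (fun n G hG => ⟨hG.1.1, by
          intro r hr
          rcases List.mem_cons.1 hr with rfl | hr
          · exact hG.1.2
          · exact hG.2 r hr⟩) he)
      exact ⟨q, by simp [hq], F', h1, h2, fun n G hG => (h3 n G hG).1, h4⟩

/-- The states of the iteration. -/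
structure St where
  C : GClass
  j : ℕ
  b : Bool
  her : Hereditary C
  ne : ¬ EHP C

theorem step (hT : S_ehpT) (s : St) :
    ∃ t : St, s.j < t.j ∧ (∀ n G, t.C n G → s.C n G) ∧ EHP (Fr t.C (TT t.j t.b)) := by
  obtain ⟨N, hN, c, hc, hh⟩ := hT (s.j + 1)
  obtain ⟨p, hp, F', h1, h2, h3, h4⟩ := exists_first
    ((Finset.Icc (s.j + 1) N ×ˢ (Finset.univ : Finset Bool)).toList) s.C s.her s.ne (by
      refine ⟨c, hc, ?_⟩
      intro n G hG
      refine hh n G ?_
      intro j hj1 hj2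
      refine ⟨?_, ?_⟩
      · have := hG.2 (j, true) (by simp [hj1, hj2])
        simpa [TT] using this
      · have := hG.2 (j, false) (by simp [hj1, hj2])
        simpa [TT] using this)
  rw [Finset.mem_toList, Finset.mem_product, Finset.mem_Icc] at hp
  exact ⟨⟨F', p.1, p.2, h1, h2⟩, hp.1.1, h3, h4⟩

/-- The sequence of states. -/
noncomputable def sq (hT : S_ehpT) (s : St) : ℕ → St
  | 0 => s
  | n + 1 => (step hT (sq hT s n)).choose

theorem sq_lt (hT : S_ehpT) (s : St) (n : ℕ) : (sq hT s n).j < (sq hT s (n + 1)).j :=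
  (step hT (sq hT s n)).choose_spec.1

theorem sq_le (hT : S_ehpT) (s : St) (n : ℕ) :
    ∀ m G, (sq hT s (n + 1)).C m G → (sq hT s n).C m G :=
  (step hT (sq hT s n)).choose_spec.2.1

theorem sq_ehp (hT : S_ehpT) (s : St) (n : ℕ) :
    EHP (Fr (sq hT s (n + 1)).C (TT (sq hT s (n + 1)).j (sq hT s (n + 1)).b)) :=
  (step hT (sq hT s n)).choose_spec.2.2

theorem sq_anti (hT : S_ehpT) (s : St) {a b : ℕ} (hab : a ≤ b) :
    ∀ m G, (sq hT s b).C m G → (sq hT s a).C m G := by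
  induction b, hab using Nat.le_induction with
  | base => exact fun _ _ h => h
  | succ b _ ih => exact fun m G h => ih m G (sq_le hT s b m G h)

theorem ehp_bot (F : GClass) : EHP (Fr F (⊥ : SimpleGraph (Fin 1))) := by
  refine ⟨1, one_pos, ?_⟩
  intro n G hG
  have hn : n = 0 := by
    by_contra hn
    apply hG.2
    have hpos : 0 < n := Nat.pos_of_ne_zero hn
    refine ⟨⟨⟨fun _ => ⟨0, hpos⟩, fun a b _ => Subsingleton.elim a b⟩, ?_⟩⟩
    intro a b
    have : a = b := Subsingleton.elim a b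
    subst this
    simp
  subst hn
  refine ⟨∅, Or.inl (by simp), ?_⟩
  simp

theorem ehp_It (haps : S_aps) {F : GClass} (hF : Hereditary F) (m : ℕ → ℕ)
    (Q : ∀ ℓ, SimpleGraph (Fin (m ℓ))) (ℓ : ℕ) (h : ∀ i < ℓ, EHP (Fr F (Q i))) :
    EHP (Fr F (It m Q ℓ)) := by
  induction ℓ with
  | zero => exact ehp_bot F
  | succ ℓ ih =>
    have h1 := haps F hF (Mm m ℓ) (m ℓ) (It m Q ℓ) (Q ℓ)
      (ih (fun i hi => h i (by omega))) (h ℓ (by omega))
    refine ehp_mono ?_ h1
    intro n G hG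
    refine ⟨hG.1, fun ⟨e⟩ => hG.2 ?_⟩
    exact ⟨e.comp (SimpleGraph.Embedding.comap finProdFinEquiv.symm.toEmbedding
      (lex (It m Q ℓ) (Q ℓ)))⟩

theorem chain (haps : S_aps) (hT : S_ehpT) : S_chain := by
  intro F hF hne
  let s0 : St := ⟨F, 0, true, hF, hne⟩
  refine ⟨fun i => (sq hT s0 (i + 1)).j, fun i => TT (sq hT s0 (i + 1)).j (sq hT s0 (i + 1)).b,
    ?_, ?_, ?_, ?_⟩
  · exact strictMono_nat_of_lt_succ (fun n => sq_lt hT s0 (n + 1))
  · intro i
    have := sq_lt hT s0 i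
    show 1 ≤ (sq hT s0 (i + 1)).j
    omega
  · intro i
    show TT _ _ = _ ∨ TT _ _ = _
    rcases hb : (sq hT s0 (i + 1)).b with _ | _
    · right; rfl
    · left; rfl
  · intro s ℓ
    obtain ⟨n, hn⟩ : ∃ n, ∀ i < ℓ, s i < n := by
      refine ⟨(Finset.range ℓ).sup s + 1, ?_⟩
      intro i hi
      exact Nat.lt_succ_of_le (Finset.le_sup (f := s) (Finset.mem_range.2 hi))
    have h1 : EHP (Fr (sq hT s0 n).C (It (fun i => (sq hT s0 (s i + 1)).j + 7)
        (fun i => TT (sq hT s0 (s i + 1)).j (sq hT s0 (s i + 1)).b) ℓ)) := by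
      refine ehp_It haps (sq hT s0 n).her _ _ ℓ ?_
      intro i hi
      refine ehp_mono ?_ (sq_ehp hT s0 (s i))
      intro m G hG
      exact ⟨sq_anti hT s0 (hn i hi) m G hG.1, hG.2⟩
    have h2 := mem_of_ehp (sq hT s0 n).her (sq hT s0 n).ne _ h1
    exact sq_anti hT s0 (Nat.zero_le n) _ _ h2

end Pool.Agent.TH897.J1059
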