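import Pool.Agent.TH171.EN.Defs

/-!
# Excision theorem for normality of the elementary subgroup
-/

set_option autoImplicit false

namespace Pool.Agent.TH897.J602

open Pool.Agent.TH171.EN
open Matrix
open scoped commutatorElement

section dbl

variable {T : Type} [Ring T] {n : ℕ} (K : AddSubgroup T) (hK : TwoSided K)

/-- first projection of the double -/
def p1 : dbl K hK →+* T := (RingHom.fst T T).comp (dbl K hK).subtype

/-- second projection of the double -/
def p2 : dbl K hK →+* T := (RingHom.snd T T).comp (dbl K hK).subtype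

/-- diagonal embedding -/
def diag : T →+* dbl K hK :=
  RingHom.codRestrict (RingHom.prod (RingHom.id T) (RingHom.id T)) (dbl K hK) (fun x => by
    rw [mem_dbl]
    simp)

theorem p1_diag (x : T) : p1 K hK (diag K hK x) = x := rfl

theorem p2_diag (x : T) : p2 K hK (diag K hK x) = x := rfl

theorem dbl_ext {x y : dbl K hK} (h1 : p1 K hK x = p1 K hK y) (h2 : p2 K hK x = p2 K hK y) :
    x = y := Subtype.ext (Prod.ext h1 h2)

theorem mat_ext {A B : Matrix (Fin n) (Fin n) (dbl K hK)}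
    (h1 : (p1 K hK).mapMatrix A = (p1 K hK).mapMatrix B)
    (h2 : (p2 K hK).mapMatrix A = (p2 K hK).mapMatrix B) : A = B := by
  refine Matrix.ext fun i j => ?_
  exact dbl_ext K hK (congrFun (congrFun h1 i) j) (congrFun (congrFun h2 i) j)

/-- The element `(g, 1)`. -/
def mk1 (A : Matrix (Fin n) (Fin n) T) (hA : ∀ i j, (A - 1) i j ∈ K) :
    Matrix (Fin n) (Fin n) (dbl K hK) :=
  Matrix.of fun i j => ⟨(A i j, (1 : Matrix (Fin n) (Fin n) T) i j), by
    rw [mem_dbl]
    exact hA i j⟩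

theorem p1_mk1 (A : Matrix (Fin n) (Fin n) T) (hA : ∀ i j, (A - 1) i j ∈ K) :
    (p1 K hK).mapMatrix (mk1 K hK A hA) = A := rfl

theorem p2_mk1 (A : Matrix (Fin n) (Fin n) T) (hA : ∀ i j, (A - 1) i j ∈ K) :
    (p2 K hK).mapMatrix (mk1 K hK A hA) = 1 := rfl

theorem inv_mem_K (hK' : TwoSided K) (g : GLn n T)
    (hg : ∀ i j, ((g : Matrix (Fin n) (Fin n) T) - 1) i j ∈ K) :
    ∀ i j, (((g⁻¹ : GLn n T) : Matrix (Fin n) (Fin n) T) - 1) i j ∈ K := by
  intro i j
  have h1 : (((g⁻¹ : GLn n T) : Matrix (Fin n) (Fin n) T) - 1) =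
      -(((g : Matrix (Fin n) (Fin n) T) - 1) * ((g⁻¹ : GLn n T) : Matrix (Fin n) (Fin n) T)) := by
    rw [sub_mul, Units.mul_inv, one_mul]
    abel
  rw [h1, Matrix.neg_apply, Matrix.mul_apply]
  refine neg_mem (sum_mem fun k _ => ?_)
  exact (hK' _ _ (hg i k)).2

/-- The unit `(g, 1)`. -/
def gl1 (g : GLn n T) (hg : ∀ i j, ((g : Matrix (Fin n) (Fin n) T) - 1) i j ∈ K) :
    GLn n (dbl K hK) where
  val := mk1 K hK g hg
  inv := mk1 K hK _ (inv_mem_K K hK g hg)
  val_inv := by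
    apply mat_ext K hK
    · rw [map_mul, p1_mk1, p1_mk1, map_one, Units.mul_inv]
    · rw [map_mul, p2_mk1, p2_mk1, map_one, mul_one]
  inv_val := by
    apply mat_ext K hK
    · rw [map_mul, p1_mk1, p1_mk1, map_one, Units.inv_mul]
    · rw [map_mul, p2_mk1, p2_mk1, map_one, mul_one]

theorem p1_gl1 (g : GLn n T) (hg : ∀ i j, ((g : Matrix (Fin n) (Fin n) T) - 1) i j ∈ K) :
    GLmap n (p1 K hK) (gl1 K hK g hg) = g := Units.ext rfl

theorem p2_gl1 (g : GLn n T) (hg : ∀ i j, ((g : Matrix (Fin n) (Fin n) T) - 1) i j ∈ K) :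
    GLmap n (p2 K hK) (gl1 K hK g hg) = 1 := Units.ext rfl

theorem p1_glDiag (g : GLn n T) : GLmap n (p1 K hK) (GLmap n (diag K hK) g) = g := Units.ext rfl

theorem p2_glDiag (g : GLn n T) : GLmap n (p2 K hK) (GLmap n (diag K hK) g) = g := Units.ext rfl

/-- (a): the elementary subgroup of `T` is normal. -/
theorem normal_T (hD : (E n (dbl K hK)).Normal) : (E n T).Normal := by
  apply normal_of
  intro g i j hij r
  have h1 := hD.conj_mem _ (GLmap_mem (diag K hK) (tv_mem i j hij r)) (GLmap n (diag K hK) g)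
  have h2 := GLmap_mem (p1 K hK) h1
  rwa [map_mul, map_mul, map_inv, p1_glDiag, p1_glDiag] at h2

/-- The subgroup generated by the `E`-conjugates of `EI n K`. -/
def M (n : ℕ) (K : AddSubgroup T) : Subgroup (GLn n T) :=
  Subgroup.closure {y | ∃ e ∈ E n T, ∃ x ∈ EI n (K : Set T), y = e * x * e⁻¹}

theorem M_conj {e : GLn n T} (he : e ∈ E n T) {m : GLn n T} (hm : m ∈ M n K) :
    e * m * e⁻¹ ∈ M n K := by
  have h1 : M n K ≤ (M n K).comap (MulAut.conj e).toMonoidHom := by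
    refine (Subgroup.closure_le _).2 ?_
    rintro _ ⟨e', he', x, hx, rfl⟩
    refine Subgroup.subset_closure ⟨e * e', mul_mem he he', x, hx, ?_⟩
    change e * (e' * x * e'⁻¹) * e⁻¹ = _
    group
  exact h1 hm

theorem key (w : GLn n (dbl K hK)) (hw : w ∈ E n (dbl K hK)) :
    GLmap n (p1 K hK) w * (GLmap n (p2 K hK) w)⁻¹ ∈ M n K := by
  unfold E at hw
  induction hw using Subgroup.closure_induction with
  | mem x hx =>
    obtain ⟨i, j, hij, r, rfl⟩ := hx
    rw [GLmap_tv, GLmap_tv, tv_inv, tv_mul]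
    have h1 : p1 K hK r + -p2 K hK r ∈ K := by
      have := r.2
      rw [mem_dbl] at this
      rw [← sub_eq_add_neg]
      exact this
    refine Subgroup.subset_closure ⟨1, one_mem _, _, tv_mem_EI i j hij h1, ?_⟩
    simp
  | one => simp [one_mem]
  | mul x y hx hy ihx ihy =>
    have h1 : GLmap n (p1 K hK) (x * y) * (GLmap n (p2 K hK) (x * y))⁻¹ =
      (GLmap n (p1 K hK) x * (GLmap n (p1 K hK) y * (GLmap n (p2 K hK) y)⁻¹) *
        (GLmap n (p1 K hK) x)⁻¹) * (GLmap n (p1 K hK) x * (GLmap n (p2 K hK) x)⁻¹) := by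
      rw [map_mul, map_mul]
      group
    rw [h1]
    exact mul_mem (M_conj K (GLmap_mem _ hx) ihy) ihx
  | inv x hx ihx =>
    have h1 : GLmap n (p1 K hK) x⁻¹ * (GLmap n (p2 K hK) x⁻¹)⁻¹ =
      (GLmap n (p1 K hK) x)⁻¹ * (GLmap n (p1 K hK) x * (GLmap n (p2 K hK) x)⁻¹)⁻¹ *
        ((GLmap n (p1 K hK) x)⁻¹)⁻¹ := by
      rw [map_inv, map_inv]
      group
    rw [h1]
    exact M_conj K (inv_mem (GLmap_mem _ hx)) (inv_mem ihx)

/-- (b): the commutator formula. -/
theorem comm_mem (hD : (E n (dbl K hK)).Normal) (g : GLn n T)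
    (hg : ∀ i j, ((g : Matrix (Fin n) (Fin n) T) - 1) i j ∈ K) {t : GLn n T} (ht : t ∈ E n T) :
    g * t * g⁻¹ * t⁻¹ ∈ M n K := by
  have h1 : gl1 K hK g hg * GLmap n (diag K hK) t * (gl1 K hK g hg)⁻¹ *
      (GLmap n (diag K hK) t)⁻¹ ∈ E n (dbl K hK) :=
    mul_mem (hD.conj_mem _ (GLmap_mem _ ht) _) (inv_mem (GLmap_mem _ ht))
  have h2 := key K hK _ h1
  rw [map_mul, map_mul, map_mul, map_inv, map_inv, p1_gl1, p1_glDiag, map_mul, map_mul, map_mul,
    map_inv, map_inv, p2_gl1, p2_glDiag] at h2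
  simpa using h2

end dbl

theorem GLmap_injective {n : ℕ} {R S : Type} [Ring R] [Ring S] (f : R →+* S)
    (hf : Function.Injective f) : Function.Injective (GLmap n f) := by
  intro x y h
  apply Units.ext
  ext i j
  apply hf
  rw [← GLmap_val_apply, ← GLmap_val_apply, h]

theorem excision {T : Type} [Ring T] {n : ℕ} (hn : 3 ≤ n) (R : Subring T) (I : AddSubgroup T)
    (hI : TwoSided I) (hIR : ∀ x ∈ I, x ∈ R)
    (hT : ∀ e ∈ E n T, ∀ g ∈ EI n (sq I : Set T), e * g * e⁻¹ ∈ EI n (I : Set T))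
    (hD : (E n (dbl (sq I) (sq_twoSided hI))).Normal)
    {Q : Type} [Ring Q] (π : R →+* Q) (hπ : Function.Surjective π)
    (hker : ∀ x : R, π x = 0 → (x : T) ∈ sq I) (hQ : (E n Q).Normal) : (E n R).Normal := by
  classical
  have hTn : (E n T).Normal := normal_T (sq I) (sq_twoSided hI) hD
  -- the embedding
  set ι : GLn n R →* GLn n T := GLmap n R.subtype with hι
  have hιinj : Function.Injective ι := GLmap_injective _ Subtype.val_injective
  have hιE : ∀ x ∈ E n R, ι x ∈ E n T := fun x hx => GLmap_mem _ hx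
  -- M is contained in the image of E n R
  have hM : M n (sq I) ≤ (E n R).map ι := by
    refine (Subgroup.closure_le _).2 ?_
    rintro _ ⟨e, he, x, hx, rfl⟩
    have h1 : EI n (I : Set T) ≤ (E n R).map ι := EI_le fun i j hij r hr =>
      ⟨tv i j hij ⟨r, hIR r hr⟩, tv_mem _ _ _ _, GLmap_tv _ _ _ _ _⟩
    exact h1 (hT e he x hx)
  -- the congruence kernel
  set C : Subgroup (GLn n R) := (GLmap n π).ker with hC
  have hcong : ∀ y ∈ C, ∀ i j, ((ι y : Matrix (Fin n) (Fin n) T) - 1) i j ∈ sq I := by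
    intro y hy i j
    have h1 : GLmap n π y = 1 := hy
    have h2 : π ((y : Matrix (Fin n) (Fin n) R) i j) = (1 : Matrix (Fin n) (Fin n) Q) i j := by
      rw [← GLmap_val_apply, h1, Units.val_one]
    have h3 : π ((y : Matrix (Fin n) (Fin n) R) i j - (1 : Matrix (Fin n) (Fin n) R) i j) = 0 := by
      rw [map_sub, h2, Matrix.one_apply, Matrix.one_apply]
      split <;> simp
    have h4 := hker _ h3
    have h5 : ((ι y : Matrix (Fin n) (Fin n) T) - 1) i j =
        (((y : Matrix (Fin n) (Fin n) R) i j - (1 : Matrix (Fin n) (Fin n) R) i j : R) : T) := by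
      rw [Matrix.sub_apply, hι, GLmap_val_apply, AddSubgroupClass.coe_sub]
      congr 1
      rw [Matrix.one_apply, Matrix.one_apply]
      split <;> simp
    rw [h5]
    exact h4
  have hcomm : ∀ y ∈ C, ∀ x : GLn n R, ι x ∈ E n T → y * x * y⁻¹ * x⁻¹ ∈ E n R := by
    intro y hy x hx
    have h1 := hM (comm_mem (sq I) (sq_twoSided hI) hD (ι y) (hcong y hy) hx)
    obtain ⟨z, hz, hz'⟩ := h1
    have h2 : z = y * x * y⁻¹ * x⁻¹ := by
      apply hιinj
      rw [hz', map_mul, map_mul, map_mul, map_inv, map_inv]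
    rw [← h2]
    exact hz
  have hnorm : ∀ y ∈ C, ∀ x ∈ E n R, y * x * y⁻¹ ∈ E n R := by
    intro y hy x hx
    have h1 := mul_mem (hcomm y hy x (hιE x hx)) hx
    simpa using h1
  -- the normal closure
  set X : Subgroup (GLn n R) := Subgroup.normalClosure (E n R : Set (GLn n R)) with hX
  have hXn : X.Normal := Subgroup.normalClosure_normal
  have hEX : E n R ≤ X := Subgroup.le_normalClosure
  have hXT : ∀ x ∈ X, ι x ∈ E n T := by
    have h1 : X ≤ (E n T).comap ι := by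
      have : ((E n T).comap ι).Normal := hTn.comap ι
      exact Subgroup.normalClosure_le_normal (fun x hx => hιE x hx)
    exact h1
  have hXdec : ∀ x ∈ X, ∃ e ∈ E n R, ∃ k ∈ C, k ∈ X ∧ x = e * k := by
    intro x hx
    have h1 : X ≤ (E n Q).comap (GLmap n π) := by
      have : ((E n Q).comap (GLmap n π)).Normal := hQ.comap _
      exact Subgroup.normalClosure_le_normal (fun x hx => GLmap_mem π hx)
    obtain ⟨e, he, he'⟩ := exists_lift π hπ (h1 hx)
    refine ⟨e, he, e⁻¹ * x, ?_, mul_mem (inv_mem (hEX he)) hx, by group⟩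
    rw [hC, MonoidHom.mem_ker, map_mul, map_inv, he', inv_mul_cancel]
  -- X is perfect
  have hXperf : X ≤ ⁅X, X⁆ := by
    have := hXn
    have h1 : (E n R : Set (GLn n R)) ⊆ (⁅X, X⁆ : Subgroup (GLn n R)) := by
      have h2 : E n R ≤ ⁅X, X⁆ := by
        rw [← E_perfect hn]
        exact Subgroup.commutator_mono hEX hEX
      exact h2
    exact Subgroup.normalClosure_le_normal h1
  have hXX : ⁅X, X⁆ ≤ E n R := by
    rw [Subgroup.commutator_le]
    intro x hx x' hx'
    obtain ⟨e, he, k, hk, hkX, rfl⟩ := hXdec x hx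
    obtain ⟨e', he', k', hk', hkX', rfl⟩ := hXdec x' hx'
    have h1 : k * e' * k⁻¹ ∈ E n R := hnorm k hk e' he'
    have h2 : k' * e⁻¹ * k'⁻¹ ∈ E n R := hnorm k' hk' e⁻¹ (inv_mem he)
    have h3 : k * k' * k⁻¹ * k'⁻¹ ∈ E n R := hcomm k hk k' (hXT k' hkX')
    have h4 := mul_mem (mul_mem (mul_mem (mul_mem he h1) h3) h2) (inv_mem he')
    have h5 : ⁅e * k, e' * k'⁆ = e * (k * e' * k⁻¹) * (k * k' * k⁻¹ * k'⁻¹) *
        (k' * e⁻¹ * k'⁻¹) * e'⁻¹ := by
      rw [commutatorElement_def]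
      group
    rw [h5]
    exact h4
  have h6 : E n R = X := le_antisymm hEX (hXperf.trans hXX)
  rw [h6]
  exact hXn

end Pool.Agent.TH897.J602
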