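import Mathlib

set_option autoImplicit false

namespace Pool.Agent.TH897.J237

open Finset

variable {H : Type*} [NormedAddCommGroup H] [InnerProductSpace ℝ H]

/-- One point rounding. -/
theorem one_point {ι : Type*} (s : Finset ι) (hs : s.Nonempty) (p : ι → ℝ)
    (hp : ∀ j ∈ s, 0 < p j) (hp1 : ∑ j ∈ s, p j = 1) (v : ι → H) (e u : H) :
    ∃ j ∈ s, ‖e + v j - ∑ j ∈ s, p j • v j‖ ^ 2 ≤ ‖e‖ ^ 2 + ∑ j ∈ s, p j * ‖v j - u‖ ^ 2 := by
  classical
  set m : H := ∑ j ∈ s, p j • v j with hm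
  have hsum : ∀ x : H, ∑ j ∈ s, p j * ‖x + (v j - m)‖ ^ 2 =
      ‖x‖ ^ 2 + ∑ j ∈ s, p j * ‖v j - m‖ ^ 2 := by
    intro x
    have h1 : ∀ j, p j * ‖x + (v j - m)‖ ^ 2 = p j * ‖x‖ ^ 2 +
        2 * inner ℝ x (p j • (v j - m)) + p j * ‖v j - m‖ ^ 2 := by
      intro j
      rw [norm_add_sq_real, inner_smul_right]; ring
    simp_rw [h1]
    rw [Finset.sum_add_distrib, Finset.sum_add_distrib, ← Finset.sum_mul, hp1, one_mul,
      ← Finset.mul_sum, ← inner_sum]
    have h2 : ∑ j ∈ s, p j • (v j - m) = 0 := by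
      simp_rw [smul_sub]
      rw [Finset.sum_sub_distrib, ← Finset.sum_smul, hp1, one_smul, ← hm, sub_self]
    rw [h2, inner_zero_right]; ring
  have h3 : ∑ j ∈ s, p j * ‖v j - m‖ ^ 2 ≤ ∑ j ∈ s, p j * ‖v j - u‖ ^ 2 := by
    have := hsum (m - u)
    simp only [sub_add_sub_cancel'] at this
    rw [this]
    nlinarith [sq_nonneg ‖m - u‖]
  have h4 : ∑ j ∈ s, p j * ‖e + (v j - m)‖ ^ 2 ≤
      ∑ j ∈ s, p j * (‖e‖ ^ 2 + ∑ j ∈ s, p j * ‖v j - u‖ ^ 2) := by
    rw [hsum, ← Finset.sum_mul, hp1, one_mul]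
    linarith
  obtain ⟨j, hj, h5⟩ := Finset.exists_le_of_sum_le hs h4
  refine ⟨j, hj, ?_⟩
  rw [add_sub_assoc]
  exact le_of_mul_le_mul_left h5 (hp j hj)

/-- Replacement of several measures by points. -/
theorem many_points {ι : Type*} [DecidableEq ι] (C D : Finset ι) (hD : D ⊆ C)
    (hr : 0 < (C \ D).card) (θ : ℝ) (hθ : 0 < θ) (hθ1 : θ < 1) (v : ι → H) (q : H) (b : ℝ)
    (hv : ∀ i ∈ C, ‖v i - q‖ ^ 2 ≤ b) (D' : Finset ι) (hD' : D' ⊆ D) (e : H) :
    ∃ g : ι → ι, ‖e + ∑ i ∈ D', (v (g i) -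
        (θ • v i + ((1 - θ) / (C \ D).card) • ∑ j ∈ C \ D, v j))‖ ^ 2 ≤
      ‖e‖ ^ 2 + D'.card * (4 * (1 - θ) * b) := by
  induction D' using Finset.induction_on with
  | empty => exact ⟨id, by simp⟩
  | insert i D' hi ih =>
    obtain ⟨g, hg⟩ := ih (fun x hx => hD' (Finset.mem_insert_of_mem hx))
    have hiD : i ∈ D := hD' (Finset.mem_insert_self _ _)
    have hiCD : i ∉ C \ D := by simp [hiD]
    have hr' : (0 : ℝ) < (C \ D).card := by exact_mod_cast hr
    set e' : H := e + ∑ i ∈ D', (v (g i) -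
        (θ • v i + ((1 - θ) / (C \ D).card) • ∑ j ∈ C \ D, v j)) with he'
    obtain ⟨j, hj, h1⟩ := one_point (insert i (C \ D)) (Finset.insert_nonempty _ _)
      (fun j => if j = i then θ else (1 - θ) / (C \ D).card)
      (fun j _ => by
        split_ifs
        · exact hθ
        · have : 0 < 1 - θ := by linarith
          positivity)
      (by
        rw [Finset.sum_insert hiCD, if_pos rfl, Finset.sum_congr rfl (g := fun _ =>
          (1 - θ) / ((C \ D).card : ℝ)) (fun j hj => by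
            rw [if_neg]; rintro rfl; exact hiCD hj), Finset.sum_const, nsmul_eq_mul]
        field_simp; ring) v e' (v i)
    refine ⟨Function.update g i j, ?_⟩
    rw [Finset.sum_insert hi, Function.update_self]
    have h2 : ∑ x ∈ D', (v (Function.update g i j x) -
        (θ • v x + ((1 - θ) / (C \ D).card) • ∑ j ∈ C \ D, v j)) =
        ∑ x ∈ D', (v (g x) - (θ • v x + ((1 - θ) / (C \ D).card) • ∑ j ∈ C \ D, v j)) := by
      refine Finset.sum_congr rfl fun x hx => ?_
      rw [Function.update_of_ne]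
      rintro rfl; exact hi hx
    rw [h2]
    have h3 : ∑ j ∈ insert i (C \ D), (if j = i then θ else (1 - θ) / ((C \ D).card : ℝ)) • v j =
        θ • v i + ((1 - θ) / (C \ D).card) • ∑ j ∈ C \ D, v j := by
      rw [Finset.sum_insert hiCD, if_pos rfl, Finset.smul_sum]
      congr 1
      refine Finset.sum_congr rfl fun x hx => ?_
      rw [if_neg]; rintro rfl; exact hiCD hx
    rw [h3] at h1
    have h4 : ∑ j ∈ insert i (C \ D), (if j = i then θ else (1 - θ) / ((C \ D).card : ℝ)) *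
        ‖v j - v i‖ ^ 2 ≤ 4 * (1 - θ) * b := by
      rw [Finset.sum_insert hiCD, if_pos rfl, sub_self]
      have h5 : ∀ x ∈ C \ D, (if x = i then θ else (1 - θ) / ((C \ D).card : ℝ)) *
        ‖v x - v i‖ ^ 2 ≤ (1 - θ) / ((C \ D).card : ℝ) * (4 * b) := by
        intro x hx
        rw [if_neg (by rintro rfl; exact hiCD hx)]
        have h6 := hv x (Finset.mem_sdiff.mp hx).1
        have h7 := hv i (hD hiD)
        have h8 : ‖v x - v i‖ ≤ ‖v x - q‖ + ‖v i - q‖ := by
          have : v x - v i = (v x - q) - (v i - q) := by abel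
          rw [this]; exact norm_sub_le _ _
        have h9 : ‖v x - v i‖ ^ 2 ≤ 4 * b := by
          nlinarith [norm_nonneg (v x - v i), norm_nonneg (v x - q), norm_nonneg (v i - q),
            sq_nonneg (‖v x - q‖ - ‖v i - q‖)]
        have : 0 < 1 - θ := by linarith
        gcongr
      have h10 := Finset.sum_le_sum h5
      rw [Finset.sum_const, nsmul_eq_mul] at h10
      have h11 : ((C \ D).card : ℝ) * ((1 - θ) / ((C \ D).card : ℝ) * (4 * b)) =
        4 * (1 - θ) * b := by field_simp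
      rw [h11] at h10
      simpa using h10
    have h5 : e + ((v j - (θ • v i + ((1 - θ) / (C \ D).card) • ∑ j ∈ C \ D, v j)) +
        ∑ x ∈ D', (v (g x) - (θ • v x + ((1 - θ) / (C \ D).card) • ∑ j ∈ C \ D, v j))) =
        e' + v j - (θ • v i + ((1 - θ) / (C \ D).card) • ∑ j ∈ C \ D, v j) := by
      rw [he']; abel
    rw [h5, Finset.card_insert_of_notMem hi]
    push_cast
    linarith

/-- Rounding for a fixed weight vector. -/
theorem fixed_round {ι : Type*} [Fintype ι] [DecidableEq ι] (w : ι → ℝ) (hw0 : ∀ i, 0 ≤ w i)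
    (v : ι → H) (q : H) (b : ℝ)
    (hv : ∀ i, w i ≠ 0 → ‖v i - q‖ ^ 2 ≤ b) (M : ℝ) (hM : 0 < M) (hW : 0 < ∑ i, w i)
    (κ : ℝ) (hκ : 0 ≤ κ) (e : H) :
    ∃ (t : Multiset ι) (ρ : ι → ℝ), (∀ i, 0 ≤ ρ i) ∧ (Multiset.card t : ℝ) + ∑ i, ρ i = M ∧
      (∑ i, w i) / M * (‖e + (t.map v).sum + ∑ i, ρ i • v i‖ ^ 2 + κ * ∑ i, ρ i) ≤
        (∑ i, w i) / M * ‖e + (M / ∑ i, w i) • ∑ i, w i • v i‖ ^ 2 +
          4 * b * |(∑ i, w i) - M| + κ * (|(∑ i, w i) - M| +
            ((∑ i, w i) - ∑ i, if w i = 1 then (1 : ℝ) else 0) + (∑ i, w i) / M) := by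
  set W : ℝ := ∑ i, w i with hWdef
  set C : Finset ι := Finset.univ.filter fun i => w i = 1 with hC
  have hK : (∑ i, if w i = 1 then (1 : ℝ) else 0) = C.card := by
    rw [hC, ← Finset.sum_filter, Finset.sum_const, nsmul_eq_mul, mul_one]
  have hb : 0 ≤ b := by
    by_contra hcon
    have : ∀ i, w i = 0 := by
      intro i
      by_contra h
      exact hcon ((sq_nonneg _).trans (hv i h))
    rw [hWdef] at hW
    simp [this] at hW
  have hKW : (C.card : ℝ) ≤ W := by
    rw [← hK, hWdef]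
    refine Finset.sum_le_sum fun i _ => ?_
    split_ifs with h
    · exact h.ge
    · exact hw0 i
  have hWM : 0 < W / M := div_pos hW hM
  rw [hK]
  rcases le_or_gt W M with hle | hlt
  · -- the mass is too small
    have hθ : 1 ≤ M / W := by rwa [le_div_iff₀ hW, one_mul]
    refine ⟨C.val, fun i => (M / W) * w i - if w i = 1 then 1 else 0, ?_, ?_, ?_⟩
    · intro i
      dsimp only
      split_ifs with h
      · rw [h]; linarith
      · have := mul_nonneg (zero_le_one.trans hθ) (hw0 i); linarith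
    · rw [Finset.sum_sub_distrib, ← Finset.mul_sum, ← hWdef, hK, div_mul_cancel₀ _ hW.ne']
      simp
    · have h1 : ∑ i, ((M / W) * w i - if w i = 1 then (1 : ℝ) else 0) = M - C.card := by
        rw [Finset.sum_sub_distrib, ← Finset.mul_sum, ← hWdef, hK, div_mul_cancel₀ _ hW.ne']
      have h2 : e + (C.val.map v).sum +
          ∑ i, ((M / W) * w i - if w i = 1 then (1 : ℝ) else 0) • v i =
          e + (M / W) • ∑ i, w i • v i := by
        have h3 : (C.val.map v).sum = ∑ i, (if w i = 1 then (1 : ℝ) else 0) • v i := by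
          change ∑ i ∈ C, v i = _
          rw [hC, Finset.sum_filter]
          refine Finset.sum_congr rfl fun i _ => ?_
          split_ifs <;> simp
        rw [h3]
        simp_rw [sub_smul]
        rw [Finset.sum_sub_distrib, Finset.smul_sum]
        simp_rw [smul_smul]
        abel
      rw [h1, h2, mul_add]
      have h4 : W / M ≤ 1 := by rwa [div_le_one hM]
      have h5 : |W - M| = M - W := by rw [abs_sub_comm, abs_of_nonneg (by linarith)]
      rw [h5]
      have h6 : W / M * (M - C.card) ≤ (M - W) + (W - C.card) := by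
        have : (M - (C.card : ℝ)) = (M - W) + (W - C.card) := by ring
        rw [this]
        have h7 : 0 ≤ (M - W) + (W - (C.card : ℝ)) := by linarith
        nlinarith
      have h8 : W / M * (κ * (M - C.card)) = κ * (W / M * (M - C.card)) := by ring
      rw [h8]
      have h9 : κ * (W / M * (M - C.card)) ≤ κ * (M - W + (W - C.card) + W / M) :=
        mul_le_mul_of_nonneg_left (by linarith) hκ
      have h10 : 0 ≤ 4 * b * (M - W) := by
        have : 0 ≤ M - W := by linarith
        positivity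
      linarith
  · -- the mass is too large
    have habs : |W - M| = W - M := abs_of_nonneg (by linarith)
    set θ : ℝ := M / W with hθdef
    have hθ0 : 0 < θ := div_pos hM hW
    have hθ1 : θ < 1 := by rwa [hθdef, div_lt_one hW]
    have hθW : θ * W = M := div_mul_cancel₀ _ hW.ne'
    obtain ⟨k, hk1, hk2⟩ : ∃ k : ℕ, (k : ℝ) ≤ θ * C.card ∧ θ * C.card < k + 1 :=
      ⟨⌊θ * C.card⌋₊, Nat.floor_le (by positivity), Nat.lt_floor_add_one _⟩
    have hmass : W / M * (M - k) ≤ (W - C.card) + W / M := by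
      have h1 : M - k ≤ θ * (W - C.card) + 1 := by
        rw [mul_sub, hθW]; linarith
      calc W / M * (M - k) ≤ W / M * (θ * (W - C.card) + 1) :=
            mul_le_mul_of_nonneg_left h1 hWM.le
        _ = (W - C.card) + W / M := by
            rw [hθdef]; field_simp
    rcases Nat.eq_zero_or_pos C.card with h0 | hpos
    · -- no core points
      have hk0 : k = 0 := by
        rw [h0] at hk1
        simp only [Nat.cast_zero, mul_zero] at hk1
        exact_mod_cast (le_antisymm hk1 (Nat.cast_nonneg k))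
      refine ⟨0, fun i => θ * w i, fun i => mul_nonneg hθ0.le (hw0 i), ?_, ?_⟩
      · rw [← Finset.mul_sum, ← hWdef, hθW]; simp
      · rw [← Finset.mul_sum, ← hWdef, hθW]
        have h1 : e + (Multiset.map v 0).sum + ∑ i, (θ * w i) • v i =
            e + θ • ∑ i, w i • v i := by
          rw [Finset.smul_sum]; simp_rw [smul_smul]; simp
        rw [h1, mul_add, habs]
        have h8 : W / M * (κ * M) = κ * (W / M * (M - k)) := by rw [hk0]; push_cast; ring
        rw [h8]
        have h9 : κ * (W / M * (M - k)) ≤ κ * (W - M + (W - C.card) + W / M) :=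
          mul_le_mul_of_nonneg_left (by linarith) hκ
        have h10 : 0 ≤ 4 * b * (W - M) := by
          have : 0 ≤ W - M := by linarith
          positivity
        linarith
    · have hposR : (0 : ℝ) < C.card := by exact_mod_cast hpos
      have hkC : k < C.card := by
        have : (k : ℝ) < C.card := by nlinarith
        exact_mod_cast this
      obtain ⟨D, hDC, hDk⟩ := Finset.exists_subset_card_eq hkC.le
      have hCD : (C \ D).card = C.card - k := by
        rw [Finset.card_sdiff_of_subset hDC, hDk]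
      have hCDpos : 0 < (C \ D).card := by rw [hCD]; omega
      have hCDr : ((C \ D).card : ℝ) = C.card - k := by
        rw [hCD, Nat.cast_sub hkC.le]
      have hCDposR : (0 : ℝ) < (C \ D).card := by exact_mod_cast hCDpos
      have hCmem : ∀ i ∈ C, w i = 1 := fun i hi => (Finset.mem_filter.mp hi).2
      obtain ⟨g, hg⟩ := many_points C D hDC hCDpos θ hθ0 hθ1 v q b
        (fun i hi => hv i (by rw [hCmem i hi]; exact one_ne_zero)) D (Finset.Subset.refl _)
        (e + θ • ∑ i, w i • v i)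
      set r : ℝ := ((C \ D).card : ℝ) with hr
      let ρ : ι → ℝ := fun i => θ * w i - (if i ∈ D then θ else 0) -
        (if i ∈ C \ D then (k : ℝ) * ((1 - θ) / r) else 0)
      have hρ0 : ∀ i, 0 ≤ ρ i := by
        intro i
        simp only [ρ]
        by_cases hiD : i ∈ D
        · rw [if_pos hiD, if_neg (by simp [hiD]), hCmem i (hDC hiD)]; simp
        · by_cases hiC : i ∈ C \ D
          · rw [if_neg hiD, if_pos hiC, hCmem i (Finset.mem_sdiff.mp hiC).1]
            have h1 : (k : ℝ) * ((1 - θ) / r) ≤ θ := by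
              rw [← mul_div_assoc, div_le_iff₀ hCDposR, hCDr]
              nlinarith
            linarith
          · rw [if_neg hiD, if_neg hiC]
            have := mul_nonneg hθ0.le (hw0 i)
            linarith
      have hρs : ∑ i, ρ i = M - k := by
        simp only [ρ]
        rw [Finset.sum_sub_distrib, Finset.sum_sub_distrib, ← Finset.mul_sum, ← hWdef, hθW,
          Finset.sum_ite_mem, Finset.sum_ite_mem, Finset.univ_inter, Finset.univ_inter,
          Finset.sum_const, Finset.sum_const, nsmul_eq_mul, nsmul_eq_mul, hDk, ← hr]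
        field_simp
        ring
      have hρv : ∑ i, ρ i • v i = θ • ∑ i, w i • v i -
          ∑ i ∈ D, (θ • v i + ((1 - θ) / r) • ∑ j ∈ C \ D, v j) := by
        simp only [ρ, sub_smul]
        rw [Finset.sum_sub_distrib, Finset.sum_sub_distrib, Finset.smul_sum,
          Finset.sum_add_distrib, Finset.sum_const, hDk, ← sub_sub]
        congr 1
        · congr 1
          · simp_rw [smul_smul]
          · simp_rw [ite_smul, zero_smul]
            rw [Finset.sum_ite_mem, Finset.univ_inter]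
        · simp_rw [ite_smul, zero_smul]
          rw [Finset.sum_ite_mem, Finset.univ_inter, ← Finset.smul_sum, ← Nat.cast_smul_eq_nsmul ℝ,
            smul_smul]
      refine ⟨D.val.map g, ρ, hρ0, ?_, ?_⟩
      · rw [hρs, Multiset.card_map]
        have : Multiset.card D.val = k := hDk
        rw [this]; ring
      · have h1 : e + ((D.val.map g).map v).sum + ∑ i, ρ i • v i =
            e + θ • ∑ i, w i • v i + ∑ i ∈ D, (v (g i) -
              (θ • v i + ((1 - θ) / r) • ∑ j ∈ C \ D, v j)) := by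
          rw [hρv, Finset.sum_sub_distrib, Multiset.map_map]
          have : (Multiset.map (v ∘ g) D.val).sum = ∑ i ∈ D, v (g i) := rfl
          rw [this]; abel
        rw [h1, hρs, mul_add, habs]
        have h2 := mul_le_mul_of_nonneg_left hg hWM.le
        rw [mul_add, hDk] at h2
        have h3 : W / M * (k * (4 * (1 - θ) * b)) ≤ 4 * b * (W - M) := by
          have h4 : (k : ℝ) * (1 - θ) ≤ θ * (W - M) := by
            have h5 : (k : ℝ) ≤ θ * W := hk1.trans (mul_le_mul_of_nonneg_left hKW hθ0.le)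
            have h6 : W - M = W * (1 - θ) := by rw [mul_sub, mul_one, mul_comm, hθW]
            rw [h6, ← mul_assoc]
            exact mul_le_mul_of_nonneg_right h5 (by linarith)
          calc W / M * (k * (4 * (1 - θ) * b)) = 4 * b * (W / M) * (k * (1 - θ)) := by ring
            _ ≤ 4 * b * (W / M) * (θ * (W - M)) := by
                apply mul_le_mul_of_nonneg_left h4; positivity
            _ = 4 * b * (W - M) := by rw [hθdef]; field_simp
        have h8 : W / M * (κ * (M - k)) = κ * (W / M * (M - k)) := by ring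
        rw [h8]
        have h9 : κ * (W / M * (M - k)) ≤ κ * (W - M + (W - C.card) + W / M) :=
          mul_le_mul_of_nonneg_left (by linarith) hκ
        linarith

/-- The pointwise variance bound. -/
theorem pointwise (Z z₀ : H) (W M b τ : ℝ) (hW : 0 < W) (hM : 0 < M) (hb : 0 ≤ b) (hτ : 0 < τ)
    (hτ1 : τ ≤ 1) (hZ : ‖Z‖ ≤ W * √b) (hz : ‖z₀‖ ≤ M * √b) :
    M / W * ‖Z - (W / M) • z₀‖ ^ 2 ≤ (1 + τ) ^ 2 * ‖Z - z₀‖ ^ 2 + 100 / τ ^ 2 * b * (W - M) ^ 2 := by
  have hsb : √b ^ 2 = b := Real.sq_sqrt hb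
  have hMW : 0 < M / W := div_pos hM hW
  rcases le_or_gt (M / W) (1 + τ) with h | h
  · -- M / W ≤ 1 + τ
    have h1 : Z - (W / M) • z₀ = (Z - z₀) + (1 - W / M) • z₀ := by
      rw [sub_smul, one_smul]; abel
    have h2 : ‖Z - (W / M) • z₀‖ ^ 2 ≤ (1 + τ) * ‖Z - z₀‖ ^ 2 + (1 + 1 / τ) * (W - M) ^ 2 * b := by
      have h3 : ‖(1 - W / M) • z₀‖ ^ 2 ≤ (W - M) ^ 2 * b := by
        rw [norm_smul, mul_pow, Real.norm_eq_abs, sq_abs]
        have h4 : ‖z₀‖ ^ 2 ≤ M ^ 2 * b := by
          rw [← hsb, ← mul_pow]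
          exact pow_le_pow_left₀ (norm_nonneg _) hz 2
        calc (1 - W / M) ^ 2 * ‖z₀‖ ^ 2 ≤ (1 - W / M) ^ 2 * (M ^ 2 * b) := by gcongr
          _ = (W - M) ^ 2 * b := by field_simp; ring
      have h5 : ‖Z - (W / M) • z₀‖ ≤ ‖Z - z₀‖ + ‖(1 - W / M) • z₀‖ := by
        rw [h1]; exact norm_add_le _ _
      set A := ‖Z - z₀‖
      set B := ‖(1 - W / M) • z₀‖
      have h6 : 2 * A * B ≤ τ * A ^ 2 + 1 / τ * B ^ 2 := by
        have h7 : 0 ≤ (τ * A - B) ^ 2 / τ := by positivity
        have h8 : (τ * A - B) ^ 2 / τ = τ * A ^ 2 + 1 / τ * B ^ 2 - 2 * A * B := by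
          field_simp; ring
        linarith
      have h9 : (A + B) ^ 2 ≤ (1 + τ) * A ^ 2 + (1 + 1 / τ) * B ^ 2 := by nlinarith
      have h10 : ‖Z - (W / M) • z₀‖ ^ 2 ≤ (A + B) ^ 2 :=
        pow_le_pow_left₀ (norm_nonneg _) h5 2
      have h11 : (1 + 1 / τ) * B ^ 2 ≤ (1 + 1 / τ) * ((W - M) ^ 2 * b) :=
        mul_le_mul_of_nonneg_left h3 (by positivity)
      linarith
    have h3 : M / W * ‖Z - (W / M) • z₀‖ ^ 2 ≤
        (1 + τ) * ((1 + τ) * ‖Z - z₀‖ ^ 2 + (1 + 1 / τ) * (W - M) ^ 2 * b) :=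
      mul_le_mul h h2 (by positivity) (by positivity)
    have h4 : (1 + τ) * (1 + 1 / τ) ≤ 100 / τ ^ 2 := by
      rw [le_div_iff₀ (by positivity)]
      have : (1 + τ) * (1 + 1 / τ) * τ ^ 2 = (1 + τ) ^ 2 * τ := by field_simp; ring
      rw [this]
      nlinarith
    have h5 : (1 + τ) * (1 + 1 / τ) * ((W - M) ^ 2 * b) ≤ 100 / τ ^ 2 * ((W - M) ^ 2 * b) :=
      mul_le_mul_of_nonneg_right h4 (by positivity)
    nlinarith
  · -- M / W > 1 + τ
    have hMW' : (1 + τ) * W < M := by rwa [lt_div_iff₀ hW] at h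
    have h1 : ‖Z - (W / M) • z₀‖ ≤ 2 * W * √b := by
      calc ‖Z - (W / M) • z₀‖ ≤ ‖Z‖ + ‖(W / M) • z₀‖ := norm_sub_le _ _
        _ = ‖Z‖ + W / M * ‖z₀‖ := by
            rw [norm_smul, Real.norm_of_nonneg (by positivity)]
        _ ≤ W * √b + W / M * (M * √b) := by gcongr
        _ = 2 * W * √b := by field_simp; ring
    have h2 : ‖Z - (W / M) • z₀‖ ^ 2 ≤ 4 * W ^ 2 * b := by
      calc ‖Z - (W / M) • z₀‖ ^ 2 ≤ (2 * W * √b) ^ 2 := pow_le_pow_left₀ (norm_nonneg _) h1 2
        _ = 4 * W ^ 2 * b := by rw [mul_pow, hsb]; ring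
    have h3 : M / W * ‖Z - (W / M) • z₀‖ ^ 2 ≤ 4 * M * W * b := by
      calc M / W * ‖Z - (W / M) • z₀‖ ^ 2 ≤ M / W * (4 * W ^ 2 * b) := by gcongr
        _ = 4 * M * W * b := by field_simp
    have h4 : 4 * M * W * b ≤ 100 / τ ^ 2 * b * (W - M) ^ 2 := by
      have hWM : 0 ≤ M - W := by nlinarith
      have h5 : τ * M ≤ 2 * (M - W) := by
        have := mul_nonneg (sub_nonneg.mpr hτ1) hWM
        nlinarith
      have h6 : (τ * M) ^ 2 ≤ (2 * (M - W)) ^ 2 := pow_le_pow_left₀ (by positivity) h5 2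
      have h7 : M ^ 2 ≤ 4 / τ ^ 2 * (W - M) ^ 2 := by
        rw [div_mul_eq_mul_div, le_div_iff₀ (by positivity)]
        nlinarith
      have h8 : M * W ≤ M ^ 2 := by nlinarith
      calc 4 * M * W * b = 4 * b * (M * W) := by ring
        _ ≤ 4 * b * M ^ 2 := by gcongr
        _ ≤ 4 * b * (4 / τ ^ 2 * (W - M) ^ 2) := by gcongr
        _ = 16 / τ ^ 2 * b * (W - M) ^ 2 := by ring
        _ ≤ 100 / τ ^ 2 * b * (W - M) ^ 2 := by gcongr; norm_num
    have h5 : 0 ≤ (1 + τ) ^ 2 * ‖Z - z₀‖ ^ 2 := by positivity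
    linarith

end Pool.Agent.TH897.J237
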