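import Pool.Agent.TH331.RZ.Defs
import Pool.Agent.TH897.J237a

/-!
# Cell lemma (job 237 of helper331, MP_d18e52_an)
-/

set_option autoImplicit false

open MeasureTheory Set Filter Topology
open scoped ENNReal Real FourierTransform

namespace Pool.Agent.TH897.J237

open Pool.Agent.Helper88.SE

theorem continuous_of_holder {d : ℕ} {a : ℝ} (ha : 0 < a)
    {H : Type} [NormedAddCommGroup H] (Φ : E d → H)
    (hΦ : ∀ u v, ‖Φ u - Φ v‖ ^ 2 = ‖u - v‖ ^ a) : Continuous Φ := by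
  have h1 : ∀ u v, ‖Φ u - Φ v‖ = ‖u - v‖ ^ (a / 2) := by
    intro u v
    have h2 : (‖u - v‖ ^ (a / 2)) ^ 2 = ‖u - v‖ ^ a := by
      rw [← Real.rpow_natCast, ← Real.rpow_mul (norm_nonneg _)]
      congr 1; push_cast; ring
    exact (pow_left_inj₀ (norm_nonneg _) (Real.rpow_nonneg (norm_nonneg _) _)
      two_ne_zero).mp (by rw [hΦ, h2])
  rw [continuous_iff_continuousAt]
  intro v
  rw [ContinuousAt, tendsto_iff_norm_sub_tendsto_zero]
  simp_rw [h1]
  have h3 : Tendsto (fun e : E d => ‖e - v‖) (𝓝 v) (𝓝 0) := by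
    have : Continuous fun e : E d => ‖e - v‖ := by fun_prop
    simpa using this.tendsto v
  have h4 := h3.rpow_const (p := a / 2) (Or.inr (by positivity))
  rwa [Real.zero_rpow (by positivity)] at h4

theorem int7 {Ω : Type} [MeasurableSpace Ω] {P : Measure Ω} {f1 f2 f3 f4 f5 f6 f7 : Ω → ℝ}
    (h1 : Integrable f1 P) (h2 : Integrable f2 P) (h3 : Integrable f3 P) (h4 : Integrable f4 P)
    (h5 : Integrable f5 P) (h6 : Integrable f6 P) (h7 : Integrable f7 P) :
    Integrable (fun ω => f1 ω + f2 ω + f3 ω + f4 ω + f5 ω + f6 ω - f7 ω) P ∧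
    ∫ ω, (f1 ω + f2 ω + f3 ω + f4 ω + f5 ω + f6 ω - f7 ω) ∂P =
      ∫ ω, f1 ω ∂P + ∫ ω, f2 ω ∂P + ∫ ω, f3 ω ∂P + ∫ ω, f4 ω ∂P + ∫ ω, f5 ω ∂P + ∫ ω, f6 ω ∂P -
        ∫ ω, f7 ω ∂P := by
  have a2 : Integrable (fun ω => f1 ω + f2 ω) P := h1.add h2
  have a3 : Integrable (fun ω => f1 ω + f2 ω + f3 ω) P := a2.add h3
  have a4 : Integrable (fun ω => f1 ω + f2 ω + f3 ω + f4 ω) P := a3.add h4
  have a5 : Integrable (fun ω => f1 ω + f2 ω + f3 ω + f4 ω + f5 ω) P := a4.add h5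
  have a6 : Integrable (fun ω => f1 ω + f2 ω + f3 ω + f4 ω + f5 ω + f6 ω) P := a5.add h6
  refine ⟨a6.sub h7, ?_⟩
  rw [integral_sub a6 h7, integral_add a5 h6, integral_add a4 h5, integral_add a3 h4,
    integral_add a2 h3, integral_add h1 h2]

open Classical in
theorem cell_round (d : ℕ) (a : ℝ) (ha : 0 < a) (ha2 : a < 2)
    {H : Type} [NormedAddCommGroup H] [InnerProductSpace ℝ H] [CompleteSpace H]
    (Φ : E d → H) (hΦ : ∀ u v, ‖Φ u - Φ v‖ ^ 2 = ‖u - v‖ ^ a)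
    {Ω : Type} [MeasurableSpace Ω] (P : Measure Ω) [IsProbabilityMeasure P] (N : ℕ)
    (w : Fin N → Ω → ℝ) (Y : Fin N → Ω → S d) (hw : ∀ i, Measurable (w i))
    (hY : ∀ i, Measurable (Y i)) (hw0 : ∀ i ω, 0 ≤ w i ω) (hw1 : ∀ i ω, w i ω ≤ 1)
    (c : E d) (b : ℝ) (hb : ∀ i ω, w i ω ≠ 0 → ‖(Y i ω : E d) - c‖ ^ a ≤ b)
    (M : ℝ) (hM : M = ∫ ω, ∑ i, w i ω ∂P) (hM0 : 0 < M)
    (z : H) (hz : z = ∫ ω, ∑ i, w i ω • Φ (Y i ω) ∂P)
    (τ : ℝ) (hτ : 0 < τ) (hτ1 : τ ≤ 1) (κ : ℝ) (hκ : 0 ≤ κ) (e : H) :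
    ∃ (t : Multiset (S d)) (ρ : Measure (S d)), IsFiniteMeasure ρ ∧
      (Multiset.card t : ℝ) + ρ.real univ = M ∧
      ‖e + (t.map (fun x : S d => Φ x)).sum + (∫ x : S d, Φ x ∂ρ) - z‖ ^ 2 + κ * ρ.real univ ≤
        ‖e‖ ^ 2
        + (1 + τ) ^ 2 * ∫ ω, ‖(∑ i, w i ω • (Φ (Y i ω) - Φ c)) - (z - M • Φ c)‖ ^ 2 ∂P
        + 100 / τ ^ 2 * b * ∫ ω, ((∑ i, w i ω) - M) ^ 2 ∂P
        + (100 * b + κ) * ∫ ω, |(∑ i, w i ω) - M| ∂P
        + κ * (∫ ω, ((∑ i, w i ω) - ∑ i, if w i ω = 1 then (1:ℝ) else 0) ∂P + 1) := by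
  have hΦc : Continuous Φ := continuous_of_holder ha Φ hΦ
  have hΦS : Continuous fun x : S d => Φ x := hΦc.comp continuous_subtype_val
  -- bounds and measurability
  have hΦb : ∀ x : S d, ‖Φ x‖ ≤ ‖Φ 0‖ + 1 := by
    intro x
    have h1 : ‖Φ x - Φ 0‖ ^ 2 = 1 := by
      rw [hΦ, sub_zero, norm_eq_of_mem_sphere, Real.one_rpow]
    have h2 : ‖Φ x - Φ 0‖ = 1 := by
      have := norm_nonneg (Φ x - Φ 0)
      nlinarith
    have h3 : ‖Φ x‖ ≤ ‖Φ x - Φ 0‖ + ‖Φ 0‖ := by
      have := norm_add_le (Φ x - Φ 0) (Φ 0)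
      rwa [sub_add_cancel] at this
    linarith
  have hφm : ∀ i, StronglyMeasurable fun ω => Φ (Y i ω) := fun i =>
    hΦS.comp_stronglyMeasurable (hY i).stronglyMeasurable
  set W : Ω → ℝ := fun ω => ∑ i, w i ω with hWdef
  set Sv : Ω → H := fun ω => ∑ i, w i ω • Φ (Y i ω) with hSdef
  set K : Ω → ℝ := fun ω => ∑ i, if w i ω = 1 then (1:ℝ) else 0 with hKdef
  have hWm : Measurable W := Finset.measurable_sum _ fun i _ => hw i
  have hKm : Measurable K := Finset.measurable_sum _ fun i _ =>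
    Measurable.ite ((hw i) (measurableSet_singleton 1)) measurable_const measurable_const
  have hSm : StronglyMeasurable Sv := Finset.stronglyMeasurable_fun_sum _ fun i _ =>
    (hw i).stronglyMeasurable.smul (hφm i)
  have hW0 : ∀ ω, 0 ≤ W ω := fun ω => Finset.sum_nonneg fun i _ => hw0 i ω
  have hWN : ∀ ω, W ω ≤ N := fun ω => by
    calc W ω ≤ ∑ i : Fin N, (1 : ℝ) := Finset.sum_le_sum fun i _ => hw1 i ω
      _ = N := by simp
  have hK0 : ∀ ω, 0 ≤ K ω := fun ω => Finset.sum_nonneg fun i _ => by split_ifs <;> norm_num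
  have hKW : ∀ ω, K ω ≤ W ω := fun ω => Finset.sum_le_sum fun i _ => by
    split_ifs with h
    · exact h.ge
    · exact hw0 i ω
  have hSb : ∀ ω, ‖Sv ω‖ ≤ N * (‖Φ 0‖ + 1) := fun ω => by
    calc ‖Sv ω‖ ≤ ∑ i, ‖w i ω • Φ (Y i ω)‖ := norm_sum_le _ _
      _ ≤ ∑ i : Fin N, (‖Φ 0‖ + 1) := Finset.sum_le_sum fun i _ => by
          rw [norm_smul, Real.norm_of_nonneg (hw0 i ω)]
          calc w i ω * ‖Φ (Y i ω)‖ ≤ 1 * (‖Φ 0‖ + 1) :=
                mul_le_mul (hw1 i ω) (hΦb _) (norm_nonneg _) zero_le_one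
            _ = _ := one_mul _
      _ = _ := by rw [Finset.sum_const, Finset.card_univ, Fintype.card_fin, nsmul_eq_mul]
  have hWint : Integrable W P := Integrable.of_bound hWm.aestronglyMeasurable N
    (ae_of_all _ fun ω => by rw [Real.norm_of_nonneg (hW0 ω)]; exact hWN ω)
  have hKint : Integrable K P := Integrable.of_bound hKm.aestronglyMeasurable N
    (ae_of_all _ fun ω => by rw [Real.norm_of_nonneg (hK0 ω)]; exact (hKW ω).trans (hWN ω))
  have hSint : Integrable Sv P := Integrable.of_bound hSm.aestronglyMeasurable _ (ae_of_all _ hSb)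
  have hMW : ∫ ω, W ω ∂P = M := hM.symm
  have hzS : ∫ ω, Sv ω ∂P = z := hz.symm
  -- b is nonnegative
  have hb0 : 0 ≤ b := by
    by_contra hcon
    have h1 : ∀ i ω, w i ω = 0 := by
      intro i ω
      by_contra h
      exact hcon ((Real.rpow_nonneg (norm_nonneg _) _).trans (hb i ω h))
    have h2 : W = fun _ => 0 := by
      funext ω
      simp [hWdef, h1]
    rw [← hMW, h2] at hM0
    simp at hM0
  have hbΦ : ∀ i ω, w i ω ≠ 0 → ‖Φ (Y i ω) - Φ c‖ ^ 2 ≤ b := fun i ω h => by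
    rw [hΦ]; exact hb i ω h
  set Z : Ω → H := fun ω => ∑ i, w i ω • (Φ (Y i ω) - Φ c) with hZdef
  have hZS : ∀ ω, Z ω = Sv ω - W ω • Φ c := by
    intro ω
    simp only [hZdef, hSdef, hWdef, smul_sub]
    rw [Finset.sum_sub_distrib, Finset.sum_smul]
  set z₀ : H := z - M • Φ c with hz₀
  have hZb : ∀ ω, ‖Z ω‖ ≤ W ω * √b := by
    intro ω
    calc ‖Z ω‖ ≤ ∑ i, ‖w i ω • (Φ (Y i ω) - Φ c)‖ := norm_sum_le _ _
      _ ≤ ∑ i, w i ω * √b := Finset.sum_le_sum fun i _ => by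
          rw [norm_smul, Real.norm_of_nonneg (hw0 i ω)]
          by_cases h : w i ω = 0
          · simp [h]
          · exact mul_le_mul_of_nonneg_left (Real.le_sqrt_of_sq_le (hbΦ i ω h)) (hw0 i ω)
      _ = W ω * √b := by rw [← Finset.sum_mul]
  have hZeq : Z = fun ω => Sv ω - W ω • Φ c := funext hZS
  have hZint : Integrable Z P := by
    rw [hZeq]
    exact hSint.sub (hWint.smul_const _)
  have hZm : AEStronglyMeasurable Z P := hZint.aestronglyMeasurable
  have hZz : ∫ ω, Z ω ∂P = z₀ := by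
    rw [hZeq, integral_sub hSint (hWint.smul_const _), integral_smul_const, hMW, hzS]
  have hz₀b : ‖z₀‖ ≤ M * √b := by
    rw [← hZz]
    calc ‖∫ ω, Z ω ∂P‖ ≤ ∫ ω, ‖Z ω‖ ∂P := norm_integral_le_integral_norm _
      _ ≤ ∫ ω, W ω * √b ∂P := integral_mono hZint.norm (hWint.mul_const _) hZb
      _ = M * √b := by rw [integral_mul_const, hMW]
  -- the auxiliary function
  set R : ℝ := ‖e‖ ^ 2
        + (1 + τ) ^ 2 * ∫ ω, ‖Z ω - z₀‖ ^ 2 ∂P
        + 100 / τ ^ 2 * b * ∫ ω, (W ω - M) ^ 2 ∂P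
        + (100 * b + κ) * ∫ ω, |W ω - M| ∂P
        + κ * (∫ ω, (W ω - K ω) ∂P + 1) with hR
  by_contra hcon
  push Not at hcon
  let g : Ω → ℝ := fun ω =>
    W ω / M * ‖e‖ ^ 2 + 2 * inner ℝ e (Sv ω - (W ω / M) • z) + (1 + τ) ^ 2 * ‖Z ω - z₀‖ ^ 2 +
      100 / τ ^ 2 * b * (W ω - M) ^ 2 + 4 * b * |W ω - M| +
      κ * (|W ω - M| + (W ω - K ω) + W ω / M) - W ω / M * R
  have hpos : ∀ ω, 0 < W ω → 0 < g ω := by
    intro ω hω
    obtain ⟨t, ρ, hρ0, hρM, hle⟩ := fixed_round (fun i => w i ω) (fun i => hw0 i ω)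
      (fun i => Φ (Y i ω)) (Φ c) b (fun i h => hbΦ i ω h) M hM0 hω κ hκ (e - z)
    set μ : Measure (S d) := ∑ i, ENNReal.ofReal (ρ i) • Measure.dirac (Y i ω) with hμ
    have hμfin : IsFiniteMeasure μ := by
      refine ⟨?_⟩
      rw [hμ]
      simp [ENNReal.ofReal_lt_top]
    have hμu : μ.real univ = ∑ i, ρ i := by
      rw [Measure.real, hμ]
      simp only [Measure.coe_finsetSum, Finset.sum_apply, Measure.smul_apply, measure_univ,
        smul_eq_mul, mul_one]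
      rw [ENNReal.toReal_sum (fun i _ => ENNReal.ofReal_ne_top)]
      exact Finset.sum_congr rfl fun i _ => ENNReal.toReal_ofReal (hρ0 i)
    have hμi : ∫ x : S d, Φ x ∂μ = ∑ i, ρ i • Φ (Y i ω) := by
      rw [hμ, integral_finsetSum_measure]
      · refine Finset.sum_congr rfl fun i _ => ?_
        rw [integral_smul_measure, integral_dirac, ENNReal.toReal_ofReal (hρ0 i)]
      · intro i _
        refine Integrable.smul_measure ?_ ENNReal.ofReal_ne_top
        exact Integrable.of_bound hΦS.aestronglyMeasurable _ (ae_of_all _ hΦb)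
    have h1 := hcon (t.map fun i => Y i ω) μ hμfin (by rw [Multiset.card_map, hμu, hρM])
    rw [hμu, hμi, Multiset.map_map] at h1
    have h2 : e + (Multiset.map ((fun x : S d => Φ x) ∘ fun i => Y i ω) t).sum +
        ∑ i, ρ i • Φ (Y i ω) - z =
        (e - z) + (t.map fun i => Φ (Y i ω)).sum + ∑ i, ρ i • Φ (Y i ω) := by
      have : (Multiset.map ((fun x : S d => Φ x) ∘ fun i => Y i ω) t).sum =
        (t.map fun i => Φ (Y i ω)).sum := rfl
      rw [this]; abel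
    rw [h2] at h1
    have hWM : 0 < W ω / M := div_pos hω hM0
    have h3 := (mul_lt_mul_of_pos_left h1 hWM).trans_le hle
    have h4 : W ω / M * ‖e - z + (M / W ω) • Sv ω‖ ^ 2 =
        W ω / M * ‖e‖ ^ 2 + 2 * inner ℝ e (Sv ω - (W ω / M) • z) +
          M / W ω * ‖Z ω - (W ω / M) • z₀‖ ^ 2 := by
      have h5 : Z ω - (W ω / M) • z₀ = Sv ω - (W ω / M) • z := by
        rw [hZS, hz₀, smul_sub, smul_smul, div_mul_cancel₀ _ hM0.ne']; abel
      have h6 : e - z + (M / W ω) • Sv ω = e + (M / W ω) • (Sv ω - (W ω / M) • z) := by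
        rw [smul_sub, smul_smul, div_mul_div_comm, mul_comm M (W ω), div_self, one_smul]
        · abel
        · positivity
      rw [h5, h6, norm_add_sq_real, inner_smul_right, norm_smul, Real.norm_of_nonneg
        (by positivity)]
      field_simp
    have h7 := pointwise (Z ω) z₀ (W ω) M b τ hω hM0 hb0 hτ hτ1 (hZb ω) hz₀b
    simp only [g]
    change W ω / M * R < W ω / M * ‖e - z + (M / W ω) • Sv ω‖ ^ 2 + 4 * b * |W ω - M| +
      κ * (|W ω - M| + (W ω - K ω) + W ω / M) at h3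
    rw [h4] at h3
    linarith
  have hnn : ∀ ω, 0 ≤ g ω := by
    intro ω
    rcases (hW0 ω).lt_or_eq with h | h
    · exact (hpos ω h).le
    · have h1 : ∀ i, w i ω = 0 := by
        intro i
        have := (Finset.sum_eq_zero_iff_of_nonneg (fun i _ => hw0 i ω)).mp h.symm i
          (Finset.mem_univ i)
        exact this
      have h2 : Sv ω = 0 := by simp [hSdef, h1]
      have h3 : K ω = 0 := by simp [hKdef, h1]
      simp only [g]
      rw [← h, h2, h3]
      simp only [zero_div, zero_mul, zero_smul, sub_zero, inner_zero_right, mul_zero, zero_add,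
        zero_sub, abs_neg, add_zero]
      positivity
  -- integrability of the pieces
  have hsub : Integrable (fun ω => |W ω - M|) P := (hWint.sub (integrable_const M)).abs
  have hsq : Integrable (fun ω => (W ω - M) ^ 2) P := by
    refine Integrable.of_bound ((hWm.sub_const M).pow_const 2).aestronglyMeasurable
      ((N + M) ^ 2) (ae_of_all _ fun ω => ?_)
    rw [Real.norm_of_nonneg (sq_nonneg _)]
    have := hW0 ω; have := hWN ω
    nlinarith
  have hZsq : Integrable (fun ω => ‖Z ω - z₀‖ ^ 2) P := by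
    refine Integrable.of_bound ((hZm.sub aestronglyMeasurable_const).norm.pow 2)
      ((N * √b + ‖z₀‖) ^ 2) (ae_of_all _ fun ω => ?_)
    rw [Real.norm_of_nonneg (sq_nonneg _)]
    have h1 : ‖Z ω - z₀‖ ≤ N * √b + ‖z₀‖ :=
      (norm_sub_le _ _).trans (add_le_add_left ((hZb ω).trans
        (mul_le_mul_of_nonneg_right (hWN ω) (Real.sqrt_nonneg _))) _)
    exact pow_le_pow_left₀ (norm_nonneg _) h1 2
  have hWMint : Integrable (fun ω => W ω / M) P := hWint.div_const M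
  have hin : Integrable (fun ω => Sv ω - (W ω / M) • z) P := hSint.sub (hWMint.smul_const z)
  have hinn : Integrable (fun ω => (inner ℝ e (Sv ω - (W ω / M) • z) : ℝ)) P :=
    hin.const_inner e
  have hI1 : ∫ ω, W ω / M ∂P = 1 := by
    rw [integral_div, hMW, div_self hM0.ne']
  have hI2 : ∫ ω, (inner ℝ e (Sv ω - (W ω / M) • z) : ℝ) ∂P = 0 := by
    rw [integral_inner hin, integral_sub hSint (hWMint.smul_const z), integral_smul_const, hI1,
      hzS, one_smul, sub_self, inner_zero_right]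
  have hg1 : Integrable (fun ω => W ω / M * ‖e‖ ^ 2) P := hWMint.mul_const _
  have hg2 : Integrable (fun ω => 2 * (inner ℝ e (Sv ω - (W ω / M) • z) : ℝ)) P :=
    hinn.const_mul 2
  have hg3 : Integrable (fun ω => (1 + τ) ^ 2 * ‖Z ω - z₀‖ ^ 2) P := hZsq.const_mul _
  have hg4 : Integrable (fun ω => 100 / τ ^ 2 * b * (W ω - M) ^ 2) P := hsq.const_mul _
  have hg5 : Integrable (fun ω => 4 * b * |W ω - M|) P := hsub.const_mul _
  have hg6 : Integrable (fun ω => κ * (|W ω - M| + (W ω - K ω) + W ω / M)) P :=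
    ((hsub.add (hWint.sub hKint)).add hWMint).const_mul _
  have hg7 : Integrable (fun ω => W ω / M * R) P := hWMint.mul_const _
  have h7i := int7 hg1 hg2 hg3 hg4 hg5 hg6 hg7
  have hgint : Integrable g P := h7i.1
  have hgI : ∫ ω, g ω ∂P ≤ 0 := by
    have h1 := h7i.2
    change ∫ ω, g ω ∂P = _ at h1
    have h2 : ∫ ω, κ * (|W ω - M| + (W ω - K ω) + W ω / M) ∂P =
        κ * (∫ ω, |W ω - M| ∂P + ∫ ω, (W ω - K ω) ∂P + 1) := by
      have b1 : Integrable (fun ω => W ω - K ω) P := hWint.sub hKint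
      have b2 : Integrable (fun ω => |W ω - M| + (W ω - K ω)) P := hsub.add b1
      rw [integral_const_mul, integral_add b2 hWMint, integral_add hsub b1, hI1]
    rw [h1, h2, integral_mul_const, integral_const_mul, integral_const_mul, integral_const_mul,
      integral_const_mul, integral_mul_const, hI1, hI2, hR]
    have h3 : 0 ≤ ∫ ω, |W ω - M| ∂P := integral_nonneg fun ω => abs_nonneg _
    have h4 : 0 ≤ b * ∫ ω, |W ω - M| ∂P := mul_nonneg hb0 h3
    nlinarith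
  have h0 : g =ᵐ[P] 0 := (integral_eq_zero_iff_of_nonneg hnn hgint).mp
    (le_antisymm hgI (integral_nonneg hnn))
  have hWae : W =ᵐ[P] 0 := by
    filter_upwards [h0] with ω hω
    by_contra hne
    have h1 : 0 < W ω := lt_of_le_of_ne (hW0 ω) (Ne.symm hne)
    exact (hpos ω h1).ne' hω
  have : ∫ ω, W ω ∂P = 0 := by
    rw [integral_congr_ae hWae]; simp
  rw [hMW] at this
  exact hM0.ne' this

end Pool.Agent.TH897.J237
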