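import Pool.Agent.TH378.CW.Base

set_option autoImplicit false

/-!
# Arc measure
-/

namespace Pool.Agent.TH897.J1042

open MeasureTheory Metric Pool.Agent.TH378.CW
open scoped Real RealInnerProductSpace

theorem arcsin_le {x : ℝ} (h0 : 0 ≤ x) (h1 : x ≤ 1) :
    Real.arcsin x ≤ max (π / 3 * x) (2 * π / 3 * x - π / 6) := by
  have hpi := Real.pi_pos
  obtain ⟨y, hy⟩ : ∃ y, y = Real.arcsin x := ⟨_, rfl⟩
  have hsin : Real.sin y = x := by rw [hy]; exact Real.sin_arcsin (by linarith) h1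
  have hy0 : 0 ≤ y := by rw [hy]; exact Real.arcsin_nonneg.2 h0
  have hy1 : y ≤ π / 2 := by rw [hy]; exact Real.arcsin_le_pi_div_two x
  rw [← hy]
  have hconc : ConcaveOn ℝ (Set.Icc 0 π) Real.sin := strictConcaveOn_sin_Icc.concaveOn
  rcases le_total y (π / 6) with h | h
  · apply le_max_of_le_left
    have hb0 : 0 ≤ 6 * y / π := by positivity
    have hb1 : 6 * y / π ≤ 1 := by
      rw [div_le_one hpi]; linarith
    have := hconc.2 (show (0:ℝ) ∈ Set.Icc 0 π from ⟨le_refl _, hpi.le⟩)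
      (show π / 6 ∈ Set.Icc 0 π from ⟨by positivity, by linarith⟩)
      (show 0 ≤ 1 - 6 * y / π by linarith) hb0 (by ring)
    simp only [smul_eq_mul, Real.sin_zero, mul_zero, zero_add, Real.sin_pi_div_six] at this
    have e : 6 * y / π * (π / 6) = y := by field_simp
    rw [e, hsin] at this
    have e2 : 6 * y / π * (1 / 2) = 3 * y / π := by ring
    rw [e2, div_le_iff₀ hpi] at this
    linarith
  · apply le_max_of_le_right
    have hb0 : 0 ≤ (y - π / 6) * (3 / π) := mul_nonneg (by linarith) (by positivity)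
    have hb1 : (y - π / 6) * (3 / π) ≤ 1 := by
      have : (y - π / 6) * (3 / π) = (3 * y - π / 2) / π := by field_simp; ring
      rw [this, div_le_one hpi]; linarith
    have := hconc.2 (show π / 6 ∈ Set.Icc 0 π from ⟨by positivity, by linarith⟩)
      (show π / 2 ∈ Set.Icc 0 π from ⟨by positivity, by linarith⟩)
      (show 0 ≤ 1 - (y - π / 6) * (3 / π) by linarith) hb0 (by ring)
    simp only [smul_eq_mul, Real.sin_pi_div_two, Real.sin_pi_div_six, mul_one] at this
    have e : (1 - (y - π / 6) * (3 / π)) * (π / 6) + (y - π / 6) * (3 / π) * (π / 2) = y := by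
      field_simp; ring
    rw [e, hsin] at this
    have e2 : (1 - (y - π / 6) * (3 / π)) * (1 / 2) + (y - π / 6) * (3 / π) =
        (3 * y + π / 2) / (2 * π) := by
      field_simp; ring
    rw [e2, div_le_iff₀ (by positivity)] at this
    linarith

/-- The angles whose double has a small cosine. -/
def SS (x : ℝ) : Set ℝ := {θ | |Real.cos (2 * θ)| ≤ x}

theorem meas_SS (x : ℝ) : MeasurableSet (SS x) := by
  apply IsClosed.measurableSet
  exact isClosed_le (by fun_prop) continuous_const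

theorem per (x : ℝ) : Function.Periodic ((SS x).indicator (fun _ => (1 : ℝ))) (π / 2) := by
  intro θ
  have : θ + π / 2 ∈ SS x ↔ θ ∈ SS x := by
    show |Real.cos (2 * (θ + π / 2))| ≤ x ↔ |Real.cos (2 * θ)| ≤ x
    have : 2 * (θ + π / 2) = 2 * θ + π := by ring
    rw [this, Real.cos_add_pi, abs_neg]
  by_cases h : θ ∈ SS x
  · rw [Set.indicator_of_mem (this.2 h), Set.indicator_of_mem h]
  · rw [Set.indicator_of_notMem (fun h' => h (this.1 h')), Set.indicator_of_notMem h]

theorem sub_Icc (x : ℝ) :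
    SS x ∩ Set.Ioc 0 (π / 2) ⊆ Set.Icc (Real.arccos x / 2) ((π - Real.arccos x) / 2) := by
  rintro θ ⟨h, h2, h3⟩
  have h : |Real.cos (2 * θ)| ≤ x := h
  rw [abs_le] at h
  constructor
  · have e1 : Real.arccos x ≤ Real.arccos (Real.cos (2 * θ)) := Real.antitone_arccos h.2
    rw [Real.arccos_cos (by linarith) (by linarith)] at e1
    linarith
  · have e1 : Real.arccos x ≤ Real.arccos (Real.cos (π - 2 * θ)) := by
      apply Real.antitone_arccos
      rw [Real.cos_pi_sub]; linarith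
    rw [Real.arccos_cos (by linarith) (by linarith)] at e1
    linarith

theorem main {x : ℝ} (h0 : 0 ≤ x) (h1 : x ≤ 1) (α : ℝ) :
    volume (((fun φ => φ - α) ⁻¹' SS x) ∩ Set.Ioc 0 (π / 2)) ≤
      ENNReal.ofReal (Real.arcsin x) := by
  have hpi := Real.pi_pos
  have hms : MeasurableSet ((fun φ : ℝ => φ - α) ⁻¹' SS x) :=
    (meas_SS x).preimage (measurable_id.sub_const α)
  have hfin : volume (((fun φ => φ - α) ⁻¹' SS x) ∩ Set.Ioc 0 (π / 2)) ≠ ⊤ :=
    ne_top_of_le_ne_top (by rw [Real.volume_Ioc]; exact ENNReal.ofReal_ne_top)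
      (measure_mono Set.inter_subset_right)
  have e1 : ∫ φ in (0:ℝ)..(π / 2), (SS x).indicator (fun _ => (1 : ℝ)) (φ - α) =
      (volume (((fun φ => φ - α) ⁻¹' SS x) ∩ Set.Ioc 0 (π / 2))).toReal := by
    rw [intervalIntegral.integral_of_le (by positivity)]
    have : (fun φ => (SS x).indicator (fun _ => (1 : ℝ)) (φ - α)) =
        ((fun φ : ℝ => φ - α) ⁻¹' SS x).indicator (fun _ => (1 : ℝ)) := by
      funext φ; rfl
    rw [this, integral_indicator hms, Measure.restrict_restrict hms]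
    simp [Measure.real]
  have e2 : ∫ φ in (0:ℝ)..(π / 2), (SS x).indicator (fun _ => (1 : ℝ)) φ =
      (volume ((SS x) ∩ Set.Ioc 0 (π / 2))).toReal := by
    rw [intervalIntegral.integral_of_le (by positivity)]
    rw [integral_indicator (meas_SS x), Measure.restrict_restrict (meas_SS x)]
    simp [Measure.real]
  have e3 : ∫ φ in (0:ℝ)..(π / 2), (SS x).indicator (fun _ => (1 : ℝ)) (φ - α) =
      ∫ φ in (0:ℝ)..(π / 2), (SS x).indicator (fun _ => (1 : ℝ)) φ := by
    rw [intervalIntegral.integral_comp_sub_right (fun φ => (SS x).indicator (fun _ => (1 : ℝ)) φ) α]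
    have := (per x).intervalIntegral_add_eq (0 - α) 0
    have e : 0 - α + π / 2 = π / 2 - α := by ring
    rw [e, zero_add] at this
    exact this
  have e4 : volume ((SS x) ∩ Set.Ioc 0 (π / 2)) ≤ ENNReal.ofReal (Real.arcsin x) := by
    refine (measure_mono (sub_Icc x)).trans ?_
    rw [Real.volume_Icc]
    apply ENNReal.ofReal_le_ofReal
    rw [Real.arccos_eq_pi_div_two_sub_arcsin]
    linarith
  rw [← ENNReal.ofReal_toReal hfin, ← e1, e3, e2]
  rw [ENNReal.ofReal_toReal]
  · exact e4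
  · exact ne_top_of_le_ne_top ENNReal.ofReal_ne_top e4

theorem arc (p q m : ℝ) (h : 0 < p ^ 2 + q ^ 2) :
    volume {φ ∈ Set.Icc (0 : ℝ) (π / 2) | (p * Real.cos φ + q * Real.sin φ) ^ 2 ≤ m ∧
        (q * Real.cos φ - p * Real.sin φ) ^ 2 ≤ m} ≤
      ENNReal.ofReal (Tc (2 * m / (p ^ 2 + q ^ 2) - 1)) := by
  have hpi := Real.pi_pos
  obtain ⟨x, hx⟩ : ∃ x, x = 2 * m / (p ^ 2 + q ^ 2) - 1 := ⟨_, rfl⟩
  rw [← hx]
  obtain ⟨R, α, hp, hq⟩ : ∃ R α : ℝ, p = R * Real.cos α ∧ q = R * Real.sin α := by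
    refine ⟨‖(⟨p, q⟩ : ℂ)‖, Complex.arg ⟨p, q⟩, ?_, ?_⟩
    · rw [Complex.norm_mul_cos_arg]
    · rw [Complex.norm_mul_sin_arg]
  have hR : p ^ 2 + q ^ 2 = R ^ 2 := by
    rw [hp, hq]
    linear_combination R ^ 2 * Real.cos_sq_add_sin_sq α
  have hR2 : 0 < R ^ 2 := by rw [← hR]; exact h
  have hmx : m = R ^ 2 * (1 + x) / 2 := by
    rw [hx, hR]
    have : R ^ 2 * (1 + (2 * m / R ^ 2 - 1)) / 2 = m * (R ^ 2 / R ^ 2) := by ring
    rw [this, div_self hR2.ne', mul_one]
  have hsub : {φ ∈ Set.Icc (0 : ℝ) (π / 2) | (p * Real.cos φ + q * Real.sin φ) ^ 2 ≤ m ∧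
        (q * Real.cos φ - p * Real.sin φ) ^ 2 ≤ m} ⊆
      {φ ∈ Set.Icc (0 : ℝ) (π / 2) | φ - α ∈ SS x} := by
    rintro φ ⟨h1, h2, h3⟩
    refine ⟨h1, ?_⟩
    show |Real.cos (2 * (φ - α))| ≤ x
    have e1 : p * Real.cos φ + q * Real.sin φ = R * Real.cos (φ - α) := by
      rw [hp, hq, Real.cos_sub]; ring
    have e2 : q * Real.cos φ - p * Real.sin φ = -(R * Real.sin (φ - α)) := by
      rw [hp, hq, Real.sin_sub]; ring
    rw [e1] at h2
    rw [e2] at h3
    have c2 : Real.cos (2 * (φ - α)) = 2 * Real.cos (φ - α) ^ 2 - 1 := Real.cos_two_mul _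
    have s2 : Real.sin (φ - α) ^ 2 = 1 - Real.cos (φ - α) ^ 2 := by
      have := Real.cos_sq_add_sin_sq (φ - α); linarith
    rw [hmx] at h2 h3
    have h2' : R ^ 2 * (2 * Real.cos (φ - α) ^ 2) ≤ R ^ 2 * (1 + x) := by nlinarith
    have h3' : R ^ 2 * (2 * Real.sin (φ - α) ^ 2) ≤ R ^ 2 * (1 + x) := by nlinarith
    have h2'' := le_of_mul_le_mul_left h2' hR2
    have h3'' := le_of_mul_le_mul_left h3' hR2
    rw [abs_le]
    constructor
    · rw [c2]; rw [s2] at h3''; linarith
    · rw [c2]; linarith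
  refine (measure_mono hsub).trans ?_
  rcases lt_or_ge x 0 with hx0 | hx0
  · have : {φ ∈ Set.Icc (0 : ℝ) (π / 2) | φ - α ∈ SS x} = ∅ := by
      ext φ
      simp only [Set.mem_ofPred_eq, Set.mem_empty_iff_false, iff_false, not_and]
      intro _ h2
      have h2 : |Real.cos (2 * (φ - α))| ≤ x := h2
      exact absurd (h2.trans_lt hx0) (not_lt.2 (abs_nonneg _))
    rw [this]; simp
  · rcases le_total x 1 with hx1 | hx1
    · have hsub2 : {φ ∈ Set.Icc (0 : ℝ) (π / 2) | φ - α ∈ SS x} ⊆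
          {0} ∪ (((fun φ => φ - α) ⁻¹' SS x) ∩ Set.Ioc 0 (π / 2)) := by
        rintro φ ⟨⟨h1, h2⟩, h3⟩
        rcases h1.eq_or_lt with h4 | h4
        · left; simp [h4]
        · right; exact ⟨h3, h4, h2⟩
      refine (measure_mono hsub2).trans ((measure_union_le _ _).trans ?_)
      rw [Real.volume_singleton, zero_add]
      refine (main hx0 hx1 α).trans (ENNReal.ofReal_le_ofReal ?_)
      unfold Tc
      apply le_max_of_le_right
      exact le_min (Real.arcsin_le_pi_div_two x) (arcsin_le hx0 hx1)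
    · refine (measure_mono (fun φ hφ => hφ.1) : _ ≤ volume (Set.Icc (0:ℝ) (π / 2))).trans ?_
      rw [Real.volume_Icc]
      apply ENNReal.ofReal_le_ofReal
      unfold Tc
      apply le_max_of_le_right
      refine le_min (by linarith) (le_max_of_le_right ?_)
      nlinarith

end Pool.Agent.TH897.J1042
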