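import Pool.Agent.TH843.PY.Stm

set_option autoImplicit false
open Polynomial NumberField

namespace Pool.Agent.TH897.J210

open Pool.Agent.TH843.PY

/-- Superadditivity of the geometric mean. -/
theorem superadd {ι : Type*} [Fintype ι] [Nonempty ι] (a b : ι → ℝ) (ha : ∀ i, 0 ≤ a i)
    (hb : ∀ i, 0 ≤ b i) :
    (∏ i, a i) ^ ((Fintype.card ι : ℝ)⁻¹) + (∏ i, b i) ^ ((Fintype.card ι : ℝ)⁻¹) ≤
      (∏ i, (a i + b i)) ^ ((Fintype.card ι : ℝ)⁻¹) := by
  classical
  have hd : (0 : ℝ) < Fintype.card ι := by exact_mod_cast Fintype.card_pos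
  by_cases h0 : ∃ i, a i + b i = 0
  · obtain ⟨i, hi⟩ := h0
    have h1 : a i = 0 := by linarith [ha i, hb i]
    have h2 : b i = 0 := by linarith [ha i, hb i]
    rw [Finset.prod_eq_zero (Finset.mem_univ i) h1, Finset.prod_eq_zero (Finset.mem_univ i) h2,
      Finset.prod_eq_zero (Finset.mem_univ i) hi, Real.zero_rpow (by positivity)]
    simp
  · push Not at h0
    have hpos : ∀ i, 0 < a i + b i := fun i =>
      lt_of_le_of_ne (add_nonneg (ha i) (hb i)) (Ne.symm (h0 i))
    have hP : 0 < ∏ i, (a i + b i) := Finset.prod_pos fun i _ => hpos i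
    have hPr : 0 < (∏ i, (a i + b i)) ^ ((Fintype.card ι : ℝ)⁻¹) := Real.rpow_pos_of_pos hP _
    have key : ∀ c : ι → ℝ, (∀ i, 0 ≤ c i) →
        (∏ i, c i) ^ ((Fintype.card ι : ℝ)⁻¹) ≤
          (∏ i, (a i + b i)) ^ ((Fintype.card ι : ℝ)⁻¹) *
            ∑ i, (Fintype.card ι : ℝ)⁻¹ * (c i / (a i + b i)) := by
      intro c hc
      have h1 := Real.geom_mean_le_arith_mean_weighted (Finset.univ : Finset ι)
        (fun _ => (Fintype.card ι : ℝ)⁻¹) (fun i => c i / (a i + b i))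
        (fun i _ => by positivity) (by
          rw [Finset.sum_const, Finset.card_univ, nsmul_eq_mul]
          exact mul_inv_cancel₀ hd.ne')
        (fun i _ => div_nonneg (hc i) (hpos i).le)
      rw [Real.finsetProd_rpow _ _ (fun i _ => div_nonneg (hc i) (hpos i).le),
        Finset.prod_div_distrib, Real.div_rpow (Finset.prod_nonneg fun i _ => hc i) hP.le,
        div_le_iff₀ hPr] at h1
      rwa [mul_comm]
    have h1 := key a ha
    have h2 := key b hb
    have h3 : ∑ i, (Fintype.card ι : ℝ)⁻¹ * (a i / (a i + b i)) +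
        ∑ i, (Fintype.card ι : ℝ)⁻¹ * (b i / (a i + b i)) = 1 := by
      rw [← Finset.sum_add_distrib]
      have : ∀ i ∈ (Finset.univ : Finset ι), (Fintype.card ι : ℝ)⁻¹ * (a i / (a i + b i)) +
        (Fintype.card ι : ℝ)⁻¹ * (b i / (a i + b i)) = (Fintype.card ι : ℝ)⁻¹ := by
        intro i _
        rw [← mul_add, ← add_div, div_self (hpos i).ne', mul_one]
      rw [Finset.sum_congr rfl this, Finset.sum_const, Finset.card_univ, nsmul_eq_mul]
      exact mul_inv_cancel₀ hd.ne'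
    calc _ ≤ _ := add_le_add h1 h2
      _ = (∏ i, (a i + b i)) ^ ((Fintype.card ι : ℝ)⁻¹) * 1 := by rw [← mul_add, h3]
      _ = _ := mul_one _

/-- The normalized norm. -/
noncomputable def G (F : Type) [Field F] [Algebra ℚ F] (z : F) : ℝ :=
  ((|Algebra.norm ℚ z| : ℚ) : ℝ) ^ ((Module.finrank ℚ F : ℝ)⁻¹)

section

variable {F : Type} [Field F] [Algebra ℚ F] [FiniteDimensional ℚ F]

theorem abs_norm_eq (z : F) :
    ((|Algebra.norm ℚ z| : ℚ) : ℝ) = ∏ σ : F →ₐ[ℚ] ℂ, ‖σ z‖ := by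
  rw [← norm_prod, ← Algebra.norm_eq_prod_embeddings ℚ ℂ z]
  simp

theorem card_emb : Fintype.card (F →ₐ[ℚ] ℂ) = Module.finrank ℚ F := AlgHom.card ℚ F ℂ

theorem finrank_pos' : 0 < (Module.finrank ℚ F : ℝ) := by
  exact_mod_cast Module.finrank_pos

theorem G_eq (z : F) :
    G F z = (∏ σ : F →ₐ[ℚ] ℂ, ‖σ z‖) ^ ((Fintype.card (F →ₐ[ℚ] ℂ) : ℝ)⁻¹) := by
  rw [G, abs_norm_eq, card_emb]

/-- totally nonnegative -/
def TN (z : F) : Prop := ∀ σ : F →ₐ[ℚ] ℂ, ∃ r : ℝ, 0 ≤ r ∧ σ z = (r : ℂ)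

theorem TN.add {a b : F} (ha : TN a) (hb : TN b) : TN (a + b) := by
  intro σ
  obtain ⟨r, hr, h⟩ := ha σ
  obtain ⟨s, hs, h'⟩ := hb σ
  exact ⟨r + s, add_nonneg hr hs, by rw [map_add, h, h']; push_cast; rfl⟩

theorem TN.zero : TN (0 : F) := fun σ => ⟨0, le_rfl, by simp⟩

theorem TN.sum {ι : Type*} (s : Finset ι) (a : ι → F) (ha : ∀ i ∈ s, TN (a i)) :
    TN (∑ i ∈ s, a i) := by
  classical
  induction s using Finset.induction_on with
  | empty => simpa using TN.zero
  | insert i s hi ih =>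
    rw [Finset.sum_insert hi]
    exact (ha i (Finset.mem_insert_self _ _)).add
      (ih fun j hj => ha j (Finset.mem_insert_of_mem hj))

theorem G_add {a b : F} (ha : TN a) (hb : TN b) : G F a + G F b ≤ G F (a + b) := by
  haveI : Nonempty (F →ₐ[ℚ] ℂ) := by
    rw [← Fintype.card_pos_iff, card_emb]; exact Module.finrank_pos
  rw [G_eq, G_eq, G_eq]
  refine (superadd _ _ (fun _ => norm_nonneg _) (fun _ => norm_nonneg _)).trans_eq ?_
  congr 1
  refine Finset.prod_congr rfl fun σ _ => ?_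
  obtain ⟨r, hr, h⟩ := ha σ
  obtain ⟨s, hs, h'⟩ := hb σ
  rw [map_add, h, h', ← Complex.ofReal_add, Complex.norm_real, Complex.norm_real,
    Complex.norm_real, Real.norm_of_nonneg hr, Real.norm_of_nonneg hs,
    Real.norm_of_nonneg (add_nonneg hr hs)]

theorem G_nonneg (a : F) : 0 ≤ G F a :=
  Real.rpow_nonneg (by exact_mod_cast abs_nonneg _) _

theorem G_sum {ι : Type*} (s : Finset ι) (a : ι → F) (ha : ∀ i ∈ s, TN (a i)) :
    ∑ i ∈ s, G F (a i) ≤ G F (∑ i ∈ s, a i) := by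
  classical
  induction s using Finset.induction_on with
  | empty => simpa using G_nonneg (0 : F)
  | insert i s hi ih =>
    rw [Finset.sum_insert hi, Finset.sum_insert hi]
    have h1 := ih fun j hj => ha j (Finset.mem_insert_of_mem hj)
    have h2 := G_add (ha i (Finset.mem_insert_self _ _))
      (TN.sum s a fun j hj => ha j (Finset.mem_insert_of_mem hj))
    linarith

/-- The normalized norm of a nonzero integer is at least one. -/
theorem one_le_G {a : F} (ha : IsIntegral ℤ a) (h0 : a ≠ 0) : 1 ≤ G F a := by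
  have h1 : IsIntegral ℤ (Algebra.norm ℚ a) := Algebra.isIntegral_norm ℚ ha
  obtain ⟨k, hk⟩ := IsIntegrallyClosed.isIntegral_iff.mp h1
  have h2 : Algebra.norm ℚ a ≠ 0 := by
    rwa [Algebra.norm_ne_zero_iff]
  have h3 : (1 : ℚ) ≤ |Algebra.norm ℚ a| := by
    rw [← hk] at h2 ⊢
    simp only [eq_intCast, ne_eq, Int.cast_eq_zero] at h2 ⊢
    exact_mod_cast Int.one_le_abs h2
  exact Real.one_le_rpow (by exact_mod_cast h3) (by positivity)

theorem G_pow (a : F) : G F a ^ (Module.finrank ℚ F) = ((|Algebra.norm ℚ a| : ℚ) : ℝ) := by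
  rw [G, ← Real.rpow_natCast, ← Real.rpow_mul (by exact_mod_cast abs_nonneg _),
    inv_mul_cancel₀ finrank_pos'.ne', Real.rpow_one]

/-- strict inequality for a pair of squares -/
theorem G_pair (htr : ∀ φ : F →+* ℂ, ∀ x : F, (φ x).im = 0) {a b : F}
    (ha : IsIntegral ℤ a) (hb : IsIntegral ℤ b) (ha0 : a ≠ 0) (hb0 : b ≠ 0)
    (hab : a ^ 2 ≠ b ^ 2) : 2 < G F (a ^ 2 + b ^ 2) := by
  haveI : Nonempty (F →ₐ[ℚ] ℂ) := by
    rw [← Fintype.card_pos_iff, card_emb]; exact Module.finrank_pos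
  have h1 : 1 ≤ ((|Algebra.norm ℚ (a * b)| : ℚ) : ℝ) := by
    rw [← G_pow]
    exact one_le_pow₀ (one_le_G (ha.mul hb) (mul_ne_zero ha0 hb0))
  have h2 : (2 : ℝ) ^ (Fintype.card (F →ₐ[ℚ] ℂ)) * 1 < ∏ σ : F →ₐ[ℚ] ℂ, ‖σ (a ^ 2 + b ^ 2)‖ := by
    calc (2 : ℝ) ^ (Fintype.card (F →ₐ[ℚ] ℂ)) * 1 ≤
        (2 : ℝ) ^ (Fintype.card (F →ₐ[ℚ] ℂ)) * ∏ σ : F →ₐ[ℚ] ℂ, ‖σ (a * b)‖ := by
          rw [← abs_norm_eq]; gcongr
      _ = ∏ σ : F →ₐ[ℚ] ℂ, (2 * ‖σ (a * b)‖) := by
          rw [Finset.prod_mul_distrib, Finset.prod_const, Finset.card_univ]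
      _ < _ := by
          apply Finset.prod_lt_prod_of_nonempty
          · intro σ _
            have : σ (a * b) ≠ 0 := by
              rw [_root_.map_ne_zero]; exact mul_ne_zero ha0 hb0
            positivity
          · intro σ _
            have h3 : (σ a).im = 0 := htr σ.toRingHom a
            have h4 : (σ b).im = 0 := htr σ.toRingHom b
            obtain ⟨r, hr⟩ : ∃ r : ℝ, σ a = (r : ℂ) := ⟨(σ a).re, by
              apply Complex.ext <;> simp [h3]⟩
            obtain ⟨s, hs⟩ : ∃ s : ℝ, σ b = (s : ℂ) := ⟨(σ b).re, by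
              apply Complex.ext <;> simp [h4]⟩
            have h5 : r ^ 2 ≠ s ^ 2 := by
              intro h
              apply hab
              apply σ.toRingHom.injective
              simp only [AlgHom.toRingHom_eq_coe, RingHom.coe_coe, map_pow, hr, hs]
              exact_mod_cast h
            rw [map_mul, map_add, map_pow, map_pow, hr, hs, ← Complex.ofReal_mul,
              ← Complex.ofReal_pow, ← Complex.ofReal_pow, ← Complex.ofReal_add,
              Complex.norm_real, Complex.norm_real, Real.norm_eq_abs, Real.norm_eq_abs,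
              abs_of_nonneg (by positivity : 0 ≤ r ^ 2 + s ^ 2), abs_mul]
            have h6 : |r| ≠ |s| := by
              intro h
              apply h5
              rw [← sq_abs r, ← sq_abs s, h]
            have h7 : 0 < (|r| - |s|) ^ 2 := by
              have : |r| - |s| ≠ 0 := sub_ne_zero.mpr h6
              positivity
            have h8 := sq_abs r
            have h9 := sq_abs s
            nlinarith
          · exact Finset.univ_nonempty
  rw [mul_one] at h2
  rw [G_eq]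
  have hd : (0 : ℝ) < Fintype.card (F →ₐ[ℚ] ℂ) := by exact_mod_cast Fintype.card_pos
  calc (2 : ℝ) = ((2 : ℝ) ^ (Fintype.card (F →ₐ[ℚ] ℂ))) ^ ((Fintype.card (F →ₐ[ℚ] ℂ) : ℝ)⁻¹) := by
        rw [← Real.rpow_natCast, ← Real.rpow_mul (by norm_num), mul_inv_cancel₀ hd.ne',
          Real.rpow_one]
    _ < _ := Real.rpow_lt_rpow (by positivity) h2 (by positivity)

end

end Pool.Agent.TH897.J210
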