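import Pool.Agent.TH897.J210a

set_option autoImplicit false

namespace Pool.Agent.TH897.J210

open Pool.Agent.TH843.PY

section SS

variable {K K' : IntermediateField ℚ ℂ} {r s : ℕ} {x y : ℂ}

theorem SS.mono (h : K ≤ K') (hx : SS K r x) : SS K' r x := by
  obtain ⟨f, hf, e⟩ := hx
  exact ⟨f, fun i => ⟨h (hf i).1, (hf i).2⟩, e⟩

theorem SS.mem (hx : SS K r x) : x ∈ K := by
  obtain ⟨f, hf, e⟩ := hx
  rw [e]
  exact sum_mem fun i _ => pow_mem (hf i).1 2

theorem SS.isIntegral (hx : SS K r x) : IsIntegral ℤ x := by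
  obtain ⟨f, hf, e⟩ := hx
  rw [e]
  exact IsIntegral.sum _ fun i _ => (hf i).2.pow 2

theorem SS.finset {ι : Type*} (t : Finset ι) (f : ι → ℂ)
    (h : ∀ i ∈ t, f i ∈ K ∧ IsIntegral ℤ (f i)) : SS K t.card (∑ i ∈ t, f i ^ 2) := by
  refine ⟨fun k => f (t.equivFin.symm k), fun k => h _ (t.equivFin.symm k).2, ?_⟩
  rw [← Finset.sum_coe_sort t, ← Equiv.sum_comp t.equivFin.symm]

theorem SS.add (hx : SS K r x) (hy : SS K s y) : SS K (r + s) (x + y) := by
  obtain ⟨f, hf, e⟩ := hx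
  obtain ⟨g, hg, e'⟩ := hy
  refine ⟨Fin.append f g, fun i => ?_, ?_⟩
  · refine Fin.addCases (fun i => ?_) (fun i => ?_) i
    · simpa using hf i
    · simpa using hg i
  · rw [Fin.sum_univ_add, e, e']
    simp

theorem SS.zero' (r : ℕ) : SS K r 0 :=
  ⟨fun _ => 0, fun _ => ⟨zero_mem _, isIntegral_zero⟩, by simp⟩

theorem SS.sq {a : ℂ} (ha : a ∈ K) (ha' : IsIntegral ℤ a) : SS K 1 (a ^ 2) :=
  ⟨fun _ => a, fun _ => ⟨ha, ha'⟩, by simp⟩

theorem SS.le (h : r ≤ s) (hx : SS K r x) : SS K s x := by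
  obtain ⟨k, rfl⟩ := Nat.exists_eq_add_of_le h
  simpa using SS.add hx (SS.zero' (K := K) k)

end SS

/-- The normalized norm does not depend on the field. -/
theorem G_inclusion {F₀ F : IntermediateField ℚ ℂ} (h : F₀ ≤ F) [FiniteDimensional ℚ F₀]
    [FiniteDimensional ℚ F] {x : ℂ} (hx : x ∈ F₀) :
    G F ⟨x, h hx⟩ = G F₀ ⟨x, hx⟩ := by
  letI : Algebra F₀ F := (IntermediateField.inclusion h).toRingHom.toAlgebra
  haveI : IsScalarTower ℚ F₀ F := IsScalarTower.of_algebraMap_eq fun q => by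
    exact ((IntermediateField.inclusion h).commutes q).symm
  haveI : FiniteDimensional F₀ F := FiniteDimensional.right ℚ F₀ F
  have h1 : Algebra.norm ℚ (⟨x, h hx⟩ : F) =
      (Algebra.norm ℚ (⟨x, hx⟩ : F₀)) ^ (Module.finrank F₀ F) := by
    have h2 : (⟨x, h hx⟩ : F) = algebraMap F₀ F ⟨x, hx⟩ := rfl
    rw [h2, ← Algebra.norm_norm (R := ℚ) (S := F₀), Algebra.norm_algebraMap, map_pow]
  have h3 : Module.finrank ℚ F = Module.finrank ℚ F₀ * Module.finrank F₀ F :=
    (Module.finrank_mul_finrank ℚ F₀ F).symm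
  have h4 : (0 : ℝ) < Module.finrank F₀ F := by exact_mod_cast Module.finrank_pos
  have h5 : (0 : ℝ) ≤ ((|Algebra.norm ℚ (⟨x, hx⟩ : F₀)| : ℚ) : ℝ) := by
    exact_mod_cast abs_nonneg _
  rw [G, G, h1, h3, abs_pow]
  push_cast
  rw [← Real.rpow_natCast, ← Real.rpow_mul (by simpa using h5), mul_inv]
  congr 1
  field_simp

theorem integral_coe {F : IntermediateField ℚ ℂ} {x : F} :
    IsIntegral ℤ x ↔ IsIntegral ℤ (x : ℂ) :=
  (isIntegral_algHom_iff (IsScalarTower.toAlgHom ℤ F ℂ) Subtype.coe_injective).symm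

/-- The minimality argument. -/
theorem key {F : IntermediateField ℚ ℂ} [FiniteDimensional ℚ F] (hTR : TR F) {n : ℕ} (hn : 3 ≤ n)
    {gam : ℝ} (hgam : ∀ z : F, (∃ m, SS F m (z : ℂ)) → ¬ SS F (n - 1) (z : ℂ) → gam ≤ G F z)
    {y : F} (hy : ∃ m, SS F m (y : ℂ)) (hyn : ¬ SS F n (y : ℂ)) :
    (∀ φ : F →+* ℂ, 0 < (φ y).re) ∧ 4 < G F y ∧ gam + 1 ≤ G F y := by
  classical
  obtain ⟨m, hm, hmin⟩ : ∃ m, SS F m (y : ℂ) ∧ ∀ k < m, ¬ SS F k (y : ℂ) :=
    ⟨Nat.find hy, Nat.find_spec hy, fun k hk => Nat.find_min hy hk⟩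
  obtain ⟨f, hf, e⟩ := hm
  have hnm : n < m := by
    by_contra hcon
    exact hyn (SS.le (not_lt.mp hcon) ⟨f, hf, e⟩)
  have h0 : ∀ i, f i ≠ 0 := by
    intro i hi
    have h1 := SS.finset (K := F) (Finset.univ.erase i) f fun j _ => hf j
    have h2 : ∑ j ∈ Finset.univ.erase i, f j ^ 2 = y := by
      rw [e, ← Finset.add_sum_erase _ _ (Finset.mem_univ i), hi]; simp
    rw [h2, Finset.card_erase_of_mem (Finset.mem_univ i), Finset.card_univ, Fintype.card_fin] at h1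
    exact hmin _ (by have := i.2; omega) h1
  obtain ⟨g, hg⟩ : ∃ g : Fin m → F, ∀ i, (g i : ℂ) = f i := ⟨fun i => ⟨f i, (hf i).1⟩, fun _ => rfl⟩
  have hgi : ∀ i, IsIntegral ℤ (g i) := fun i => by rw [integral_coe, hg]; exact (hf i).2
  have hg0 : ∀ i, g i ≠ 0 := fun i h => h0 i (by rw [← hg, h]; rfl)
  have hyg : y = ∑ i, g i ^ 2 := by
    apply Subtype.coe_injective
    change (y : ℂ) = _
    rw [e]; push_cast; simp only [hg]
  have hTNsq : ∀ a : F, TN (a ^ 2) := by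
    intro a σ
    have h3 : (σ a).im = 0 := hTR σ.toRingHom a
    refine ⟨(σ a).re ^ 2, sq_nonneg _, ?_⟩
    rw [map_pow]
    have : σ a = ((σ a).re : ℂ) := by apply Complex.ext <;> simp [h3]
    rw [this]; push_cast; simp
  have hG1 : ∀ i, 1 ≤ G F (g i ^ 2) := fun i => one_le_G ((hgi i).pow 2) (pow_ne_zero 2 (hg0 i))
  have i0 : Fin m := ⟨0, by omega⟩
  refine ⟨?_, ?_, ?_⟩
  · intro φ
    rw [hyg, map_sum, Complex.re_sum]
    apply Finset.sum_pos
    · intro i _
      have h3 : (φ (g i)).im = 0 := hTR φ (g i)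
      have h4 : φ (g i) ≠ 0 := by rw [_root_.map_ne_zero]; exact hg0 i
      rw [map_pow, sq, Complex.mul_re, h3]
      have h5 : (φ (g i)).re ≠ 0 := by
        intro h; exact h4 (Complex.ext h h3)
      have : 0 < (φ (g i)).re * (φ (g i)).re := mul_self_pos.mpr h5
      linarith
    · exact ⟨i0, Finset.mem_univ _⟩
  · -- two different squares
    obtain ⟨i, j, hij⟩ : ∃ i j, g i ^ 2 ≠ g j ^ 2 := by
      by_contra hcon
      push Not at hcon
      obtain ⟨t, -, ht⟩ := Finset.exists_subset_card_eq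
        (s := (Finset.univ : Finset (Fin m))) (n := 4)
        (by rw [Finset.card_univ, Fintype.card_fin]; omega)
      have h1 : (y : ℂ) = (2 * f i0) ^ 2 + ∑ j ∈ tᶜ, f j ^ 2 := by
        rw [e, ← Finset.sum_add_sum_compl t]
        congr 1
        have h2 : ∀ j ∈ t, f j ^ 2 = f i0 ^ 2 := by
          intro j _
          have := congrArg (fun z : F => (z : ℂ)) (hcon j i0)
          simpa [hg] using this
        rw [Finset.sum_congr rfl h2, Finset.sum_const, ht]
        ring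
      have h3 : SS F (1 + tᶜ.card) (y : ℂ) := by
        rw [h1]
        refine SS.add (SS.sq ?_ ?_) (SS.finset _ _ fun j _ => hf j)
        · exact mul_mem (by exact_mod_cast (natCast_mem F 2)) (hf i0).1
        · refine IsIntegral.mul ?_ (hf i0).2
          exact_mod_cast (isIntegral_natCast (R := ℤ) (B := ℂ) (a := 2))
      refine hmin _ ?_ h3
      rw [Finset.card_compl, Fintype.card_fin, ht]
      omega
    have hne : i ≠ j := by rintro rfl; exact hij rfl
    have h1 : y = (g i ^ 2 + g j ^ 2) + ∑ k ∈ ({i, j} : Finset (Fin m))ᶜ, g k ^ 2 := by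
      rw [hyg, ← Finset.sum_add_sum_compl ({i, j} : Finset (Fin m)), Finset.sum_pair hne]
    have h2 : 2 < G F (g i ^ 2 + g j ^ 2) := G_pair hTR (hgi i) (hgi j) (hg0 i) (hg0 j) hij
    have h3 : ∑ k ∈ ({i, j} : Finset (Fin m))ᶜ, (1 : ℝ) ≤
        G F (∑ k ∈ ({i, j} : Finset (Fin m))ᶜ, g k ^ 2) :=
      (Finset.sum_le_sum fun k _ => hG1 k).trans (G_sum _ _ fun k _ => hTNsq _)
    have h4 := G_add ((hTNsq (g i)).add (hTNsq (g j)))
      (TN.sum ({i, j} : Finset (Fin m))ᶜ (fun k => g k ^ 2) fun k _ => hTNsq _)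
    rw [← h1] at h4
    have h5 : ∑ k ∈ ({i, j} : Finset (Fin m))ᶜ, (1 : ℝ) = (m : ℝ) - 2 := by
      rw [Finset.sum_const, Finset.card_compl, Fintype.card_fin, Finset.card_pair hne,
        nsmul_eq_mul, mul_one, Nat.cast_sub (by omega)]
      simp
    have h6 : (4 : ℝ) ≤ m := by exact_mod_cast (by omega : 4 ≤ m)
    linarith
  · set z : F := ∑ k ∈ Finset.univ.erase i0, g k ^ 2 with hz
    have h1 : y = z + g i0 ^ 2 := by
      rw [hyg, hz, Finset.sum_erase_add _ _ (Finset.mem_univ i0)]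
    have h2 : SS F (Finset.univ.erase i0).card (z : ℂ) := by
      have := SS.finset (K := F) (Finset.univ.erase i0) f fun j _ => hf j
      have h3 : (z : ℂ) = ∑ j ∈ Finset.univ.erase i0, f j ^ 2 := by
        rw [hz]; push_cast; simp only [hg]
      rwa [h3]
    have h4 : ¬ SS F (n - 1) (z : ℂ) := by
      intro h
      apply hyn
      have h5 : (y : ℂ) = z + f i0 ^ 2 := by
        rw [h1]; push_cast; rw [hg]
      rw [h5]
      have := SS.add h (SS.sq (hf i0).1 (hf i0).2)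
      rwa [Nat.sub_add_cancel (by omega)] at this
    have h5 := hgam z ⟨_, h2⟩ h4
    have h6 := G_add (TN.sum (Finset.univ.erase i0) (fun k => g k ^ 2) fun k _ => hTNsq _)
      (hTNsq (g i0))
    rw [← hz, ← h1] at h6
    linarith [hG1 i0]

end Pool.Agent.TH897.J210
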