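import Pool.Agent.TH981.LO.Defs

/-!
# Loop O(1) project, basic API (job 338 of helper981, MP_f0ab88_pr)
-/

set_option autoImplicit false

open scoped BigOperators symmDiff

namespace Pool.Agent.TH981.LO.MG

set_option linter.unusedSectionVars false

variable {V E : Type} [DecidableEq V] [DecidableEq E] (G : MG V E)

theorem zmod2_add_self_338 {V : Type} (a : V → ZMod 2) : a + a = 0 := by
  funext v
  exact CharTwo.add_self_eq_zero (a v)

theorem bd_empty : G.bd ∅ = 0 := by simp [bd]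

theorem bd_singleton (e : E) : G.bd {e} = G.inc e := by simp [bd]

theorem bd_insert {e : E} {η : Finset E} (h : e ∉ η) : G.bd (insert e η) = G.inc e + G.bd η :=
  Finset.sum_insert h

theorem bd_union {η ξ : Finset E} (h : Disjoint η ξ) : G.bd (η ∪ ξ) = G.bd η + G.bd ξ :=
  Finset.sum_union h

theorem bd_symmDiff (η ξ : Finset E) : G.bd (η ∆ ξ) = G.bd η + G.bd ξ := by
  have h1 : G.bd η = G.bd (η \ ξ) + G.bd (η ∩ ξ) := by
    rw [← bd_union _ (Finset.disjoint_sdiff_inter η ξ), Finset.sdiff_union_inter]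
  have h2 : G.bd ξ = G.bd (ξ \ η) + G.bd (η ∩ ξ) := by
    rw [Finset.inter_comm, ← bd_union _ (Finset.disjoint_sdiff_inter ξ η),
      Finset.sdiff_union_inter]
  have h3 : G.bd (η ∆ ξ) = G.bd (η \ ξ) + G.bd (ξ \ η) := by
    rw [symmDiff_def, Finset.sup_eq_union, bd_union]
    exact disjoint_sdiff_sdiff
  rw [h3, h1, h2]
  have h4 := zmod2_add_self_338 (G.bd (η ∩ ξ))
  calc G.bd (η \ ξ) + G.bd (ξ \ η) = G.bd (η \ ξ) + G.bd (ξ \ η) +
        (G.bd (η ∩ ξ) + G.bd (η ∩ ξ)) := by rw [h4, add_zero]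
    _ = _ := by abel

theorem bd_eq_zero_of_not_touch {η : Finset E} {v : V} (h : ∀ e ∈ η, G.s e ≠ v ∧ G.t e ≠ v) :
    G.bd η v = 0 := by
  rw [bd, Finset.sum_apply]
  refine Finset.sum_eq_zero fun e he => ?_
  have h1 := h e he
  simp [inc, two, Pi.single_apply, h1.1.symm, h1.2.symm]

theorem sum_inc_eq_zero_338 {e : E} {W : Finset V} (h1 : G.s e ∈ W) (h2 : G.t e ∈ W) :
    ∑ v ∈ W, G.inc e v = 0 := by
  simp only [inc, two, Pi.add_apply, Pi.single_apply]
  rw [Finset.sum_add_distrib, Finset.sum_ite_eq', Finset.sum_ite_eq', if_pos h1, if_pos h2]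
  exact CharTwo.add_self_eq_zero _

theorem sum_bd_eq_zero {η : Finset E} {W : Finset V} (h : ∀ e ∈ η, G.s e ∈ W ∧ G.t e ∈ W) :
    ∑ v ∈ W, G.bd η v = 0 := by
  simp only [bd, Finset.sum_apply]
  rw [Finset.sum_comm]
  exact Finset.sum_eq_zero fun e he => G.sum_inc_eq_zero_338 (h e he).1 (h e he).2

theorem adj_symm_338 {ω : Finset E} : Symmetric (G.adj ω) := by
  rintro a b ⟨e, he, h⟩
  exact ⟨e, he, h.symm⟩

theorem Cn_symm {ω : Finset E} {a b : V} (h : G.Cn ω a b) : G.Cn ω b a := by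
  unfold Cn at *
  induction h with
  | refl => exact Relation.ReflTransGen.refl
  | tail _ h2 ih => exact Relation.ReflTransGen.head (G.adj_symm_338 h2) ih

theorem Cn_trans {ω : Finset E} {a b c : V} (h : G.Cn ω a b) (h' : G.Cn ω b c) : G.Cn ω a c :=
  Relation.ReflTransGen.trans h h'

theorem Cn_mono {ω ω' : Finset E} (hω : ω ⊆ ω') {a b : V} (h : G.Cn ω a b) : G.Cn ω' a b := by
  unfold Cn at *
  induction h with
  | refl => exact Relation.ReflTransGen.refl
  | tail _ h2 ih =>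
    obtain ⟨e, he, h3⟩ := h2
    exact ih.tail ⟨e, hω he, h3⟩

theorem Cn_edge_338 {ω : Finset E} {e : E} (he : e ∈ ω) : G.Cn ω (G.s e) (G.t e) :=
  Relation.ReflTransGen.single ⟨e, he, Or.inl ⟨rfl, rfl⟩⟩

theorem mem_clF {ω : Finset E} {U : Finset V} {v : V} :
    v ∈ G.clF ω U ↔ ∃ u ∈ U, G.Cn ω u v := by
  classical
  unfold clF
  rw [Finset.mem_filter]
  refine ⟨fun h => h.2, fun h => ⟨?_, h⟩⟩
  obtain ⟨u, hu, h⟩ := h
  rcases Relation.ReflTransGen.cases_tail h with h1 | ⟨c, _, e, he, h2⟩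
  · rw [h1]; exact Finset.mem_union_left _ (Finset.mem_union_left _ hu)
  · rcases h2 with ⟨_, h2⟩ | ⟨h2, _⟩
    · exact Finset.mem_union_right _ (Finset.mem_image.mpr ⟨e, he, h2⟩)
    · exact Finset.mem_union_left _ (Finset.mem_union_right _ (Finset.mem_image.mpr ⟨e, he, h2⟩))

theorem subset_clF (ω : Finset E) (U : Finset V) : U ⊆ G.clF ω U := fun u hu =>
  G.mem_clF.mpr ⟨u, hu, Relation.ReflTransGen.refl⟩

theorem clF_mono {ω ω' : Finset E} {U U' : Finset V} (h : ω ⊆ ω') (hU : U ⊆ U') :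
    G.clF ω U ⊆ G.clF ω' U' := by
  intro v hv
  obtain ⟨u, hu, h1⟩ := G.mem_clF.mp hv
  exact G.mem_clF.mpr ⟨u, hU hu, G.Cn_mono h h1⟩

/-- an edge of `ω` has both or no endpoints in the cluster -/
theorem s_mem_clF_iff {ω : Finset E} {U : Finset V} {e : E} (he : e ∈ ω) :
    G.s e ∈ G.clF ω U ↔ G.t e ∈ G.clF ω U := by
  rw [mem_clF, mem_clF]
  constructor
  · rintro ⟨u, hu, h⟩
    exact ⟨u, hu, G.Cn_trans h (G.Cn_edge_338 he)⟩
  · rintro ⟨u, hu, h⟩
    exact ⟨u, hu, G.Cn_trans h (G.Cn_symm (G.Cn_edge_338 he))⟩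

/-- the cluster is the smallest set containing `U` that is closed under the edges of `ω` -/
theorem clF_subset_of_closed {ω : Finset E} {U W : Finset V} (hU : U ⊆ W)
    (h : ∀ e ∈ ω, (G.s e ∈ W ↔ G.t e ∈ W)) : G.clF ω U ⊆ W := by
  intro v hv
  obtain ⟨u, hu, h1⟩ := G.mem_clF.mp hv
  unfold Cn at h1
  induction h1 with
  | refl => exact hU hu
  | tail hab h2 ih =>
    obtain ⟨e, he, h3⟩ := h2
    have ih' := ih (G.mem_clF.mpr ⟨u, hu, hab⟩)
    rcases h3 with ⟨h3, h4⟩ | ⟨h3, h4⟩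
    · rw [← h4, ← h e he, h3]; exact ih'
    · rw [← h3, h e he, h4]; exact ih'

open Classical in
theorem L_eq_ite_338 (w : E → ℝ) (F : Finset E) (A : V → ZMod 2) (f : Finset E → ℝ) :
    G.L w F A f = ∑ η ∈ F.powerset, if G.bd η = A then (∏ e ∈ η, w e) * f η else 0 := by
  unfold L
  rw [Finset.sum_filter]

theorem L_nonneg {w : E → ℝ} {F : Finset E} (A : V → ZMod 2) {f : Finset E → ℝ}
    (hw : ∀ e ∈ F, 0 ≤ w e) (hf : ∀ η ⊆ F, 0 ≤ f η) : 0 ≤ G.L w F A f := by
  classical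
  unfold L
  refine Finset.sum_nonneg fun η hη => ?_
  have h1 := Finset.mem_powerset.mp (Finset.mem_filter.mp hη).1
  exact mul_nonneg (Finset.prod_nonneg fun e he => hw e (h1 he)) (hf η h1)

theorem L_mono {w : E → ℝ} {F : Finset E} (A : V → ZMod 2) {f g : Finset E → ℝ}
    (hw : ∀ e ∈ F, 0 ≤ w e) (hf : ∀ η ⊆ F, G.bd η = A → f η ≤ g η) :
    G.L w F A f ≤ G.L w F A g := by
  classical
  unfold L
  refine Finset.sum_le_sum fun η hη => ?_
  have h1 := Finset.mem_powerset.mp (Finset.mem_filter.mp hη).1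
  exact mul_le_mul_of_nonneg_left (hf η h1 (Finset.mem_filter.mp hη).2)
    (Finset.prod_nonneg fun e he => hw e (h1 he))

theorem L_congr {w w' : E → ℝ} {F : Finset E} (A : V → ZMod 2) {f g : Finset E → ℝ}
    (hw : ∀ e ∈ F, w e = w' e) (hf : ∀ η ⊆ F, G.bd η = A → f η = g η) :
    G.L w F A f = G.L w' F A g := by
  classical
  unfold L
  refine Finset.sum_congr rfl fun η hη => ?_
  have h1 := Finset.mem_powerset.mp (Finset.mem_filter.mp hη).1
  rw [hf η h1 (Finset.mem_filter.mp hη).2, Finset.prod_congr rfl fun e he => hw e (h1 he)]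

theorem L_add (w : E → ℝ) (F : Finset E) (A : V → ZMod 2) (f g : Finset E → ℝ) :
    G.L w F A (fun η => f η + g η) = G.L w F A f + G.L w F A g := by
  classical
  unfold L
  rw [← Finset.sum_add_distrib]
  exact Finset.sum_congr rfl fun η _ => mul_add _ _ _

theorem L_smul (w : E → ℝ) (F : Finset E) (A : V → ZMod 2) (c : ℝ) (f : Finset E → ℝ) :
    G.L w F A (fun η => c * f η) = c * G.L w F A f := by
  classical
  unfold L
  rw [Finset.mul_sum]
  exact Finset.sum_congr rfl fun η _ => by ring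

theorem Z_nonneg {w : E → ℝ} {F : Finset E} (A : V → ZMod 2) (hw : ∀ e ∈ F, 0 ≤ w e) :
    0 ≤ G.Z w F A := G.L_nonneg A hw fun _ _ => zero_le_one

theorem one_le_Z_zero {w : E → ℝ} {F : Finset E} (hw : ∀ e ∈ F, 0 ≤ w e) : 1 ≤ G.Z w F 0 := by
  classical
  unfold Z L
  have h1 : (∅ : Finset E) ∈ F.powerset.filter (fun η => G.bd η = 0) := by
    rw [Finset.mem_filter]
    exact ⟨Finset.empty_mem_powerset F, G.bd_empty⟩
  have h2 := Finset.single_le_sum (f := fun η : Finset E => (∏ e ∈ η, w e) * (1 : ℝ))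
    (fun η hη => by
      have h1 := Finset.mem_powerset.mp (Finset.mem_filter.mp hη).1
      exact mul_nonneg (Finset.prod_nonneg fun e he => hw e (h1 he)) zero_le_one) h1
  simpa using h2

theorem add_eq_iff_eq_add_338 (a b c : V → ZMod 2) : a + b = c ↔ b = c + a := by
  constructor
  · rintro rfl
    have := zmod2_add_self_338 a
    calc b = b + (a + a) := by rw [this, add_zero]
      _ = a + b + a := by abel
  · rintro rfl
    have := zmod2_add_self_338 a
    calc a + (c + a) = c + (a + a) := by abel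
      _ = c := by rw [this, add_zero]

/-- conditioning on one edge -/
theorem L_insert (w : E → ℝ) {F : Finset E} {e : E} (he : e ∉ F) (A : V → ZMod 2)
    (f : Finset E → ℝ) :
    G.L w (insert e F) A f =
      G.L w F A f + w e * G.L w F (A + G.inc e) (fun η => f (insert e η)) := by
  classical
  rw [L_eq_ite_338, L_eq_ite_338, L_eq_ite_338, Finset.sum_powerset_insert he, Finset.mul_sum]
  congr 1
  refine Finset.sum_congr rfl fun η hη => ?_
  have heη : e ∉ η := fun h => he (Finset.mem_powerset.mp hη h)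
  rw [bd_insert _ heη, add_eq_iff_eq_add_338, Finset.prod_insert heη]
  split_ifs
  · ring
  · ring

theorem Z_insert (w : E → ℝ) {F : Finset E} {e : E} (he : e ∉ F) (A : V → ZMod 2) :
    G.Z w (insert e F) A = G.Z w F A + w e * G.Z w F (A + G.inc e) :=
  G.L_insert w he A _

/-- conditioning on the edges of `F₁` -/
theorem L_union (w : E → ℝ) {F₁ F₂ : Finset E} (h : Disjoint F₁ F₂) (A : V → ZMod 2)
    (f : Finset E → ℝ) :
    G.L w (F₁ ∪ F₂) A f =
      ∑ ζ ∈ F₁.powerset, (∏ e ∈ ζ, w e) * G.L w F₂ (A + G.bd ζ) (fun η => f (ζ ∪ η)) := by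
  classical
  induction F₁ using Finset.induction_on generalizing A f with
  | empty => simp [bd_empty]
  | insert e F₁ he ih =>
    rw [Finset.disjoint_insert_left] at h
    have h1 : e ∉ F₁ ∪ F₂ := by
      rw [Finset.mem_union]; rintro (h2 | h2)
      · exact he h2
      · exact h.1 h2
    rw [Finset.insert_union, L_insert _ _ h1, ih h.2, ih h.2, Finset.sum_powerset_insert he,
      Finset.mul_sum]
    congr 1
    refine Finset.sum_congr rfl fun ζ hζ => ?_
    have heζ : e ∉ ζ := fun h => he (Finset.mem_powerset.mp hζ h)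
    rw [Finset.prod_insert heζ, bd_insert _ heζ, add_assoc, mul_assoc]
    simp_rw [Finset.insert_union]

/-- edges of weight zero can be dropped -/
theorem L_zero_weight {w : E → ℝ} {F F' : Finset E} (hF : F' ⊆ F) (h : ∀ e ∈ F \ F', w e = 0)
    (A : V → ZMod 2) (f : Finset E → ℝ) : G.L w F A f = G.L w F' A f := by
  classical
  unfold L
  symm
  refine Finset.sum_subset (Finset.filter_subset_filter _ (Finset.powerset_mono.mpr hF)) ?_
  intro η h1 h2
  rw [Finset.mem_filter, Finset.mem_powerset] at h1 h2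
  have h3 : ¬ η ⊆ F' := fun h => h2 ⟨h, h1.2⟩
  obtain ⟨e, he, he'⟩ := Finset.not_subset.mp h3
  rw [Finset.prod_eq_zero he (h e (Finset.mem_sdiff.mpr ⟨h1.1 he, he'⟩)), zero_mul]

theorem PS_zero_weight {w : E → ℝ} {F F' : Finset E} (hF : F' ⊆ F) (h : ∀ e ∈ F \ F', w e = 0)
    (A : V → ZMod 2) (g : Finset E → Finset E → ℝ) : G.PS w F A g = G.PS w F' A g := by
  classical
  unfold PS
  have h0 : ∀ ω ∈ F.powerset, ω ∉ F'.powerset → bw w F ω *
      ∑ η ∈ ω.powerset with G.bd η = A, g ω η = 0 := by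
    intro ω h1 h2
    rw [Finset.mem_powerset] at h1 h2
    obtain ⟨e, he, he'⟩ := Finset.not_subset.mp h2
    rw [bw, Finset.prod_eq_zero he (h e (Finset.mem_sdiff.mpr ⟨h1 he, he'⟩)), zero_mul, zero_mul]
  rw [← Finset.sum_subset (Finset.powerset_mono.mpr hF) h0]
  refine Finset.sum_congr rfl fun ω hω => ?_
  congr 1
  have hω' := Finset.mem_powerset.mp hω
  have h1 : F \ ω = (F' \ ω) ∪ (F \ F') := by
    ext e
    simp only [Finset.mem_sdiff, Finset.mem_union]
    constructor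
    · rintro ⟨h2, h3⟩
      by_cases h4 : e ∈ F'
      · exact Or.inl ⟨h4, h3⟩
      · exact Or.inr ⟨h2, h4⟩
    · rintro (⟨h2, h3⟩ | ⟨h2, h3⟩)
      · exact ⟨hF h2, h3⟩
      · exact ⟨h2, fun h4 => h3 (hω' h4)⟩
  have h2 : Disjoint (F' \ ω) (F \ F') := by
    rw [Finset.disjoint_left]
    intro e h3 h4
    exact (Finset.mem_sdiff.mp h4).2 (Finset.mem_sdiff.mp h3).1
  have h3 : ∏ e ∈ F \ F', (1 - w e) = 1 :=
    Finset.prod_eq_one fun e he => by rw [h e he, sub_zero]
  rw [bw, bw, h1, Finset.prod_union h2, h3, mul_one]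

end Pool.Agent.TH981.LO.MG
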