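import Pool.Agent.TH981.LO.Defs

/-!
# Loop O(1) project, basic API (job 340 of helper981, MP_f0ab88_pr)
-/

set_option autoImplicit false
set_option linter.unusedSectionVars false

open scoped BigOperators symmDiff

namespace Pool.Agent.TH981.LO

variable {d : ℕ}

theorem nm_le_iff {n : ℕ} {v : Vt d} : nm v ≤ n ↔ ∀ i, (v i).natAbs ≤ n := by
  simp [nm, Finset.sup_le_iff]

theorem natAbs_le_nm_340 (v : Vt d) (i : Fin d) : (v i).natAbs ≤ nm v := nm_le_iff.mp le_rfl i

theorem mem_box {n : ℕ} {v : Vt d} : v ∈ box d n ↔ nm v ≤ n := by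
  rw [box, Finset.mem_Icc, nm_le_iff]
  constructor
  · rintro ⟨h1, h2⟩ i
    have := h1 i; have := h2 i
    simp only at *
    omega
  · intro h
    refine ⟨fun i => ?_, fun i => ?_⟩ <;>
    · have := h i
      simp only
      omega

theorem nm_add_le (u v : Vt d) : nm (u + v) ≤ nm u + nm v := by
  rw [nm_le_iff]
  intro i
  have h1 := natAbs_le_nm_340 u i
  have h2 := natAbs_le_nm_340 v i
  rw [Pi.add_apply]
  omega

theorem nm_neg (v : Vt d) : nm (-v) = nm v := by
  simp [nm]

theorem nm_sub_le (u v : Vt d) : nm (u - v) ≤ nm u + nm v := by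
  rw [sub_eq_add_neg, ← nm_neg v]
  exact nm_add_le _ _

theorem nm_zero : nm (0 : Vt d) = 0 := by
  have : nm (0 : Vt d) ≤ 0 := nm_le_iff.mpr fun i => by simp
  omega

theorem nm_ev (i : Fin d) : nm (ev i : Vt d) = 1 := by
  apply le_antisymm
  · rw [nm_le_iff]
    intro j
    by_cases h : j = i
    · subst h; simp [ev]
    · simp [ev, h]
  · have := natAbs_le_nm_340 (ev i : Vt d) i
    simpa [ev] using this

theorem nm_sub_comm (u v : Vt d) : nm (u - v) = nm (v - u) := by
  rw [← nm_neg, neg_sub]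

theorem card_box (n : ℕ) : (box d n).card = (2 * n + 1) ^ d := by
  rw [box, Pi.card_Icc]
  simp only [Int.card_Icc, Finset.prod_const, Finset.card_univ, Fintype.card_fin]
  congr 1
  omega

theorem mem_EB {n : ℕ} {e : Ed d} : e ∈ EB d n ↔ nm e.1 ≤ n ∧ nm (e.1 + ev e.2) ≤ n := by
  simp [EB, mem_box]

theorem EB_mono {m n : ℕ} (h : m ≤ n) : EB d m ⊆ EB d n := by
  intro e he
  rw [mem_EB] at *
  exact ⟨he.1.trans h, he.2.trans h⟩

theorem card_EB_le (n : ℕ) : (EB d n).card ≤ d * (2 * n + 1) ^ d := by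
  refine (Finset.card_filter_le _ _).trans ?_
  rw [Finset.card_product, card_box, Finset.card_univ, Fintype.card_fin, mul_comm]

theorem lat_s (e : Ed d) : (lat d).s e = e.1 := rfl
theorem lat_t (e : Ed d) : (lat d).t e = e.1 + ev e.2 := rfl

theorem mem_TE {S : Finset (Vt d)} {e : Ed d} : e ∈ TE S ↔ e.1 ∈ S ∨ e.1 + ev e.2 ∈ S := by
  rw [TE, Finset.mem_union, Finset.mem_image]
  simp only [Finset.mem_product, Finset.mem_univ, and_true]
  refine or_congr_right ⟨?_, ?_⟩
  · rintro ⟨f, hf, rfl⟩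
    simpa using hf
  · intro h
    exact ⟨(e.1 + ev e.2, e.2), h, by simp⟩

theorem card_TE_le (S : Finset (Vt d)) : (TE S).card ≤ 2 * d * S.card := by
  refine (Finset.card_union_le _ _).trans ?_
  have h1 : (S ×ˢ (Finset.univ : Finset (Fin d))).card = S.card * d := by
    rw [Finset.card_product, Finset.card_univ, Fintype.card_fin]
  have h2 := Finset.card_image_le (s := S ×ˢ (Finset.univ : Finset (Fin d)))
    (f := fun e : Vt d × Fin d => ((e.1 - ev e.2, e.2) : Ed d))
  rw [h1] at h2 ⊢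
  nlinarith

theorem card_tch_le (D : Finset (Ed d)) (κ : Finset (Vt d)) :
    ((lat d).tch D κ).card ≤ 2 * d * κ.card := by
  refine (Finset.card_le_card ?_).trans (card_TE_le κ)
  intro e he
  exact mem_TE.mpr (Finset.mem_filter.mp he).2

theorem mem_shF {z : Vt d} {η : Finset (Ed d)} {e : Ed d} :
    e ∈ shF z η ↔ (e.1 - z, e.2) ∈ η := by
  rw [shF, Finset.mem_map_equiv]
  rfl

theorem shF_zero (η : Finset (Ed d)) : shF 0 η = η := by
  ext e; rw [mem_shF]; simp

theorem shF_shF (y z : Vt d) (η : Finset (Ed d)) : shF y (shF z η) = shF (y + z) η := by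
  ext e; rw [mem_shF, mem_shF, mem_shF]
  simp only [sub_sub]

theorem shF_injective (z : Vt d) : Function.Injective (shF z : Finset (Ed d) → Finset (Ed d)) :=
  Finset.map_injective _

theorem shF_card (z : Vt d) (η : Finset (Ed d)) : (shF z η).card = η.card :=
  Finset.card_map _

theorem shF_mono {z : Vt d} {η ξ : Finset (Ed d)} (h : η ⊆ ξ) : shF z η ⊆ shF z ξ :=
  Finset.map_subset_map.mpr h

theorem shF_union (z : Vt d) (η ξ : Finset (Ed d)) : shF z (η ∪ ξ) = shF z η ∪ shF z ξ :=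
  Finset.map_union _ _

theorem shF_inter (z : Vt d) (η ξ : Finset (Ed d)) : shF z (η ∩ ξ) = shF z η ∩ shF z ξ :=
  Finset.map_inter _ _

theorem shF_sdiff (z : Vt d) (η ξ : Finset (Ed d)) : shF z (η \ ξ) = shF z η \ shF z ξ := by
  ext e; simp [mem_shF]

theorem single_shift_340 (a z v : Vt d) :
    (Pi.single (a + z) (1 : ZMod 2) : Vt d → ZMod 2) v = (Pi.single a 1 : Vt d → ZMod 2) (v - z) := by
  rw [Pi.single_apply, Pi.single_apply]
  simp only [eq_sub_iff_add_eq, sub_eq_iff_eq_add]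

theorem inc_shE_340 (z : Vt d) (e : Ed d) (v : Vt d) :
    (lat d).inc (shE z e) v = (lat d).inc e (v - z) := by
  rw [MG.inc, MG.inc, two, two, Pi.add_apply, Pi.add_apply, lat_s, lat_t, lat_s, lat_t]
  have h1 : (shE z e).1 = e.1 + z := rfl
  have h2 : (shE z e).1 + ev (shE z e).2 = (e.1 + ev e.2) + z := by
    change e.1 + z + ev e.2 = _
    abel
  rw [h2, h1, single_shift_340, single_shift_340]

/-- translation of the source function -/
theorem bd_shF (z : Vt d) (η : Finset (Ed d)) (v : Vt d) :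
    (lat d).bd (shF z η) v = (lat d).bd η (v - z) := by
  rw [MG.bd, MG.bd, shF, Finset.sum_map, Finset.sum_apply, Finset.sum_apply]
  exact Finset.sum_congr rfl fun e _ => inc_shE_340 z e v

theorem powerset_shF_340 (z : Vt d) (D : Finset (Ed d)) :
    (shF z D).powerset = D.powerset.map ⟨shF z, shF_injective z⟩ := by
  ext η
  rw [Finset.mem_powerset, Finset.mem_map]
  simp only [Finset.mem_powerset, Function.Embedding.coeFn_mk]
  constructor
  · intro h
    refine ⟨shF (-z) η, ?_, ?_⟩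
    · have := shF_mono (z := -z) h
      rwa [shF_shF, neg_add_cancel, shF_zero] at this
    · rw [shF_shF, add_neg_cancel, shF_zero]
  · rintro ⟨ξ, hξ, rfl⟩
    exact shF_mono hξ

theorem bd_shF_eq_iff_340 (z : Vt d) (η : Finset (Ed d)) (A : Vt d → ZMod 2) :
    (lat d).bd (shF z η) = (fun v => A (v - z)) ↔ (lat d).bd η = A := by
  constructor
  · intro h
    funext v
    have := congrFun h (v + z)
    rw [bd_shF] at this
    simpa using this
  · intro h
    funext v
    rw [bd_shF, h]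

/-- translation of weighted sums -/
theorem L_shF_340 (w : Ed d → ℝ) (z : Vt d) (D : Finset (Ed d)) (A : Vt d → ZMod 2)
    (f : Finset (Ed d) → ℝ) :
    (lat d).L w (shF z D) (fun v => A (v - z)) f =
      (lat d).L (fun e => w (shE z e)) D A (fun η => f (shF z η)) := by
  classical
  unfold MG.L
  rw [Finset.sum_filter, Finset.sum_filter, powerset_shF_340, Finset.sum_map]
  refine Finset.sum_congr rfl fun η _ => ?_
  simp only [Function.Embedding.coeFn_mk, bd_shF_eq_iff_340]
  congr 2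
  rw [shF, Finset.prod_map]
  rfl

theorem LL_shF (x : ℝ) (z : Vt d) (D : Finset (Ed d)) (A : Vt d → ZMod 2)
    (f : Finset (Ed d) → ℝ) :
    LL d x (shF z D) (fun v => A (v - z)) f = LL d x D A (fun η => f (shF z η)) :=
  L_shF_340 _ z D A f

/-- translation of weighted correlations -/
theorem corr_shF (w : Ed d → ℝ) (z : Vt d) (D : Finset (Ed d)) (A : Vt d → ZMod 2) :
    (lat d).corr w (shF z D) (fun v => A (v - z)) =
      (lat d).corr (fun e => w (shE z e)) D A := by
  have h1 := L_shF_340 w z D A (fun _ => 1)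
  have h2 := L_shF_340 w z D 0 (fun _ => 1)
  rw [MG.corr, MG.corr, MG.Z, MG.Z, MG.Z, MG.Z]
  rw [h1]
  have h3 : (fun v : Vt d => (0 : Vt d → ZMod 2) (v - z)) = 0 := rfl
  rw [h3] at h2
  rw [h2]

theorem CC_shF (x : ℝ) (z : Vt d) (D : Finset (Ed d)) (A : Vt d → ZMod 2) :
    CC d x (shF z D) (fun v => A (v - z)) = CC d x D A :=
  corr_shF _ z D A

theorem adj_shF_340 {z : Vt d} {ω : Finset (Ed d)} {a b : Vt d} (h : (lat d).adj ω a b) :
    (lat d).adj (shF z ω) (a + z) (b + z) := by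
  obtain ⟨e, he, h1⟩ := h
  refine ⟨(e.1 + z, e.2), mem_shF.mpr (by simpa using he), ?_⟩
  simp only [lat_s, lat_t] at *
  rcases h1 with ⟨rfl, rfl⟩ | ⟨rfl, rfl⟩
  · left; exact ⟨rfl, by abel⟩
  · right; exact ⟨rfl, by abel⟩

theorem Cn_shF_of_340 {z : Vt d} {ω : Finset (Ed d)} {a b : Vt d} (h : (lat d).Cn ω a b) :
    (lat d).Cn (shF z ω) (a + z) (b + z) := by
  unfold MG.Cn at *
  induction h with
  | refl => exact Relation.ReflTransGen.refl
  | tail _ h2 ih => exact ih.tail (adj_shF_340 h2)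

theorem Cn_shF (z : Vt d) (ω : Finset (Ed d)) (a b : Vt d) :
    (lat d).Cn (shF z ω) (a + z) (b + z) ↔ (lat d).Cn ω a b := by
  refine ⟨fun h => ?_, Cn_shF_of_340⟩
  have := Cn_shF_of_340 (z := -z) h
  rwa [shF_shF, neg_add_cancel, shF_zero, add_neg_cancel_right, add_neg_cancel_right] at this

end Pool.Agent.TH981.LO
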