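import Pool.Agent.TH981.LO.Bas

/-!
# Domain Markov property (job 451 of helper981, MP_f0ab88_pr)
-/

set_option autoImplicit false
set_option linter.unusedSectionVars false

open Pool.Agent.TH981.LO
open scoped BigOperators symmDiff MeasureTheory

namespace Pool.Agent.TH897.J451

section

variable {V E : Type} [DecidableEq V] [DecidableEq E] (G : MG V E)

theorem sum_powerset_union' {F₁ F₂ : Finset E} (h : Disjoint F₁ F₂) (f : Finset E → ℝ) :
    ∑ η ∈ (F₁ ∪ F₂).powerset, f η = ∑ ζ ∈ F₁.powerset, ∑ η ∈ F₂.powerset, f (ζ ∪ η) := by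
  induction F₁ using Finset.induction_on generalizing f with
  | empty => simp
  | insert e F₁ he ih =>
    rw [Finset.disjoint_insert_left] at h
    have h1 : e ∉ F₁ ∪ F₂ := by
      rw [Finset.mem_union]; rintro (h2 | h2)
      · exact he h2
      · exact h.1 h2
    rw [Finset.insert_union, Finset.sum_powerset_insert h1, ih h.2, ih h.2,
      Finset.sum_powerset_insert he]
    congr 1
    refine Finset.sum_congr rfl fun ζ _ => ?_
    simp_rw [Finset.insert_union]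

variable {G}

theorem mem_tch {F : Finset E} {κ : Finset V} {e : E} :
    e ∈ G.tch F κ ↔ e ∈ F ∧ (G.s e ∈ κ ∨ G.t e ∈ κ) := by simp [MG.tch]

theorem mem_off {F : Finset E} {κ : Finset V} {e : E} :
    e ∈ G.off F κ ↔ e ∈ F ∧ G.s e ∉ κ ∧ G.t e ∉ κ := by simp [MG.off]

theorem disj_tch_off (F : Finset E) (κ : Finset V) : Disjoint (G.tch F κ) (G.off F κ) := by
  rw [Finset.disjoint_left]
  intro e h1 h2
  rw [mem_tch] at h1
  rw [mem_off] at h2
  tauto

theorem tch_union_off (F : Finset E) (κ : Finset V) : G.tch F κ ∪ G.off F κ = F := by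
  ext e
  rw [Finset.mem_union, mem_tch, mem_off]
  tauto

/-- the cluster of a configuration is determined by the edges touching it -/
theorem clF_tch (ω : Finset E) (U : Finset V) :
    G.clF (G.tch ω (G.clF ω U)) U = G.clF ω U := by
  apply Finset.Subset.antisymm
  · exact G.clF_mono (fun e he => (mem_tch.mp he).1) (Finset.Subset.refl U)
  · refine G.clF_subset_of_closed (G.subset_clF _ _) fun e he => ?_
    by_cases h : e ∈ G.tch ω (G.clF ω U)
    · exact G.s_mem_clF_iff h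
    · have h1 : G.s e ∉ G.clF ω U ∧ G.t e ∉ G.clF ω U := by
        rw [mem_tch] at h; tauto
      have h2 := G.clF_mono (ω := G.tch ω (G.clF ω U)) (ω' := ω)
        (fun e he => (mem_tch.mp he).1) (Finset.Subset.refl U)
      exact ⟨fun h3 => absurd (h2 h3) h1.1, fun h3 => absurd (h2 h3) h1.2⟩

theorem con_tch (ω : Finset E) (U : Finset V) : G.con (G.tch ω (G.clF ω U)) U := by
  intro e he
  rw [clF_tch]
  rw [mem_tch] at he
  rcases he.2 with h | h
  · exact h
  · exact (G.s_mem_clF_iff he.1).mpr h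

theorem con_both {ω : Finset E} {U : Finset V} (h : G.con ω U) {e : E} (he : e ∈ ω) :
    G.s e ∈ G.clF ω U ∧ G.t e ∈ G.clF ω U :=
  ⟨h e he, (G.s_mem_clF_iff he).mp (h e he)⟩

/-- adding edges off the cluster does not change it -/
theorem clF_union {ω₁ ω₂ : Finset E} {U : Finset V}
    (h : ∀ e ∈ ω₂, G.s e ∉ G.clF ω₁ U ∧ G.t e ∉ G.clF ω₁ U) :
    G.clF (ω₁ ∪ ω₂) U = G.clF ω₁ U := by
  apply Finset.Subset.antisymm
  · refine G.clF_subset_of_closed (G.subset_clF _ _) fun e he => ?_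
    rcases Finset.mem_union.mp he with h1 | h1
    · exact G.s_mem_clF_iff h1
    · have := h e h1
      tauto
  · exact G.clF_mono Finset.subset_union_left (Finset.Subset.refl U)

theorem tch_union {ω₁ ω₂ : Finset E} {U : Finset V} (hc : G.con ω₁ U)
    (h : ∀ e ∈ ω₂, G.s e ∉ G.clF ω₁ U ∧ G.t e ∉ G.clF ω₁ U) :
    G.tch (ω₁ ∪ ω₂) (G.clF ω₁ U) = ω₁ := by
  ext e
  rw [mem_tch, Finset.mem_union]
  constructor
  · rintro ⟨h1 | h1, h2⟩
    · exact h1
    · have := h e h1; tauto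
  · intro h1
    exact ⟨Or.inl h1, Or.inl (hc e h1)⟩

theorem off_union {ω₁ ω₂ : Finset E} {U : Finset V} (hc : G.con ω₁ U)
    (h : ∀ e ∈ ω₂, G.s e ∉ G.clF ω₁ U ∧ G.t e ∉ G.clF ω₁ U) :
    G.off (ω₁ ∪ ω₂) (G.clF ω₁ U) = ω₂ := by
  ext e
  rw [mem_off, Finset.mem_union]
  constructor
  · rintro ⟨h1 | h1, h2, _⟩
    · exact absurd (hc e h1) h2
    · exact h1
  · intro h1
    exact ⟨Or.inr h1, h e h1⟩

variable (G)

open Classical in
/-- splitting a configuration into the part touching the cluster and the rest -/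
theorem sum_split (F : Finset E) (U : Finset V) (f : Finset E → ℝ) :
    ∑ ω ∈ F.powerset, f ω = ∑ ω₁ ∈ F.powerset with G.con ω₁ U,
      ∑ ω₂ ∈ (G.off F (G.clF ω₁ U)).powerset, f (ω₁ ∪ ω₂) := by
  rw [Finset.sum_sigma']
  refine Finset.sum_bij' (fun ω _ => (⟨G.tch ω (G.clF ω U), G.off ω (G.clF ω U)⟩ :
      (_ : Finset E) × Finset E)) (fun p _ => p.1 ∪ p.2) ?_ ?_ ?_ ?_ ?_
  · intro ω hω
    have hω' := Finset.mem_powerset.mp hω
    rw [Finset.mem_sigma, Finset.mem_filter, Finset.mem_powerset, Finset.mem_powerset]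
    refine ⟨⟨fun e he => hω' (mem_tch.mp he).1, con_tch ω U⟩, fun e he => ?_⟩
    simp only at he ⊢
    rw [clF_tch]
    rw [mem_off] at he ⊢
    exact ⟨hω' he.1, he.2⟩
  · intro p hp
    rw [Finset.mem_sigma, Finset.mem_filter, Finset.mem_powerset, Finset.mem_powerset] at hp
    rw [Finset.mem_powerset]
    exact Finset.union_subset hp.1.1 (fun e he => (mem_off.mp (hp.2 he)).1)
  · intro ω hω
    exact tch_union_off ω _
  · intro p hp
    rw [Finset.mem_sigma, Finset.mem_filter, Finset.mem_powerset, Finset.mem_powerset] at hp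
    have h1 : ∀ e ∈ p.2, G.s e ∉ G.clF p.1 U ∧ G.t e ∉ G.clF p.1 U := fun e he =>
      (mem_off.mp (hp.2 he)).2
    have h2 := clF_union h1
    have h3 := tch_union hp.1.2 h1
    have h4 := off_union hp.1.2 h1
    obtain ⟨p1, p2⟩ := p
    simp only at *
    rw [h2, h3, h4]
  · intro ω hω
    simp only
    rw [tch_union_off]

/-- factorisation of the Bernoulli weight -/
theorem bw_split (w : E → ℝ) {F ω₁ ω₂ : Finset E} {U : Finset V} (h1 : ω₁ ⊆ F)
    (hc : G.con ω₁ U) (h2 : ω₂ ⊆ G.off F (G.clF ω₁ U)) :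
    bw w F (ω₁ ∪ ω₂) = bw w (G.tch F (G.clF ω₁ U)) ω₁ * bw w (G.off F (G.clF ω₁ U)) ω₂ := by
  have hd : Disjoint ω₁ ω₂ := by
    rw [Finset.disjoint_left]
    intro e h3 h4
    exact (mem_off.mp (h2 h4)).2.1 (hc e h3)
  have hF : F \ (ω₁ ∪ ω₂) = (G.tch F (G.clF ω₁ U) \ ω₁) ∪ (G.off F (G.clF ω₁ U) \ ω₂) := by
    ext e
    simp only [Finset.mem_sdiff, Finset.mem_union, mem_tch, mem_off]
    constructor
    · rintro ⟨h3, h4⟩
      push Not at h4
      by_cases h5 : G.s e ∈ G.clF ω₁ U ∨ G.t e ∈ G.clF ω₁ U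
      · exact Or.inl ⟨⟨h3, h5⟩, h4.1⟩
      · push Not at h5
        exact Or.inr ⟨⟨h3, h5⟩, h4.2⟩
    · rintro (⟨⟨h3, h4⟩, h5⟩ | ⟨⟨h3, h4⟩, h5⟩)
      · refine ⟨h3, ?_⟩
        rintro (h6 | h6)
        · exact h5 h6
        · have := (mem_off.mp (h2 h6)).2; tauto
      · refine ⟨h3, ?_⟩
        rintro (h6 | h6)
        · exact h4.1 (hc e h6)
        · exact h5 h6
  have hd' : Disjoint (G.tch F (G.clF ω₁ U) \ ω₁) (G.off F (G.clF ω₁ U) \ ω₂) :=
    Finset.disjoint_of_subset_left Finset.sdiff_subset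
      (Finset.disjoint_of_subset_right Finset.sdiff_subset (disj_tch_off F _))
  rw [bw, bw, bw, hF, Finset.prod_union hd, Finset.prod_union hd']
  ring

/-- splitting of the source condition -/
theorem bd_split {ω₁ ω₂ η₁ η₂ : Finset E} {U : Finset V} {F : Finset E} (A : V → ZMod 2)
    (hc : G.con ω₁ U) (h2 : ω₂ ⊆ G.off F (G.clF ω₁ U)) (h3 : η₁ ⊆ ω₁) (h4 : η₂ ⊆ ω₂) :
    G.bd (η₁ ∪ η₂) = A ↔ (∀ v ∈ G.clF ω₁ U, G.bd η₁ v = A v) ∧
      G.bd η₂ = (fun v => if v ∈ G.clF ω₁ U then 0 else A v) := by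
  have hd : Disjoint η₁ η₂ := by
    rw [Finset.disjoint_left]
    intro e h5 h6
    exact (mem_off.mp (h2 (h4 h6))).2.1 (hc e (h3 h5))
  have hz1 : ∀ v ∉ G.clF ω₁ U, G.bd η₁ v = 0 := by
    intro v hv
    refine G.bd_eq_zero_of_not_touch fun e he => ?_
    have := con_both hc (h3 he)
    exact ⟨fun h => hv (h ▸ this.1), fun h => hv (h ▸ this.2)⟩
  have hz2 : ∀ v ∈ G.clF ω₁ U, G.bd η₂ v = 0 := by
    intro v hv
    refine G.bd_eq_zero_of_not_touch fun e he => ?_
    have := (mem_off.mp (h2 (h4 he))).2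
    exact ⟨fun h => this.1 (h ▸ hv), fun h => this.2 (h ▸ hv)⟩
  rw [G.bd_union hd]
  constructor
  · rintro rfl
    refine ⟨fun v hv => ?_, ?_⟩
    · rw [Pi.add_apply, hz2 v hv, add_zero]
    · funext v
      by_cases hv : v ∈ G.clF ω₁ U
      · rw [if_pos hv, hz2 v hv]
      · rw [if_neg hv, Pi.add_apply, hz1 v hv, zero_add]
  · rintro ⟨h5, h6⟩
    funext v
    rw [Pi.add_apply, h6]
    by_cases hv : v ∈ G.clF ω₁ U
    · simp only [if_pos hv, add_zero]; exact h5 v hv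
    · simp only [if_neg hv, hz1 v hv, zero_add]

end

theorem mark : S_MARK := by
  classical
  intro V E _ _ G w F A U h
  unfold MG.PS
  rw [sum_split G F U]
  refine Finset.sum_congr rfl fun ω₁ hω₁ => ?_
  rw [Finset.mem_filter, Finset.mem_powerset] at hω₁
  obtain ⟨h1, hc⟩ := hω₁
  simp only [Finset.mul_sum]
  rw [Finset.sum_comm]
  refine Finset.sum_congr rfl fun ω₂ hω₂ => ?_
  rw [Finset.mem_powerset] at hω₂
  have hd : Disjoint ω₁ ω₂ := by
    rw [Finset.disjoint_left]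
    intro e h5 h6
    exact (mem_off.mp (hω₂ h6)).2.1 (hc e h5)
  rw [Finset.sum_filter, sum_powerset_union' hd, Finset.sum_filter]
  refine Finset.sum_congr rfl fun η₁ hη₁ => ?_
  rw [Finset.mem_powerset] at hη₁
  rw [← Finset.mul_sum, ← Finset.mul_sum, Finset.sum_filter, bw_split G w h1 hc hω₂]
  by_cases hA : ∀ v ∈ G.clF ω₁ U, G.bd η₁ v = A v
  · rw [if_pos hA, Finset.mul_sum, Finset.mul_sum]
    refine Finset.sum_congr rfl fun η₂ hη₂ => ?_
    rw [Finset.mem_powerset] at hη₂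
    have h7 := bd_split G A hc hω₂ hη₁ hη₂
    by_cases h8 : G.bd η₂ = (fun v => if v ∈ G.clF ω₁ U then 0 else A v)
    · rw [if_pos (h7.mpr ⟨hA, h8⟩), if_pos h8]; ring
    · rw [if_neg (fun h9 => h8 (h7.mp h9).2), if_neg h8]; ring
  · rw [if_neg hA]
    refine Finset.sum_eq_zero fun η₂ hη₂ => ?_
    rw [Finset.mem_powerset] at hη₂
    have h7 := bd_split G A hc hω₂ hη₁ hη₂
    rw [if_neg (fun h9 => hA (h7.mp h9).1)]

theorem markl (h : S_MARK) : S_MARKL := by
  classical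
  intro V E _ _ G w F U k g
  rw [h G w F (ind U) U]
  refine Finset.sum_congr rfl fun ω₁ hω₁ => ?_
  rw [Finset.mem_filter, Finset.mem_powerset] at hω₁
  obtain ⟨h1, hc⟩ := hω₁
  have hUκ : U ⊆ G.clF ω₁ U := G.subset_clF ω₁ U
  have hA' : (fun v => if v ∈ G.clF ω₁ U then 0 else (ind U : V → ZMod 2) v) = 0 := by
    funext v
    by_cases hv : v ∈ G.clF ω₁ U
    · simp [hv]
    · have : v ∉ U := fun h => hv (hUκ h)
      simp [hv, ind, this]
  rw [hA']
  have hcond : ∀ η₁ ∈ ω₁.powerset, (∀ v ∈ G.clF ω₁ U, G.bd η₁ v = (ind U : V → ZMod 2) v) ↔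
      G.bd η₁ = ind U := by
    intro η₁ hη₁
    rw [Finset.mem_powerset] at hη₁
    constructor
    · intro h2
      funext v
      by_cases hv : v ∈ G.clF ω₁ U
      · exact h2 v hv
      · have h3 : v ∉ U := fun h => hv (hUκ h)
        rw [G.bd_eq_zero_of_not_touch (fun e he => ?_)]
        · simp [ind, h3]
        · have := con_both hc (hη₁ he)
          exact ⟨fun h => hv (h ▸ this.1), fun h => hv (h ▸ this.2)⟩
    · intro h2 v _
      rw [h2]
  rw [Finset.filter_congr hcond, mul_assoc]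
  congr 1
  rw [Finset.mul_sum]
  refine Finset.sum_congr rfl fun η₁ _ => ?_
  have h4 : G.PS w (G.off F (G.clF ω₁ U)) 0
      (fun ω₂ η₂ => k (G.clF (ω₁ ∪ ω₂) U) * g (η₁ ∪ η₂)) =
      G.PS w (G.off F (G.clF ω₁ U)) 0 (fun _ η₂ => k (G.clF ω₁ U) * g (η₁ ∪ η₂)) := by
    refine G.PS_congr 0 (fun _ _ => rfl) fun ω₂ hω₂ η₂ _ _ => ?_
    rw [clF_union fun e he => (mem_off.mp (hω₂ he)).2]
  rw [h4, G.PS_smul, G.PS_eta]

end Pool.Agent.TH897.J451
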