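import Pool.Agent.TH897.J451

/-!
# Exploration Markov property (job 452 of helper981, MP_f0ab88_pr)
-/

set_option autoImplicit false
set_option linter.unusedSectionVars false

open Pool.Agent.TH981.LO
open scoped BigOperators symmDiff MeasureTheory

namespace Pool.Agent.TH897.J452

open Pool.Agent.TH897.J451

open Classical in
theorem sum_expl {V E : Type} [DecidableEq V] [DecidableEq E] (G : MG V E) (F N : Finset E)
    (U : Finset V) (f : Finset E → ℝ) :
    ∑ η ∈ F.powerset, f η = ∑ ζ ∈ (F \ N).powerset with G.con ζ U,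
      ∑ η' ∈ (F \ G.tch (F \ N) (G.clF ζ U)).powerset, f (ζ ∪ η') := by
  rw [Finset.sum_sigma']
  refine Finset.sum_bij' (fun η _ => (⟨G.tch (η \ N) (G.clF (η \ N) U),
      η \ G.tch (η \ N) (G.clF (η \ N) U)⟩ : (_ : Finset E) × Finset E))
    (fun p _ => p.1 ∪ p.2) ?_ ?_ ?_ ?_ ?_
  · intro η hη
    have hη' := Finset.mem_powerset.mp hη
    rw [Finset.mem_sigma, Finset.mem_filter, Finset.mem_powerset, Finset.mem_powerset]
    refine ⟨⟨fun e he => ?_, con_tch _ U⟩, fun e he => ?_⟩
    · have := (mem_tch.mp he).1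
      rw [Finset.mem_sdiff] at this ⊢
      exact ⟨hη' this.1, this.2⟩
    · simp only at he ⊢
      rw [clF_tch]
      rw [Finset.mem_sdiff] at he ⊢
      refine ⟨hη' he.1, fun h => he.2 ?_⟩
      rw [mem_tch, Finset.mem_sdiff] at h ⊢
      exact ⟨⟨he.1, h.1.2⟩, h.2⟩
  · intro p hp
    rw [Finset.mem_sigma, Finset.mem_filter, Finset.mem_powerset, Finset.mem_powerset] at hp
    rw [Finset.mem_powerset]
    exact Finset.union_subset (hp.1.1.trans Finset.sdiff_subset) (hp.2.trans Finset.sdiff_subset)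
  · intro η hη
    simp only
    refine Finset.union_sdiff_of_subset fun e he => ?_
    exact (Finset.mem_sdiff.mp (mem_tch.mp he).1).1
  · intro p hp
    rw [Finset.mem_sigma, Finset.mem_filter, Finset.mem_powerset, Finset.mem_powerset] at hp
    obtain ⟨⟨h1, hc⟩, h2⟩ := hp
    obtain ⟨ζ, η'⟩ := p
    simp only at *
    have h3 : (ζ ∪ η') \ N = ζ ∪ (η' \ N) := by
      rw [Finset.union_sdiff_distrib]
      congr 1
      rw [Finset.sdiff_eq_self_iff_disjoint, Finset.disjoint_left]
      intro e he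
      exact (Finset.mem_sdiff.mp (h1 he)).2
    have h4 : ∀ e ∈ η' \ N, G.s e ∉ G.clF ζ U ∧ G.t e ∉ G.clF ζ U := by
      intro e he
      rw [Finset.mem_sdiff] at he
      have h5 := Finset.mem_sdiff.mp (h2 he.1)
      rw [mem_tch, Finset.mem_sdiff] at h5
      by_contra h6
      exact h5.2 ⟨⟨h5.1, he.2⟩, by tauto⟩
    have h5 : η' ∩ ζ = ∅ := by
      rw [← Finset.disjoint_iff_inter_eq_empty, Finset.disjoint_left]
      intro e he he'
      have h6 := Finset.mem_sdiff.mp (h2 he)
      exact h6.2 (mem_tch.mpr ⟨h1 he', Or.inl (hc e he')⟩)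
    have h6 : (ζ ∪ η') \ ζ = η' := by
      rw [Finset.union_sdiff_left, Finset.sdiff_eq_self_iff_disjoint,
        Finset.disjoint_iff_inter_eq_empty, h5]
    rw [h3, clF_union h4, tch_union hc h4, h6]
  · intro η hη
    simp only
    rw [Finset.union_sdiff_of_subset fun e he => ?_]
    exact (Finset.mem_sdiff.mp (mem_tch.mp he).1).1

theorem expl : S_EXPL := by
  classical
  intro V E _ _ G w F N A U g
  rw [G.L_eq_ite_338, sum_expl G F N U]
  refine Finset.sum_congr rfl fun ζ hζ => ?_
  rw [Finset.mem_filter, Finset.mem_powerset] at hζ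
  obtain ⟨h1, hc⟩ := hζ
  rw [G.L_eq_ite_338, Finset.mul_sum]
  refine Finset.sum_congr rfl fun η' hη' => ?_
  rw [Finset.mem_powerset] at hη'
  have hd : Disjoint ζ η' := by
    rw [Finset.disjoint_left]
    intro e he he'
    have h6 := Finset.mem_sdiff.mp (hη' he')
    exact h6.2 (mem_tch.mpr ⟨h1 he, Or.inl (hc e he)⟩)
  rw [G.bd_union hd, MG.add_eq_iff_eq_add_338, Finset.prod_union hd]
  by_cases h : G.bd η' = A + G.bd ζ
  · rw [if_pos h, if_pos h, mul_assoc]
  · rw [if_neg h, if_neg h, mul_zero]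

end Pool.Agent.TH897.J452
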