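import Pool.Agent.TH897.J451

/-!
# Truncated correlations (job 454 of helper981, MP_f0ab88_pr)
-/

set_option autoImplicit false
set_option linter.unusedSectionVars false

open Pool.Agent.TH981.LO
open scoped BigOperators symmDiff MeasureTheory

namespace Pool.Agent.TH897.J454

open Pool.Agent.TH897.J451

variable {V E : Type} [DecidableEq V] [DecidableEq E] (G : MG V E)

/-- union bound for the connection events -/
theorem union_bound {w : E → ℝ} {F : Finset E} (hw0 : ∀ e ∈ F, 0 ≤ w e) (hw1 : ∀ e ∈ F, w e ≤ 1)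
    (A : Finset V) (y z : V) :
    G.fkp w F (fun ω => ∃ a ∈ A, G.Cn ω a y ∨ G.Cn ω a z) ≤
      ∑ a ∈ A, (G.corr w F (two a y) + G.corr w F (two a z)) := by
  induction A using Finset.induction_on with
  | empty =>
    have h1 : G.fkp w F (fun ω => ∃ a ∈ (∅ : Finset V), G.Cn ω a y ∨ G.Cn ω a z) = 0 := by
      unfold MG.fkp MG.PS
      simp
    rw [h1]; simp
  | insert a A ha ih =>
    rw [Finset.sum_insert ha]
    have h1 : G.fkp w F (fun ω => ∃ b ∈ insert a A, G.Cn ω b y ∨ G.Cn ω b z) ≤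
        G.fkp w F (fun ω => (G.Cn ω a y ∨ G.Cn ω a z) ∨ ∃ b ∈ A, G.Cn ω b y ∨ G.Cn ω b z) := by
      refine G.fkp_imp hw0 hw1 fun ω _ h => ?_
      obtain ⟨b, hb, h⟩ := h
      rcases Finset.mem_insert.mp hb with rfl | hb
      · exact Or.inl h
      · exact Or.inr ⟨b, hb, h⟩
    refine h1.trans ((G.fkp_or _ _ hw0 hw1).trans (add_le_add ?_ ih))
    refine (G.fkp_or _ _ hw0 hw1).trans (add_le_add ?_ ?_)
    · rw [G.corr_eq_fkp]
      exact G.fkp_imp hw0 hw1 fun ω _ h => G.fe_two_iff.mpr h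
    · rw [G.corr_eq_fkp]
      exact G.fkp_imp hw0 hw1 fun ω _ h => G.fe_two_iff.mpr h

theorem trunc (h1 : S_MARK) (h2 : S_CMONO) : S_TRUNC := by
  classical
  intro V E _ _ G w F A y z hw0 hw1
  have hZ : 0 < G.Z w F 0 := lt_of_lt_of_le one_pos (G.one_le_Z_zero hw0)
  set B : V → ZMod 2 := ind A + two y z with hB
  let bad : Finset V → Prop := fun κ => y ∈ κ ∨ z ∈ κ
  -- splitting
  have e1 : G.Z w F B = G.PS w F B (fun ω _ => if bad (G.clF ω A) then 1 else 0) +
      G.PS w F B (fun ω _ => if bad (G.clF ω A) then 0 else 1) := by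
    rw [← G.PS_add]
    have : G.Z w F B = G.PS w F B (fun _ _ => 1) := (G.PS_eta w F B fun _ => 1).symm
    rw [this]
    refine G.PS_congr B (fun _ _ => rfl) fun ω _ η _ _ => ?_
    split_ifs <;> simp
  -- the bad part
  have e2 : G.PS w F B (fun ω _ => if bad (G.clF ω A) then 1 else 0) ≤
      (∑ a ∈ A, (G.corr w F (two a y) + G.corr w F (two a z))) * G.Z w F 0 := by
    rw [← div_le_iff₀ hZ]
    refine le_trans ?_ (union_bound G hw0 hw1 A y z)
    unfold MG.fkp
    refine div_le_div_of_nonneg_right ?_ hZ.le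
    rw [G.PS_omega]
    refine G.PS_mono 0 hw0 hw1 fun ω _ η _ _ => ?_
    by_cases hb : bad (G.clF ω A)
    · have h3 : ∃ a ∈ A, G.Cn ω a y ∨ G.Cn ω a z := by
        rcases hb with hb | hb
        · obtain ⟨a, ha, h⟩ := G.mem_clF.mp hb
          exact ⟨a, ha, Or.inl h⟩
        · obtain ⟨a, ha, h⟩ := G.mem_clF.mp hb
          exact ⟨a, ha, Or.inr h⟩
      rw [if_pos h3, if_pos hb]
      split_ifs <;> norm_num
    · rw [if_neg hb, ite_self]
      split_ifs <;> norm_num
  -- the good part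
  have e3 : G.PS w F B (fun ω _ => if bad (G.clF ω A) then 0 else 1) ≤
      G.corr w F (two y z) * G.Z w F (ind A) := by
    have e4 : G.Z w F (ind A) = G.PS w F (ind A) (fun _ _ => 1) :=
      (G.PS_eta w F (ind A) fun _ => 1).symm
    rw [e4, h1 G w F B A, h1 G w F (ind A) A, Finset.mul_sum]
    refine Finset.sum_le_sum fun ω₁ hω₁ => ?_
    rw [Finset.mem_filter, Finset.mem_powerset] at hω₁
    obtain ⟨h3, hc⟩ := hω₁
    set κ := G.clF ω₁ A with hκ
    have hAκ : A ⊆ κ := G.subset_clF ω₁ A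
    have htch : ω₁ ⊆ G.tch F κ := fun e he => mem_tch.mpr ⟨h3 he, Or.inl (hc e he)⟩
    have hoff : ∀ e ∈ G.off F κ, e ∈ F := fun e he => (mem_off.mp he).1
    have hbw : 0 ≤ bw w (G.tch F κ) ω₁ :=
      MG.J339.bwnn htch (fun e he => hw0 e (mem_tch.mp he).1) (fun e he => hw1 e (mem_tch.mp he).1)
    have hind : (fun v => if v ∈ κ then 0 else (ind A : V → ZMod 2) v) = 0 := by
      funext v
      by_cases hv : v ∈ κ
      · simp [hv]
      · have : v ∉ A := fun h => hv (hAκ h)
        simp [hv, ind, this]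
    have hcorr0 : 0 ≤ G.corr w F (two y z) := G.corr_nonneg _ hw0
    have hZoff : 0 ≤ G.Z w (G.off F κ) 0 := G.Z_nonneg 0 fun e he => hw0 e (hoff e he)
    have e5 : G.PS w (G.off F κ) (fun v => if v ∈ κ then 0 else (ind A : V → ZMod 2) v)
        (fun _ _ => 1) = G.Z w (G.off F κ) 0 := by
      rw [hind]; exact G.PS_eta _ _ _ fun _ => 1
    rw [e5]
    by_cases hb : bad κ
    · have e6 : ∀ η₁ : Finset E, G.PS w (G.off F κ) (fun v => if v ∈ κ then 0 else B v)
          (fun ω₂ _ => if bad (G.clF (ω₁ ∪ ω₂) A) then (0 : ℝ) else 1) = 0 := by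
        intro η₁
        have : G.PS w (G.off F κ) (fun v => if v ∈ κ then 0 else B v)
          (fun ω₂ _ => if bad (G.clF (ω₁ ∪ ω₂) A) then (0 : ℝ) else 1) =
          G.PS w (G.off F κ) (fun v => if v ∈ κ then 0 else B v) (fun _ _ => 0) := by
          refine G.PS_congr _ (fun _ _ => rfl) fun ω₂ hω₂ η _ _ => ?_
          rw [clF_union fun e he => (mem_off.mp (hω₂ he)).2, if_pos hb]
        rw [this]
        unfold MG.PS
        simp
      simp only [e6 ∅, Finset.sum_const_zero, mul_zero]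
      exact mul_nonneg hcorr0 (mul_nonneg hbw (Finset.sum_nonneg fun _ _ => hZoff))
    · have hy : y ∉ κ := fun h => hb (Or.inl h)
      have hz : z ∉ κ := fun h => hb (Or.inr h)
      have htwo : ∀ v ∈ κ, (two y z : V → ZMod 2) v = 0 := by
        intro v hv
        have h5 : v ≠ y := fun h => hy (h ▸ hv)
        have h6 : v ≠ z := fun h => hz (h ▸ hv)
        simp [two, h5, h6]
      have hB' : (fun v => if v ∈ κ then 0 else B v) = two y z := by
        funext v
        by_cases hv : v ∈ κ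
        · rw [if_pos hv, htwo v hv]
        · have h5 : v ∉ A := fun h => hv (hAκ h)
          rw [if_neg hv, hB, Pi.add_apply]
          simp [ind, h5]
      have e6 : G.PS w (G.off F κ) (fun v => if v ∈ κ then 0 else B v)
          (fun ω₂ _ => if bad (G.clF (ω₁ ∪ ω₂) A) then (0 : ℝ) else 1) =
          G.Z w (G.off F κ) (two y z) := by
        have : G.PS w (G.off F κ) (fun v => if v ∈ κ then 0 else B v)
          (fun ω₂ _ => if bad (G.clF (ω₁ ∪ ω₂) A) then (0 : ℝ) else 1) =
          G.PS w (G.off F κ) (fun v => if v ∈ κ then 0 else B v) (fun _ _ => 1) := by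
          refine G.PS_congr _ (fun _ _ => rfl) fun ω₂ hω₂ η _ _ => ?_
          rw [clF_union fun e he => (mem_off.mp (hω₂ he)).2, if_neg hb]
        rw [this, hB']
        exact G.PS_eta _ _ _ fun _ => 1
      have hcond : ∀ η₁ ∈ ω₁.powerset, (∀ v ∈ κ, G.bd η₁ v = B v) ↔
          (∀ v ∈ κ, G.bd η₁ v = (ind A : V → ZMod 2) v) := by
        intro η₁ _
        refine forall₂_congr fun v hv => ?_
        rw [hB, Pi.add_apply, htwo v hv, add_zero]
      rw [Finset.filter_congr hcond]
      simp only [e6]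
      have e7 : G.Z w (G.off F κ) (two y z) ≤ G.corr w F (two y z) * G.Z w (G.off F κ) 0 := by
        have h7 : 0 < G.Z w (G.off F κ) 0 :=
          lt_of_lt_of_le one_pos (G.one_le_Z_zero fun e he => hw0 e (hoff e he))
        rw [← div_le_iff₀ h7]
        exact h2 G w w (G.off F κ) F (two y z) hoff (fun e he => hw0 e (hoff e he))
          (fun _ _ => le_rfl) hw0 hw1
      rw [mul_left_comm]
      refine mul_le_mul_of_nonneg_left ?_ hbw
      rw [Finset.mul_sum]
      exact Finset.sum_le_sum fun _ _ => e7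
  -- conclusion
  rw [sub_le_iff_le_add, MG.corr, div_le_iff₀ hZ, e1]
  have e8 : G.corr w F (ind A) * G.Z w F 0 = G.Z w F (ind A) := by
    rw [MG.corr, div_mul_cancel₀ _ hZ.ne']
  rw [← e8] at e3
  linarith

end Pool.Agent.TH897.J454
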