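import Pool.Agent.TH897.J457a

/-!
# High temperature expansion (job 457 of helper981, MP_f0ab88_pr)
-/

set_option autoImplicit false
set_option linter.unusedSectionVars false

open Pool.Agent.TH981.LO
open scoped BigOperators symmDiff MeasureTheory

namespace Pool.Agent.TH897.J457

variable {d : ℕ}

theorem TE_box (n : ℕ) : TE (box d n) = EH d n := by
  ext e
  rw [mem_TE, EH, Finset.mem_filter, mem_EB, mem_box, mem_box]
  constructor
  · rintro (h | h)
    · refine ⟨⟨by omega, ?_⟩, Or.inl h⟩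
      have := nm_add_le e.1 (ev e.2)
      rw [nm_ev] at this
      omega
    · refine ⟨⟨?_, by omega⟩, Or.inr h⟩
      have := nm_sub_le (e.1 + ev e.2) (ev e.2)
      rw [nm_ev, add_sub_cancel_right] at this
      omega
  · rintro ⟨-, h⟩
    exact h

theorem EB_union (n : ℕ) : EB d (n + 1) = EH d n ∪ Sh d n := by
  have h : EH d n ⊆ EB d (n + 1) := Finset.filter_subset _ _
  rw [Sh, Finset.union_sdiff_of_subset h]

theorem disj_EH_Sh (n : ℕ) : Disjoint (EH d n) (Sh d n) := Finset.disjoint_sdiff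

/-- the number of shell configurations with a given boundary -/
theorem L_shell {n : ℕ} {w : Ed d → ℝ} (hw : ∀ e ∈ Sh d n, w e = 1) {T : Finset (Ed d)}
    (hT : T ⊆ Sh d n) :
    (lat d).L w (Sh d n) ((lat d).bd T) (fun _ => 1) = (lat d).L w (Sh d n) 0 (fun _ => 1) := by
  classical
  have hsub : ∀ η : Finset (Ed d), η ⊆ Sh d n → η ∆ T ⊆ Sh d n := by
    intro η hη e he
    rw [Finset.mem_symmDiff] at he
    rcases he with he | he
    · exact hη he.1
    · exact hT he.1
  have hp : ∀ η : Finset (Ed d), η ⊆ Sh d n → ∏ e ∈ η, w e = 1 := fun η hη =>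
    Finset.prod_eq_one fun e he => hw e (hη he)
  have hinv : ∀ η : Finset (Ed d), (η ∆ T) ∆ T = η := fun η => by
    rw [symmDiff_assoc, symmDiff_self, symmDiff_bot]
  unfold MG.L
  refine Finset.sum_nbij' (fun η => η ∆ T) (fun η => η ∆ T) ?_ ?_ ?_ ?_ ?_
  · intro η hη
    rw [Finset.mem_filter, Finset.mem_powerset] at hη ⊢
    exact ⟨hsub η hη.1, by rw [MG.bd_symmDiff, hη.2, MG.zmod2_add_self_338]⟩
  · intro η hη
    rw [Finset.mem_filter, Finset.mem_powerset] at hη ⊢
    exact ⟨hsub η hη.1, by rw [MG.bd_symmDiff, hη.2, zero_add]⟩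
  · intro η _; exact hinv η
  · intro η _; exact hinv η
  · intro η hη
    rw [Finset.mem_filter, Finset.mem_powerset] at hη
    simp only
    rw [hp η hη.1, hp _ (hsub η hη.1)]

open Classical in
/-- the truncated partition function -/
noncomputable def Q (d n : ℕ) (t : ℝ) (A : Vt d → ZMod 2) : ℝ :=
  ∑ η ∈ (EH d n).powerset, if ∀ v ∈ box d n, (lat d).bd η v = A v then t ^ η.card else 0

theorem Z_ww (hd : 2 ≤ d) (n : ℕ) (t : ℝ) (A : Vt d → ZMod 2)
    (hA : ∀ v, n + 1 < nm v → A v = 0) (hA' : ∑ v ∈ box d (n + 1), A v = 0) :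
    (lat d).Z (ww d n t) (EB d (n + 1)) A =
      (lat d).L (ww d n t) (Sh d n) 0 (fun _ => 1) * Q d n t A := by
  classical
  have hw : ∀ e ∈ Sh d n, ww d n t e = 1 := fun e he => by
    rw [ww, if_neg]
    exact (Finset.mem_sdiff.mp he).2
  rw [MG.Z, EB_union, MG.L_union _ _ (disj_EH_Sh n), Q, Finset.mul_sum]
  refine Finset.sum_congr rfl fun ζ hζ => ?_
  rw [Finset.mem_powerset] at hζ
  have hprod : ∏ e ∈ ζ, ww d n t e = t ^ ζ.card := by
    rw [Finset.prod_congr rfl (g := fun _ => t) fun e he => ?_, Finset.prod_const]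
    rw [ww, if_pos (hζ he)]
  rw [hprod]
  by_cases h : ∀ v ∈ box d n, (lat d).bd ζ v = A v
  · rw [if_pos h]
    obtain ⟨T, hT, hT'⟩ := exists_shell hd (n := n) (A + (lat d).bd ζ) (by
      intro v hv
      rw [Pi.add_apply]
      rcases lt_or_gt_of_ne hv with h1 | h1
      · rw [h v (mem_box.mpr (by omega))]
        exact CharTwo.add_self_eq_zero _
      · rw [hA v h1, zero_add]
        refine MG.bd_eq_zero_of_not_touch _ fun e he => ?_
        have h2 := (Finset.mem_filter.mp (hζ he)).1
        rw [mem_EB] at h2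
        rw [lat_s, lat_t]
        refine ⟨?_, ?_⟩
        · rintro rfl; omega
        · rintro rfl; omega) (by
      simp only [Pi.add_apply]
      rw [Finset.sum_add_distrib, hA', zero_add]
      refine MG.sum_bd_eq_zero _ fun e he => ?_
      have h2 := (Finset.mem_filter.mp (hζ he)).1
      rw [mem_EB] at h2
      rw [lat_s, lat_t, mem_box, mem_box]
      exact h2)
    rw [← hT', L_shell hw hT]
    ring
  · rw [if_neg h, mul_zero]
    push Not at h
    obtain ⟨v, hv, hne⟩ := h
    have h1 : (lat d).L (ww d n t) (Sh d n) (A + (lat d).bd ζ) (fun _ => 1) = 0 := by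
      unfold MG.L
      rw [Finset.filter_false_of_mem, Finset.sum_empty]
      intro η hη hbd
      rw [Finset.mem_powerset] at hη
      have h2 : (lat d).bd η v = 0 := by
        refine MG.bd_eq_zero_of_not_touch _ fun e he => ?_
        have h3 := mem_Sh.mp (hη he)
        rw [mem_box] at hv
        rw [lat_s, lat_t]
        refine ⟨?_, ?_⟩
        · rintro rfl; omega
        · rintro rfl; omega
      have h3 := congrFun hbd v
      rw [h2, Pi.add_apply] at h3
      apply hne
      calc (lat d).bd ζ v = A v + A v + (lat d).bd ζ v := by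
            rw [CharTwo.add_self_eq_zero, zero_add]
        _ = A v + (A v + (lat d).bd ζ v) := by ring
        _ = A v := by rw [← h3, add_zero]
    rw [h1, mul_zero]

/-- the sign character of `ZMod 2` -/
noncomputable def sg (z : ZMod 2) : ℝ := if z = 0 then 1 else -1

theorem zmod2_cases (z : ZMod 2) : z = 0 ∨ z = 1 := by revert z; decide

theorem sg_add (a b : ZMod 2) : sg (a + b) = sg a * sg b := by
  have h11 : (1 : ZMod 2) + 1 = 0 := by decide
  rcases zmod2_cases a with rfl | rfl <;> rcases zmod2_cases b with rfl | rfl <;> simp [sg, h11]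

theorem sg_sum {ι : Type*} (s : Finset ι) (f : ι → ZMod 2) :
    sg (∑ i ∈ s, f i) = ∏ i ∈ s, sg (f i) := by
  classical
  induction s using Finset.induction_on with
  | empty => simp [sg]
  | insert i s hi ih => rw [Finset.sum_insert hi, Finset.prod_insert hi, sg_add, ih]

theorem spin_eq (M : Finset (Vt d)) (v : Vt d) :
    spin M v = sg (∑ u ∈ M, (Pi.single v (1 : ZMod 2) : Vt d → ZMod 2) u) := by
  simp only [Pi.single_apply]
  rw [Finset.sum_ite_eq']
  by_cases h : v ∈ M <;> simp [spin, sg, h]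

theorem spin_edge (M : Finset (Vt d)) (e : Ed d) :
    spin M e.1 * spin M (e.1 + ev e.2) = sg (∑ v ∈ M, (lat d).inc e v) := by
  rw [spin_eq, spin_eq, ← sg_add, ← Finset.sum_add_distrib]
  rfl

theorem sum_sg (s : Finset (Vt d)) (χ : Vt d → ZMod 2) [Decidable (∀ v ∈ s, χ v = 0)] :
    ∑ M ∈ s.powerset, sg (∑ v ∈ M, χ v) = if ∀ v ∈ s, χ v = 0 then 2 ^ s.card else 0 := by
  classical
  simp_rw [sg_sum]
  rw [← Finset.prod_one_add]
  split_ifs with h
  · rw [Finset.prod_congr rfl (g := fun _ => (2 : ℝ)) fun v hv => ?_, Finset.prod_const]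
    rw [h v hv]; norm_num [sg]
  · push Not at h
    obtain ⟨v, hv, hne⟩ := h
    refine Finset.prod_eq_zero hv ?_
    rw [sg, if_neg hne]; ring

theorem exp_sg (β : ℝ) (z : ZMod 2) :
    Real.exp (β * sg z) = Real.cosh β * (1 + Real.tanh β * sg z) := by
  have hc : Real.cosh β ≠ 0 := (Real.cosh_pos β).ne'
  rw [Real.tanh_eq_sinh_div_cosh]
  rcases zmod2_cases z with rfl | rfl
  · simp only [sg, if_pos]
    rw [mul_one, mul_one, mul_add, mul_one, mul_div_cancel₀ _ hc, Real.cosh_add_sinh]
  · simp only [sg, one_ne_zero, if_false]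
    have : Real.cosh β * (1 + Real.sinh β / Real.cosh β * -1) = Real.cosh β - Real.sinh β := by
      field_simp
      ring
    rw [this, Real.cosh_sub_sinh, mul_neg, mul_one]

theorem isingW_eq (β : ℝ) (n : ℕ) (M : Finset (Vt d)) :
    isingW d β n M = Real.cosh β ^ (EH d n).card *
      ∑ η ∈ (EH d n).powerset, Real.tanh β ^ η.card * sg (∑ v ∈ M, (lat d).bd η v) := by
  classical
  rw [isingW, TE_box, Finset.mul_sum, Real.exp_sum]
  simp_rw [spin_edge, exp_sg]
  rw [Finset.prod_mul_distrib, Finset.prod_const, Finset.prod_one_add]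
  congr 1
  refine Finset.sum_congr rfl fun η _ => ?_
  rw [Finset.prod_mul_distrib, Finset.prod_const, ← sg_sum, Finset.sum_comm]
  congr 3
  funext v
  rw [MG.bd, Finset.sum_apply]

theorem sum_ising (β : ℝ) (n : ℕ) (A : Vt d → ZMod 2) :
    ∑ M ∈ (box d n).powerset, sg (∑ v ∈ M, A v) * isingW d β n M =
      Real.cosh β ^ (EH d n).card * 2 ^ (box d n).card * Q d n (Real.tanh β) A := by
  classical
  simp_rw [isingW_eq]
  have h1 : ∀ M ∈ (box d n).powerset, sg (∑ v ∈ M, A v) * (Real.cosh β ^ (EH d n).card *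
      ∑ η ∈ (EH d n).powerset, Real.tanh β ^ η.card * sg (∑ v ∈ M, (lat d).bd η v)) =
      ∑ η ∈ (EH d n).powerset, Real.cosh β ^ (EH d n).card * (Real.tanh β ^ η.card *
        sg (∑ v ∈ M, (A v + (lat d).bd η v))) := by
    intro M _
    rw [Finset.mul_sum, Finset.mul_sum]
    refine Finset.sum_congr rfl fun η _ => ?_
    rw [Finset.sum_add_distrib, sg_add]
    ring
  rw [Finset.sum_congr rfl h1, Finset.sum_comm, Q, Finset.mul_sum]
  refine Finset.sum_congr rfl fun η _ => ?_
  rw [← Finset.mul_sum, ← Finset.mul_sum, sum_sg]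
  have h2 : (∀ v ∈ box d n, A v + (lat d).bd η v = 0) ↔ ∀ v ∈ box d n, (lat d).bd η v = A v := by
    refine forall₂_congr fun v _ => ?_
    rw [CharTwo.add_eq_zero, eq_comm]
  by_cases h : ∀ v ∈ box d n, (lat d).bd η v = A v
  · rw [if_pos (h2.mpr h), if_pos h]; ring
  · rw [if_neg (fun h' => h (h2.mp h')), if_neg h]; ring

theorem Q_congr (n : ℕ) (t : ℝ) {A B : Vt d → ZMod 2} (h : ∀ v ∈ box d n, A v = B v) :
    Q d n t A = Q d n t B := by
  classical
  unfold Q
  refine Finset.sum_congr rfl fun η _ => ?_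
  have h2 : (∀ v ∈ box d n, (lat d).bd η v = A v) ↔ ∀ v ∈ box d n, (lat d).bd η v = B v :=
    forall₂_congr fun v hv => by rw [h v hv]
  by_cases h' : ∀ v ∈ box d n, (lat d).bd η v = A v
  · rw [if_pos h', if_pos (h2.mp h')]
  · rw [if_neg h', if_neg (fun h'' => h' (h2.mpr h''))]

theorem mageq (d : ℕ) (hd : 2 ≤ d) : S_MAGEQ d := by
  classical
  intro β n _
  set t := Real.tanh β with ht
  have hg : nm (gh d n) = n + 1 := nm_gh n hd
  have h0box : (0 : Vt d) ∈ box d n := by rw [mem_box, nm_zero]; exact Nat.zero_le _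
  -- numerator
  have h1 : ∑ M ∈ (box d n).powerset, spin M 0 * isingW d β n M =
      Real.cosh β ^ (EH d n).card * 2 ^ (box d n).card * Q d n t (two 0 (gh d n)) := by
    have : Q d n t (two 0 (gh d n)) = Q d n t (Pi.single 0 1) := by
      refine Q_congr n t fun v hv => ?_
      have hne : v ≠ gh d n := by
        rintro rfl
        rw [mem_box, hg] at hv
        omega
      simp [two, hne]
    rw [this, ← sum_ising]
    exact Finset.sum_congr rfl fun M _ => by rw [spin_eq]
  have h2 : ∑ M ∈ (box d n).powerset, isingW d β n M =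
      Real.cosh β ^ (EH d n).card * 2 ^ (box d n).card * Q d n t 0 := by
    rw [← sum_ising]
    refine Finset.sum_congr rfl fun M _ => ?_
    simp [sg]
  have hA1 : ∀ v, n + 1 < nm v → (two 0 (gh d n) : Vt d → ZMod 2) v = 0 := by
    intro v hv
    have h3 : v ≠ 0 := by rintro rfl; rw [nm_zero] at hv; omega
    have h4 : v ≠ gh d n := by rintro rfl; rw [hg] at hv; omega
    simp [two, h3, h4]
  have hA2 : ∑ v ∈ box d (n + 1), (two 0 (gh d n) : Vt d → ZMod 2) v = 0 := by
    simp only [two, Pi.add_apply, Pi.single_apply]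
    rw [Finset.sum_add_distrib, Finset.sum_ite_eq', Finset.sum_ite_eq', if_pos, if_pos]
    · exact CharTwo.add_self_eq_zero _
    · rw [mem_box, hg]
    · rw [mem_box, nm_zero]; exact Nat.zero_le _
  have hc : (lat d).L (ww d n t) (Sh d n) 0 (fun _ => 1) ≠ 0 := by
    have := (lat d).one_le_Z_zero (w := ww d n t) (F := Sh d n) (fun e he => by
      rw [ww, if_neg (Finset.mem_sdiff.mp he).2]; exact zero_le_one)
    exact (lt_of_lt_of_le one_pos this).ne'
  have hK : Real.cosh β ^ (EH d n).card * 2 ^ (box d n).card ≠ 0 := by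
    have := Real.cosh_pos β
    positivity
  rw [magPlus, h1, h2, mul_div_mul_left _ _ hK, mw, MG.corr,
    Z_ww hd n t _ hA1 hA2, Z_ww hd n t 0 (fun _ _ => rfl) (by simp), mul_div_mul_left _ _ hc]

end Pool.Agent.TH897.J457
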