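import Pool.Agent.TH981.LO.Bas

/-!
# The sphere is connected by shell edges (jobs 457, 458 of helper981, MP_f0ab88_pr)
-/

set_option autoImplicit false
set_option linter.unusedSectionVars false

open Pool.Agent.TH981.LO
open scoped BigOperators symmDiff MeasureTheory

namespace Pool.Agent.TH897.J457

variable {d : ℕ}

/-- the shell edges -/
noncomputable def Sh (d n : ℕ) : Finset (Ed d) := EB d (n + 1) \ EH d n

theorem mem_Sh {n : ℕ} {e : Ed d} : e ∈ Sh d n ↔ nm e.1 = n + 1 ∧ nm (e.1 + ev e.2) = n + 1 := by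
  rw [Sh, Finset.mem_sdiff, EH, Finset.mem_filter, mem_EB]
  constructor
  · rintro ⟨⟨h1, h2⟩, h3⟩
    have h4 : ¬ (nm e.1 ≤ n ∨ nm (e.1 + ev e.2) ≤ n) := fun h => h3 ⟨⟨h1, h2⟩, h⟩
    push Not at h4
    omega
  · rintro ⟨h1, h2⟩
    refine ⟨⟨h1.le, h2.le⟩, ?_⟩
    rintro ⟨-, h3⟩
    omega

theorem nm_le_of_348 {N : ℕ} {v : Vt d} (h : ∀ i, (v i).natAbs ≤ N) : nm v ≤ N := nm_le_iff.mpr h

theorem nm_gh (n : ℕ) (hd : 2 ≤ d) : nm (gh d n) = n + 1 := by
  apply le_antisymm
  · rw [nm_le_iff]
    intro i
    simp only [gh]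
    omega
  · have := natAbs_le_nm_340 (gh d n) ⟨0, by omega⟩
    simp only [gh] at this
    omega

/-- a direction in which one can go up on the sphere -/
theorem exists_dir (hd : 2 ≤ d) {N : ℕ} {v : Vt d} (hv : nm v = N)
    (hne : ∃ j, v j ≠ N) : ∃ i j, i ≠ j ∧ v j < N ∧ (v i).natAbs = N := by
  have hle : ∀ i, (v i).natAbs ≤ N := nm_le_iff.mp hv.le
  obtain ⟨i, hi⟩ : ∃ i, (v i).natAbs = N := by
    by_contra hcon
    push Not at hcon
    have hN : 0 < N := by
      rcases Nat.eq_zero_or_pos N with h | h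
      · exfalso
        have := hcon ⟨0, by omega⟩
        have := hle ⟨0, by omega⟩
        omega
      · exact h
    have : nm v ≤ N - 1 := nm_le_iff.mpr fun i => by
      have := hcon i; have := hle i; omega
    omega
  by_cases h : ∃ j, j ≠ i ∧ v j < N
  · obtain ⟨j, hj, hj'⟩ := h
    exact ⟨i, j, hj.symm, hj', hi⟩
  · push Not at h
    obtain ⟨j, hj⟩ := hne
    have hji : j = i := by
      by_contra hji
      have h1 := h j hji
      have h2 := hle j
      omega
    subst hji
    obtain ⟨k, hk⟩ : ∃ k : Fin d, k ≠ j := by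
      haveI : Nontrivial (Fin d) := Fin.nontrivial_iff_two_le.mpr hd
      exact exists_ne j
    have h1 := h k hk
    have h2 := hle k
    have h3 := hle j
    exact ⟨k, j, hk, by omega, by omega⟩

/-- every vertex of the sphere is connected to `gh` by shell edges -/
theorem sphere_conn (hd : 2 ≤ d) (n : ℕ) : ∀ (m : ℕ) (v : Vt d), nm v = n + 1 →
    ∑ i, (((n : ℤ) + 1) - v i).toNat = m → (lat d).Cn (Sh d n) v (gh d n) := by
  intro m
  induction m with
  | zero =>
    intro v hv hm
    rw [Finset.sum_eq_zero_iff] at hm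
    have hle : ∀ i, (v i).natAbs ≤ n + 1 := nm_le_iff.mp hv.le
    have : v = gh d n := by
      funext i
      have h1 := hm i (Finset.mem_univ i)
      have h2 := hle i
      simp only [gh]
      omega
    rw [this]
    exact Relation.ReflTransGen.refl
  | succ m ih =>
    intro v hv hm
    have hle : ∀ i, (v i).natAbs ≤ n + 1 := nm_le_iff.mp hv.le
    have hne : ∃ j, v j ≠ ((n + 1 : ℕ) : ℤ) := by
      by_contra hcon
      push Not at hcon
      have : ∑ i, (((n : ℤ) + 1) - v i).toNat = 0 := by
        refine Finset.sum_eq_zero fun i _ => ?_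
        have := hcon i
        push_cast at this
        omega
      omega
    obtain ⟨i, j, hij, hj, hi⟩ := exists_dir hd hv hne
    push_cast at hj
    have hv' : nm (v + ev j) = n + 1 := by
      apply le_antisymm
      · rw [nm_le_iff]
        intro k
        have := hle k
        by_cases hk : k = j
        · subst hk
          simp only [ev, Pi.add_apply, Pi.single_eq_same]
          omega
        · simp only [ev, Pi.add_apply, Pi.single_eq_of_ne hk]
          omega
      · have := natAbs_le_nm_340 (v + ev j) i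
        simp only [ev, Pi.add_apply, Pi.single_eq_of_ne hij] at this
        simp only [ev]
        omega
    have hsum : ∑ k, (((n : ℤ) + 1) - (v + ev j) k).toNat = m := by
      rw [← Finset.add_sum_erase _ _ (Finset.mem_univ j)] at hm ⊢
      have h1 : ∑ x ∈ Finset.univ.erase j, (((n : ℤ) + 1) - (v + ev j) x).toNat =
          ∑ x ∈ Finset.univ.erase j, (((n : ℤ) + 1) - v x).toNat := by
        refine Finset.sum_congr rfl fun x hx => ?_
        have : x ≠ j := (Finset.mem_erase.mp hx).1
        simp only [ev, Pi.add_apply, Pi.single_eq_of_ne this, add_zero]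
      rw [h1]
      simp only [ev, Pi.add_apply, Pi.single_eq_same]
      omega
    refine Relation.ReflTransGen.head ?_ (ih (v + ev j) hv' hsum)
    exact ⟨(v, j), mem_Sh.mpr ⟨hv, hv'⟩, Or.inl ⟨rfl, rfl⟩⟩

theorem sphere_conn' (hd : 2 ≤ d) {n : ℕ} {v : Vt d} (hv : nm v = n + 1) :
    (lat d).Cn (Sh d n) v (gh d n) := sphere_conn hd n _ v hv rfl

/-- a function on the sphere with sum zero is the boundary of a set of shell edges -/
theorem exists_shell (hd : 2 ≤ d) {n : ℕ} (B : Vt d → ZMod 2)
    (hB : ∀ v, nm v ≠ n + 1 → B v = 0) (hsum : ∑ v ∈ box d (n + 1), B v = 0) :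
    ∃ T ⊆ Sh d n, (lat d).bd T = B := by
  classical
  -- subsets of the sphere
  have key : ∀ W : Finset (Vt d), (∀ v ∈ W, nm v = n + 1) →
      ∃ T ⊆ Sh d n, (lat d).bd T = ∑ v ∈ W, two v (gh d n) := by
    intro W
    induction W using Finset.induction_on with
    | empty => intro _; exact ⟨∅, Finset.empty_subset _, by simp [MG.bd]⟩
    | insert v W hv ih =>
      intro h
      obtain ⟨T, hT, hT'⟩ := ih fun u hu => h u (Finset.mem_insert_of_mem hu)
      obtain ⟨R, hR, hR'⟩ : (lat d).fe (Sh d n) (two v (gh d n)) :=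
        (MG.fe_two_iff (lat d)).mpr (sphere_conn' hd (h v (Finset.mem_insert_self _ _)))
      refine ⟨R ∆ T, ?_, ?_⟩
      · intro e he
        rw [Finset.mem_symmDiff] at he
        rcases he with he | he
        · exact hR he.1
        · exact hT he.1
      · rw [MG.bd_symmDiff, hR', hT', Finset.sum_insert hv]
  set W : Finset (Vt d) := (box d (n + 1)).filter fun v => B v = 1 with hW
  have h01 : ∀ z : ZMod 2, z = 0 ∨ z = 1 := by decide
  have hWs : ∀ v ∈ W, nm v = n + 1 := by
    intro v hv
    by_contra h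
    have := (Finset.mem_filter.mp hv).2
    rw [hB v h] at this
    exact zero_ne_one this
  obtain ⟨T, hT, hT'⟩ := key W hWs
  refine ⟨T, hT, ?_⟩
  rw [hT']
  have hcard : ((W.card : ℕ) : ZMod 2) = 0 := by
    rw [← hsum, hW, Finset.card_filter]
    push_cast
    refine Finset.sum_congr rfl fun v _ => ?_
    rcases h01 (B v) with h | h <;> simp [h]
  have h1 : ∑ v ∈ W, two v (gh d n) = ∑ v ∈ W, (Pi.single v (1 : ZMod 2) : Vt d → ZMod 2) := by
    unfold two
    rw [Finset.sum_add_distrib, Finset.sum_const, ← Nat.cast_smul_eq_nsmul (ZMod 2), hcard,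
      zero_smul, add_zero]
  rw [h1]
  funext v
  rw [Finset.sum_apply]
  simp only [Pi.single_apply]
  rw [Finset.sum_ite_eq]
  by_cases hv : v ∈ W
  · rw [if_pos hv]; exact (Finset.mem_filter.mp hv).2.symm
  · rw [if_neg hv]
    by_cases h : nm v = n + 1
    · rcases h01 (B v) with h2 | h2
      · exact h2.symm
      · exact absurd (Finset.mem_filter.mpr ⟨mem_box.mpr h.le, h2⟩) hv
    · exact (hB v h).symm

end Pool.Agent.TH897.J457
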