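import Pool.Agent.TH897.J451
import Pool.Agent.TH897.J457

/-!
# Decomposition by the boundary cluster (job 458 of helper981, MP_f0ab88_pr)
-/

set_option autoImplicit false
set_option linter.unusedSectionVars false

open Pool.Agent.TH981.LO
open scoped BigOperators symmDiff MeasureTheory

namespace Pool.Agent.TH897.J458

open Pool.Agent.TH897.J451 Pool.Agent.TH897.J457

section

variable {V E : Type} [DecidableEq V] [DecidableEq E] (G : MG V E)

open Classical in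
/-- the weight of the explored part -/
noncomputable def cc (w : E → ℝ) (F : Finset E) (U : Finset V) (ω₁ : Finset E) : ℝ :=
  bw w (G.tch F (G.clF ω₁ U)) ω₁ *
    ((ω₁.powerset.filter fun η₁ => ∀ v ∈ G.clF ω₁ U, G.bd η₁ v = (0 : V → ZMod 2) v).card : ℝ)

open Classical in
theorem mark_omega (h1 : S_MARK) (w : E → ℝ) (F : Finset E) (U : Finset V) (p : Finset E → ℝ) :
    G.PS w F 0 (fun ω _ => p ω) = ∑ ω₁ ∈ F.powerset with G.con ω₁ U, cc G w F U ω₁ *
      G.PS w (G.off F (G.clF ω₁ U)) 0 (fun ω₂ _ => p (ω₁ ∪ ω₂)) := by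
  rw [h1 G w F 0 U]
  refine Finset.sum_congr rfl fun ω₁ _ => ?_
  have h0 : (fun v => if v ∈ G.clF ω₁ U then 0 else (0 : V → ZMod 2) v) = 0 := by
    funext v; simp
  rw [h0, Finset.sum_const, nsmul_eq_mul, cc, mul_assoc]

theorem PS_nonneg {w : E → ℝ} {F : Finset E} (hw0 : ∀ e ∈ F, 0 ≤ w e) (hw1 : ∀ e ∈ F, w e ≤ 1)
    {p : Finset E → ℝ} (hp : ∀ ω, 0 ≤ p ω) : 0 ≤ G.PS w F 0 (fun ω _ => p ω) := by
  have h1 : G.PS w F 0 (fun _ _ => 0) = 0 := by
    unfold MG.PS; simp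
  rw [← h1]
  exact G.PS_mono 0 hw0 hw1 fun ω _ _ _ _ => hp ω

theorem bw_ne_zero {w : E → ℝ} {F ω : Finset E} (h : bw w F ω ≠ 0) {e : E} (he : e ∈ F)
    (hw : w e = 1) : e ∈ ω := by
  by_contra hne
  apply h
  rw [bw, Finset.prod_eq_zero (Finset.mem_sdiff.mpr ⟨he, hne⟩) (by rw [hw, sub_self]), mul_zero]

end

variable {d : ℕ}

/-- the cluster of `gh` contains the sphere -/
theorem sphere_sub (hd : 2 ≤ d) {n : ℕ} {s : ℝ} {ω₁ : Finset (Ed d)}
    (hbw : bw (ww d n s) ((lat d).tch (EB d (n + 1)) ((lat d).clF ω₁ {gh d n})) ω₁ ≠ 0)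
    {v : Vt d} (hv : nm v = n + 1) : v ∈ (lat d).clF ω₁ {gh d n} := by
  have h1 := (lat d).Cn_symm (sphere_conn' hd hv)
  unfold MG.Cn at h1
  induction h1 with
  | refl => exact (lat d).subset_clF _ _ (Finset.mem_singleton_self _)
  | @tail b c hab h2 ih =>
    obtain ⟨e, he, h3⟩ := h2
    have hb : nm b = n + 1 := by
      have := mem_Sh.mp he
      rcases h3 with ⟨h3, h4⟩ | ⟨h3, h4⟩
      · rw [← h3]; exact this.1
      · rw [← h4]; exact this.2
    have ih' := ih hb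
    have heF : e ∈ EB d (n + 1) := (Finset.mem_sdiff.mp he).1
    have hw : ww d n s e = 1 := by rw [ww, if_neg (Finset.mem_sdiff.mp he).2]
    have htch : e ∈ (lat d).tch (EB d (n + 1)) ((lat d).clF ω₁ {gh d n}) := by
      rw [mem_tch]
      refine ⟨heF, ?_⟩
      rcases h3 with ⟨h3, _⟩ | ⟨_, h4⟩
      · left; rw [h3]; exact ih'
      · right; rw [h4]; exact ih'
    have heω := bw_ne_zero hbw htch hw
    rcases h3 with ⟨h3, h4⟩ | ⟨h3, h4⟩
    · rw [← h4, ← (lat d).s_mem_clF_iff heω, h3]; exact ih'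
    · rw [← h3, (lat d).s_mem_clF_iff heω, h4]; exact ih'

theorem mwd (d : ℕ) (hd : 2 ≤ d) (h1 : S_MARK) (h2 : S_CMONO) : S_MWD d := by
  classical
  intro x s n hx hxs hs hphi
  set w := ww d n s with hw
  set F := EB d (n + 1) with hF
  set g := gh d n with hg
  have hs0 : 0 < s := hx.trans_le hxs
  have hw0 : ∀ e ∈ F, 0 ≤ w e := fun e _ => by
    rw [hw, ww]; split_ifs
    · exact hs0.le
    · exact zero_le_one
  have hw1 : ∀ e ∈ F, w e ≤ 1 := fun e _ => by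
    rw [hw, ww]; split_ifs
    · exact hs.le
    · exact le_rfl
  have hZ : 0 < (lat d).Z w F 0 := lt_of_lt_of_le one_pos ((lat d).one_le_Z_zero hw0)
  -- the left side
  have hL : 1 - mw d n s =
      (lat d).PS w F 0 (fun ω _ => if ¬ (lat d).Cn ω 0 g then 1 else 0) / (lat d).Z w F 0 := by
    rw [mw, (lat d).corr_eq_fkp]
    have e1 : (lat d).Z w F 0 = (lat d).PS w F 0 (fun _ _ => 1) :=
      ((lat d).PS_eta w F 0 fun _ => 1).symm
    have e2 : (lat d).PS w F 0 (fun _ _ => 1) =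
        (lat d).PS w F 0 (fun ω _ => if (lat d).fe ω (two 0 g) then 1 else 0) +
        (lat d).PS w F 0 (fun ω _ => if ¬ (lat d).Cn ω 0 g then 1 else 0) := by
      rw [← (lat d).PS_add]
      refine (lat d).PS_congr 0 (fun _ _ => rfl) fun ω _ η _ _ => ?_
      simp only [(lat d).fe_two_iff]
      by_cases h : (lat d).Cn ω 0 g <;> simp [h]
    rw [eq_div_iff hZ.ne', sub_mul, one_mul, MG.fkp, div_mul_cancel₀ _ hZ.ne']
    rw [e1, e2]
    ring
  rw [hL]
  unfold MG.fkp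
  simp_rw [← add_div]
  rw [← Finset.sum_div]
  refine div_le_div_of_nonneg_right ?_ hZ.le
  simp_rw [mark_omega (lat d) h1 w F {g}]
  simp_rw [← Finset.sum_add_distrib]
  rw [Finset.sum_comm]
  refine Finset.sum_le_sum fun ω₁ hω₁ => ?_
  rw [Finset.mem_filter, Finset.mem_powerset] at hω₁
  obtain ⟨hω₁F, hc⟩ := hω₁
  simp_rw [← mul_add]
  rw [← Finset.mul_sum]
  set κ := (lat d).clF ω₁ {g} with hκ
  have hgκ : g ∈ κ := (lat d).subset_clF _ _ (Finset.mem_singleton_self _)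
  have htch : ω₁ ⊆ (lat d).tch F κ := fun e he => mem_tch.mpr ⟨hω₁F he, Or.inl (hc e he)⟩
  have hoffF : ∀ e ∈ (lat d).off F κ, e ∈ F := fun e he => (mem_off.mp he).1
  have ho0 : ∀ e ∈ (lat d).off F κ, 0 ≤ w e := fun e he => hw0 e (hoffF e he)
  have ho1 : ∀ e ∈ (lat d).off F κ, w e ≤ 1 := fun e he => hw1 e (hoffF e he)
  have hcc : 0 ≤ cc (lat d) w F {g} ω₁ := by
    rw [cc]
    exact mul_nonneg (MG.J339.bwnn htch (fun e he => hw0 e (mem_tch.mp he).1)
      (fun e he => hw1 e (mem_tch.mp he).1)) (Nat.cast_nonneg _)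
  -- clusters
  have hcl : ∀ ω₂ ⊆ (lat d).off F κ, (lat d).clF (ω₁ ∪ ω₂) {g} = κ := fun ω₂ h =>
    clF_union fun e he => (mem_off.mp (h he)).2
  have hCn : ∀ ω₂ ⊆ (lat d).off F κ, ∀ v, (lat d).Cn (ω₁ ∪ ω₂) v g ↔ v ∈ κ := by
    intro ω₂ h v
    rw [← hcl ω₂ h, (lat d).mem_clF]
    constructor
    · intro h3
      exact ⟨g, Finset.mem_singleton_self _, (lat d).Cn_symm h3⟩
    · rintro ⟨u, hu, h3⟩
      rw [Finset.mem_singleton] at hu
      rw [hu] at h3
      exact (lat d).Cn_symm h3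
  have hnn : ∀ e ∈ EH d n, 0 ≤ (lat d).PS w ((lat d).off F κ) 0 (fun ω₂ _ =>
        @ite ℝ ((lat d).Cn (ω₁ ∪ ω₂) 0 ((lat d).s e) ∧ (lat d).Cn (ω₁ ∪ ω₂) ((lat d).t e) g ∧
          ¬ (lat d).Cn (ω₁ ∪ ω₂) 0 g) (Classical.propDecidable _) 1 0) ∧
      0 ≤ (lat d).PS w ((lat d).off F κ) 0 (fun ω₂ _ =>
        @ite ℝ ((lat d).Cn (ω₁ ∪ ω₂) 0 ((lat d).t e) ∧ (lat d).Cn (ω₁ ∪ ω₂) ((lat d).s e) g ∧
          ¬ (lat d).Cn (ω₁ ∪ ω₂) 0 g) (Classical.propDecidable _) 1 0) := by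
    intro e _
    refine ⟨PS_nonneg (lat d) ho0 ho1 fun ω => ?_, PS_nonneg (lat d) ho0 ho1 fun ω => ?_⟩
    · split_ifs <;> norm_num
    · split_ifs <;> norm_num
  by_cases h0κ : (0 : Vt d) ∈ κ
  · have e1 : (lat d).PS w ((lat d).off F κ) 0
        (fun ω₂ _ => if ¬ (lat d).Cn (ω₁ ∪ ω₂) 0 g then (1 : ℝ) else 0) = 0 := by
      have : (lat d).PS w ((lat d).off F κ) 0
          (fun ω₂ _ => if ¬ (lat d).Cn (ω₁ ∪ ω₂) 0 g then (1 : ℝ) else 0) =
          (lat d).PS w ((lat d).off F κ) 0 (fun _ _ => 0) := by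
        refine (lat d).PS_congr 0 (fun _ _ => rfl) fun ω₂ hω₂ η _ _ => ?_
        rw [if_neg]
        rw [not_not, hCn ω₂ hω₂]
        exact h0κ
      rw [this]
      unfold MG.PS; simp
    rw [e1, mul_zero]
    exact mul_nonneg hcc (Finset.sum_nonneg fun e he => add_nonneg (hnn e he).1 (hnn e he).2)
  by_cases hbw : bw w ((lat d).tch F κ) ω₁ = 0
  · have : cc (lat d) w F {g} ω₁ = 0 := by rw [cc, hbw, zero_mul]
    rw [this, zero_mul, zero_mul]
  refine mul_le_mul_of_nonneg_left ?_ hcc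
  have hsph : ∀ v, nm v = n + 1 → v ∈ κ := fun v hv => sphere_sub hd hbw hv
  -- the complement of the cluster
  set S : Finset (Vt d) := box d (n + 1) \ κ with hS
  have hSbox : ∀ v ∈ S, nm v ≤ n := by
    intro v hv
    rw [hS, Finset.mem_sdiff, mem_box] at hv
    have : nm v ≠ n + 1 := fun h => hv.2 (hsph v h)
    omega
  have h0S : (0 : Vt d) ∈ S := by
    rw [hS, Finset.mem_sdiff, mem_box, nm_zero]
    exact ⟨Nat.zero_le _, h0κ⟩
  have hoff : (lat d).off F κ = (lat d).ins (TE S) S := by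
    ext e
    rw [mem_off, MG.ins, Finset.mem_filter, mem_TE, lat_s, lat_t, hF, mem_EB, hS,
      Finset.mem_sdiff, Finset.mem_sdiff, mem_box, mem_box]
    tauto
  have hwoff : ∀ e ∈ (lat d).off F κ, w e = s := by
    intro e he
    rw [hoff, MG.ins, Finset.mem_filter, lat_s, lat_t] at he
    have : e ∈ EH d n := by
      rw [← TE_box, mem_TE, mem_box]
      exact Or.inl (hSbox _ he.2.1)
    rw [hw, ww, if_pos this]
  have hZS : 0 < (lat d).Z w ((lat d).off F κ) 0 :=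
    lt_of_lt_of_le one_pos ((lat d).one_le_Z_zero ho0)
  have hLHS : (lat d).PS w ((lat d).off F κ) 0
      (fun ω₂ _ => if ¬ (lat d).Cn (ω₁ ∪ ω₂) 0 g then (1 : ℝ) else 0) =
      (lat d).Z w ((lat d).off F κ) 0 := by
    have : (lat d).PS w ((lat d).off F κ) 0
        (fun ω₂ _ => if ¬ (lat d).Cn (ω₁ ∪ ω₂) 0 g then (1 : ℝ) else 0) =
        (lat d).PS w ((lat d).off F κ) 0 (fun _ _ => 1) := by
      refine (lat d).PS_congr 0 (fun _ _ => rfl) fun ω₂ hω₂ η _ _ => ?_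
      rw [if_pos]
      rw [hCn ω₂ hω₂]
      exact h0κ
    rw [this]
    exact (lat d).PS_eta _ _ _ fun _ => 1
  rw [hLHS]
  -- lower bound of the terms
  have hterm : ∀ (y z : Vt d), z ∈ κ →
      (lat d).Z w ((lat d).off F κ) 0 * CC d x ((lat d).ins (TE S) S) (two 0 y) ≤
      (lat d).PS w ((lat d).off F κ) 0 (fun ω₂ _ =>
        @ite ℝ ((lat d).Cn (ω₁ ∪ ω₂) 0 y ∧ (lat d).Cn (ω₁ ∪ ω₂) z g ∧
          ¬ (lat d).Cn (ω₁ ∪ ω₂) 0 g) (Classical.propDecidable _) 1 0) := by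
    intro y z hz
    have e1 : (lat d).Z w ((lat d).off F κ) 0 * (lat d).corr w ((lat d).off F κ) (two 0 y) ≤
        (lat d).PS w ((lat d).off F κ) 0 (fun ω₂ _ =>
        @ite ℝ ((lat d).Cn (ω₁ ∪ ω₂) 0 y ∧ (lat d).Cn (ω₁ ∪ ω₂) z g ∧
          ¬ (lat d).Cn (ω₁ ∪ ω₂) 0 g) (Classical.propDecidable _) 1 0) := by
      rw [(lat d).corr_eq_fkp, MG.fkp, mul_div_cancel₀ _ hZS.ne']
      refine (lat d).PS_mono 0 ho0 ho1 fun ω₂ hω₂ η _ _ => ?_
      by_cases h : (lat d).fe ω₂ (two 0 y)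
      · rw [if_pos h, if_pos]
        refine ⟨(lat d).Cn_mono Finset.subset_union_right ((lat d).fe_two_iff.mp h),
          (hCn ω₂ hω₂ z).mpr hz, fun h3 => h0κ ((hCn ω₂ hω₂ 0).mp h3)⟩
      · rw [if_neg h]
        split_ifs <;> norm_num
    refine le_trans (mul_le_mul_of_nonneg_left ?_ hZS.le) e1
    rw [hoff]
    refine h2 (lat d) (fun _ => x) w _ _ _ (Finset.Subset.refl _) (fun _ _ => hx.le) ?_ ?_ ?_
    · intro e he
      rw [← hoff] at he
      rw [hwoff e he]; exact hxs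
    · intro e he
      rw [← hoff] at he
      exact ho0 e he
    · intro e he
      rw [← hoff] at he
      exact ho1 e he
  have hcut : (lat d).cut (TE S) S ⊆ EH d n := by
    intro e he
    rw [MG.cut, Finset.mem_filter, lat_s, lat_t] at he
    rw [← TE_box, mem_TE, mem_box, mem_box]
    rcases he.2 with h | h
    · exact Or.inl (hSbox _ h.1)
    · exact Or.inr (hSbox _ h.2)
  have hCCnn : ∀ y, 0 ≤ CC d x ((lat d).ins (TE S) S) (two 0 y) := fun y =>
    (lat d).corr_nonneg _ fun _ _ => hx.le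
  have hsum : (lat d).Z w ((lat d).off F κ) 0 ≤ ∑ e ∈ (lat d).cut (TE S) S,
      (lat d).Z w ((lat d).off F κ) 0 *
        CC d x ((lat d).ins (TE S) S) (two 0 ((lat d).inn S e)) := by
    rw [← Finset.mul_sum]
    refine le_mul_of_one_le_right hZS.le ?_
    refine (hphi S h0S).trans ?_
    rw [phi]
    refine Finset.sum_le_sum fun e _ => ?_
    have := hCCnn ((lat d).inn S e)
    have hx1 : x ≤ 1 := hxs.trans hs.le
    nlinarith
  refine hsum.trans ?_
  refine le_trans ?_ (Finset.sum_le_sum_of_subset_of_nonneg hcut fun e he _ =>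
    add_nonneg (hnn e he).1 (hnn e he).2)
  refine Finset.sum_le_sum fun e he => ?_
  have heH := hcut he
  rw [MG.cut, Finset.mem_filter, lat_s, lat_t] at he
  have heF : e ∈ F := (Finset.mem_filter.mp heH).1
  rw [hF, mem_EB] at heF
  rcases he.2 with ⟨h3, h4⟩ | ⟨h3, h4⟩
  · -- the first endpoint is inside
    have hinn : (lat d).inn S e = (lat d).s e := by
      rw [MG.inn, lat_s, if_pos h3]
    have hout : (lat d).t e ∈ κ := by
      rw [lat_t]
      by_contra h5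
      exact h4 (Finset.mem_sdiff.mpr ⟨mem_box.mpr heF.2, h5⟩)
    rw [hinn]
    exact (hterm _ _ hout).trans (le_add_of_nonneg_right (hnn e heH).2)
  · have hinn : (lat d).inn S e = (lat d).t e := by
      rw [MG.inn, lat_s, if_neg h3]
    have hout : (lat d).s e ∈ κ := by
      rw [lat_s]
      by_contra h5
      exact h3 (Finset.mem_sdiff.mpr ⟨mem_box.mpr heF.1, h5⟩)
    rw [hinn]
    exact (hterm _ _ hout).trans (le_add_of_nonneg_left (hnn e heH).1)

end Pool.Agent.TH897.J458
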